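import Pool.Agent.KS6_47.Zof.Basic

namespace Pool.Agent.KS6_47.Zof

open Polynomial Set Filter Topology

namespace ModARG

theorem arg_factor (D : Dat) (t : ℂ) (ht : 0 ≤ t.im) (j : Fin D.n) :
    0 ≤ Complex.arg (1 - (starRingEnd ℂ) t / (D.a j : ℂ)) ∧
    Complex.arg (1 - (starRingEnd ℂ) t / (D.a j : ℂ)) ≤ Real.pi ∧
    (1 - t / (D.a j : ℂ)) = (‖1 - t / (D.a j : ℂ)‖ : ℂ) *
      Complex.exp (-(Complex.I * (Complex.arg (1 - (starRingEnd ℂ) t / (D.a j : ℂ)) : ℂ))) := by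
  have h1 : 0 ≤ (1 - (starRingEnd ℂ) t / (D.a j : ℂ)).im := by
    rw [Complex.sub_im, Complex.one_im, Complex.div_ofReal_im, Complex.conj_im, zero_sub, neg_div,
      neg_neg]
    exact div_nonneg ht (D.ha j).le
  refine ⟨Complex.arg_nonneg_iff.2 h1, Complex.arg_le_pi _, ?_⟩
  have h2 : (1 - t / (D.a j : ℂ)) = (starRingEnd ℂ) (1 - (starRingEnd ℂ) t / (D.a j : ℂ)) := by
    rw [map_sub, map_one, map_div₀, Complex.conj_conj, Complex.conj_ofReal]
  set w := 1 - (starRingEnd ℂ) t / (D.a j : ℂ) with hw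
  rw [h2, Complex.norm_conj]
  have h3 : (starRingEnd ℂ) w = (starRingEnd ℂ) ((‖w‖ : ℂ) * Complex.exp ((w.arg : ℂ) * Complex.I)) := by
    rw [Complex.norm_mul_exp_arg_mul_I]
  rw [h3, map_mul, Complex.conj_ofReal, ← Complex.exp_conj, map_mul, Complex.conj_ofReal,
    Complex.conj_I]
  congr 2
  ring

end ModARG

open ModARG in
theorem mARG : StmARG := by
  intro D t ht ht0
  have harg : 0 ≤ Complex.arg t := Complex.arg_nonneg_iff.2 ht
  have hargpi := Complex.arg_le_pi t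
  refine ⟨?_, ?_, ?_⟩
  · unfold Dat.A
    exact add_nonneg (Finset.sum_nonneg fun j _ => (arg_factor D t ht j).1)
      (mul_nonneg (Nat.cast_nonneg _) harg)
  · unfold Dat.A
    rw [add_mul]
    refine add_le_add ?_ (mul_le_mul_of_nonneg_left hargpi (Nat.cast_nonneg _))
    have := Finset.sum_le_card_nsmul (Finset.univ : Finset (Fin D.n))
      (fun j => Complex.arg (1 - (starRingEnd ℂ) t / (D.a j : ℂ))) Real.pi
      (fun j _ => (arg_factor D t ht j).2.1)
    simpa using this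
  · have h1 : D.q t = (‖D.q t‖ : ℂ) * Complex.exp (-(Complex.I *
        ((∑ j, Complex.arg (1 - (starRingEnd ℂ) t / (D.a j : ℂ)) : ℝ) : ℂ))) := by
      unfold Dat.q
      rw [norm_mul, norm_prod, Complex.norm_real, Real.norm_eq_abs, abs_of_pos D.hc,
        Complex.ofReal_mul, mul_assoc, Complex.ofReal_sum, Finset.mul_sum,
        ← Finset.sum_neg_distrib, Complex.exp_sum, Complex.ofReal_prod, ← Finset.prod_mul_distrib]
      congr 1
      exact Finset.prod_congr rfl fun j _ => (arg_factor D t ht j).2.2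
    have h2 : t ^ D.r = ((‖t‖ ^ D.r : ℝ) : ℂ) *
        Complex.exp (Complex.I * (((D.r : ℝ) * Complex.arg t : ℝ) : ℂ)) := by
      nth_rewrite 1 [← Complex.norm_mul_exp_arg_mul_I t]
      rw [mul_pow, ← Complex.exp_nat_mul]
      push_cast
      congr 2
      ring
    have ht1 : ((‖t‖ ^ D.r : ℝ) : ℂ) ≠ 0 := by
      have : ‖t‖ ^ D.r ≠ 0 := pow_ne_zero _ (norm_ne_zero_iff.2 ht0)
      exact_mod_cast this
    rw [h2]
    nth_rewrite 1 [h1]
    unfold Dat.A
    rw [Complex.ofReal_div, div_eq_iff (mul_ne_zero ht1 (Complex.exp_ne_zero _))]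
    rw [mul_assoc, ← mul_assoc (Complex.exp _), mul_comm (Complex.exp _ ) (((‖t‖ ^ D.r : ℝ) : ℂ)),
      mul_assoc (((‖t‖ ^ D.r : ℝ) : ℂ)), ← Complex.exp_add, ← mul_assoc, div_mul_cancel₀ _ ht1]
    congr 2
    push_cast
    ring

end Pool.Agent.KS6_47.Zof
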