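import Pool.Agent.KS6_47.Zof.Defs

/-!
Project ZZ: small lemmas used by the modules TYPE1, LC2, LCM (helper43).
-/

namespace Pool.Agent.KS6_47.Zof.B43

open Polynomial Set Filter Topology
open Pool.Agent.KS6_47.Zof

set_option linter.unusedSimpArgs false

theorem aeval_Q (D : Dat) (t : ℂ) : aeval t D.Q = D.q t := by
  simp only [Dat.Q, Dat.q, map_mul, map_prod, map_sub, map_one, aeval_C, aeval_X]
  congr 1
  refine Finset.prod_congr rfl fun j _ => ?_
  simp [div_eq_inv_mul]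

theorem q_conj (D : Dat) (t : ℂ) : D.q (starRingEnd ℂ t) = starRingEnd ℂ (D.q t) := by
  simp [Dat.q, map_prod]

theorem den_conj (D : Dat) (z : ℝ) (t : ℂ) :
    D.den z (starRingEnd ℂ t) = starRingEnd ℂ (D.den z t) := by
  simp [Dat.den, q_conj]

theorem q_cont (D : Dat) : Continuous D.q := by
  unfold Dat.q; fun_prop

theorem q_zero (D : Dat) : D.q 0 = (D.c : ℂ) := by simp [Dat.q]

theorem q_eq_zero_iff (D : Dat) (t : ℂ) : D.q t = 0 ↔ ∃ j, t = (D.a j : ℂ) := by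
  unfold Dat.q
  rw [mul_eq_zero, Finset.prod_eq_zero_iff]
  have hc : (D.c : ℂ) ≠ 0 := by exact_mod_cast D.hc.ne'
  constructor
  · rintro (h | ⟨j, -, h⟩)
    · exact absurd h hc
    · refine ⟨j, ?_⟩
      have ha : (D.a j : ℂ) ≠ 0 := by exact_mod_cast (D.ha j).ne'
      field_simp at h
      linear_combination -h
  · rintro ⟨j, h⟩
    refine Or.inr ⟨j, Finset.mem_univ _, ?_⟩
    have ha : (D.a j : ℂ) ≠ 0 := by exact_mod_cast (D.ha j).ne'
    rw [h, div_self ha, sub_self]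

theorem q_ne_zero_of_im (D : Dat) (t : ℂ) (h : t.im ≠ 0) : D.q t ≠ 0 := by
  intro h0
  obtain ⟨j, hj⟩ := (q_eq_zero_iff D t).1 h0
  exact h (by rw [hj]; simp)

theorem aeval_dQ (D : Dat) (t : ℂ) (h : D.q t ≠ 0) :
    aeval t (derivative D.Q) = D.q t * ∑ j, (-1 : ℂ) / ((D.a j : ℂ) - t) := by
  have hprod : ∀ j : Fin D.n, (1 - t / (D.a j : ℂ)) ≠ 0 := by
    intro j hj
    exact h (by unfold Dat.q; rw [Finset.prod_eq_zero (Finset.mem_univ j) hj, mul_zero])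
  simp only [Dat.Q, derivative_mul, derivative_C, zero_mul, zero_add, derivative_prod_finset,
    map_mul, map_sum, map_prod, map_sub, map_one, aeval_C, aeval_X, derivative_sub,
    derivative_one, derivative_X, mul_one, map_zero, zero_sub, map_neg]
  unfold Dat.q
  have hcc : (algebraMap ℝ ℂ) D.c = (D.c : ℂ) := rfl
  rw [hcc, mul_assoc]
  refine congrArg ((D.c : ℂ) * ·) ?_
  rw [Finset.mul_sum]
  refine Finset.sum_congr rfl fun j _ => ?_
  have ha : (D.a j : ℂ) ≠ 0 := by exact_mod_cast (D.ha j).ne'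
  have h1 := hprod j
  have h2 : (D.a j : ℂ) - t ≠ 0 := by
    intro h3
    apply h1
    field_simp
    rw [h3, mul_zero]
  rw [← Finset.mul_prod_erase Finset.univ (fun j => (1 - t / (D.a j : ℂ))) (Finset.mem_univ j)]
  have h4 : ∀ i, (1 - (algebraMap ℝ ℂ) (D.a i)⁻¹ * t) = 1 - t / (D.a i : ℂ) := by
    intro i; simp [div_eq_inv_mul]
  simp only [h4]
  have h5 : (algebraMap ℝ ℂ) (D.a j)⁻¹ = (D.a j : ℂ)⁻¹ := by simp
  rw [h5]
  have h6 : (1 - t / (D.a j : ℂ)) * (-1 / ((D.a j : ℂ) - t)) = -(D.a j : ℂ)⁻¹ := by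
    field_simp
  calc _ = (∏ x ∈ Finset.univ.erase j, (1 - t / (D.a x : ℂ))) * -(D.a j : ℂ)⁻¹ := by ring_nf
    _ = _ := by rw [← h6]; ring

theorem aeval_L (D : Dat) (t : ℂ) :
    aeval t D.L = (D.r : ℂ) * D.q t - t * aeval t (derivative D.Q) := by
  simp [Dat.L, aeval_Q]

theorem aeval_L_eq (D : Dat) (t : ℂ) (h : D.q t ≠ 0) : aeval t D.L = D.q t * D.S t := by
  rw [aeval_L, aeval_dQ D t h, Dat.S, mul_add, Finset.mul_sum, Finset.mul_sum, Finset.mul_sum,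
    sub_eq_add_neg, ← Finset.sum_neg_distrib]
  congr 1
  · ring
  · refine Finset.sum_congr rfl fun j _ => ?_
    ring

theorem S_im (D : Dat) (t : ℂ) :
    (D.S t).im = ∑ j, D.a j * t.im / Complex.normSq ((D.a j : ℂ) - t) := by
  simp only [Dat.S, Complex.add_im, Complex.natCast_im, zero_add, Complex.im_sum]
  refine Finset.sum_congr rfl fun j _ => ?_
  rw [Complex.div_im]
  simp only [Complex.sub_re, Complex.ofReal_re, Complex.sub_im, Complex.ofReal_im, zero_sub]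
  ring

theorem S_im_ge (D : Dat) (t : ℂ) (h : 0 ≤ t.im) (j : Fin D.n) :
    D.a j * t.im / Complex.normSq ((D.a j : ℂ) - t) ≤ (D.S t).im := by
  rw [S_im]
  refine Finset.single_le_sum (f := fun j => D.a j * t.im / Complex.normSq ((D.a j : ℂ) - t))
    (fun i _ => ?_) (Finset.mem_univ j)
  exact div_nonneg (mul_nonneg (D.ha i).le h) (Complex.normSq_nonneg _)

theorem S_im_pos (D : Dat) (t : ℂ) (h : 0 < t.im) : 0 < (D.S t).im := by
  have hn := D.hn
  refine lt_of_lt_of_le ?_ (S_im_ge D t h.le ⟨0, hn⟩)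
  refine div_pos (mul_pos (D.ha _) h) (Complex.normSq_pos.2 ?_)
  intro h0
  have := congrArg Complex.im h0
  simp at this
  exact h.ne' this

theorem L_conj (D : Dat) (t : ℂ) : aeval (starRingEnd ℂ t) D.L = starRingEnd ℂ (aeval t D.L) := by
  rw [Polynomial.aeval_conj]

theorem L_ne_zero_of_im (D : Dat) (t : ℂ) (h : t.im ≠ 0) : aeval t D.L ≠ 0 := by
  have key : ∀ w : ℂ, 0 < w.im → aeval w D.L ≠ 0 := by
    intro w hw
    rw [aeval_L_eq D w (q_ne_zero_of_im D w hw.ne')]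
    refine mul_ne_zero (q_ne_zero_of_im D w hw.ne') ?_
    intro h0
    have := S_im_pos D w hw
    rw [h0] at this
    simp at this
  rcases lt_or_gt_of_ne h with h1 | h1
  · have := key (starRingEnd ℂ t) (by simpa using h1)
    rw [L_conj] at this
    intro h0
    exact this (by rw [h0, map_zero])
  · exact key t h1

theorem L_ne_zero (D : Dat) : D.L ≠ 0 := by
  intro h
  have := L_ne_zero_of_im D Complex.I (by simp)
  rw [h] at this
  simp at this

theorem F_conj (D : Dat) (R : ℝ[X]) (t : ℂ) :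
    D.F R (starRingEnd ℂ t) = starRingEnd ℂ (D.F R t) := by
  simp only [Dat.F, map_div₀, Polynomial.aeval_conj]

theorem thm_le_pi (D : Dat) : D.thm ≤ Real.pi := by
  unfold Dat.thm
  split_ifs with h
  · have : 0 ≤ Real.pi / (D.n : ℝ) := by positivity
    linarith
  · have h1 : (1 : ℝ) ≤ D.r := by exact_mod_cast Nat.one_le_iff_ne_zero.2 h
    exact div_le_self Real.pi_pos.le h1

theorem norm_pt (tau : ℝ → ℝ) (θ : ℝ) (h : 0 ≤ tau θ) : ‖pt tau θ‖ = tau θ := by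
  rw [pt, norm_mul, Complex.norm_exp_ofReal_mul_I, mul_one, Complex.norm_real,
    Real.norm_eq_abs, abs_of_nonneg h]

theorem pt_im (tau : ℝ → ℝ) (θ : ℝ) : (pt tau θ).im = tau θ * Real.sin θ := by
  rw [pt, Complex.im_ofReal_mul, Complex.exp_ofReal_mul_I_im]

theorem pt_im_pos (D : Dat) (tau : ℝ → ℝ) (hc : D.IsCurve tau) (θ : ℝ) (h : θ ∈ Ioo 0 D.thm) :
    0 < (pt tau θ).im := by
  rw [pt_im]
  exact mul_pos (hc.2 θ h).1 (Real.sin_pos_of_pos_of_lt_pi h.1 (lt_of_lt_of_le h.2 (thm_le_pi D)))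

theorem arg_pt (D : Dat) (tau : ℝ → ℝ) (hc : D.IsCurve tau) (θ : ℝ) (h : θ ∈ Ioo 0 D.thm) :
    Complex.arg (pt tau θ) = θ := by
  rw [pt, Complex.exp_mul_I]
  exact Complex.arg_mul_cos_add_sin_mul_I (hc.2 θ h).1
    ⟨by linarith [h.1, Real.pi_pos], (h.2.trans_le (thm_le_pi D)).le⟩

theorem norm_seg (t b : ℂ) (s : ℝ) :
    ‖seg t b s‖ = Real.exp ((1 - s) * Real.log ‖t‖ + s * Real.log ‖b‖) := by
  rw [seg, Complex.norm_exp]
  congr 1
  simp [Complex.log_re, Complex.log_im]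

theorem seg_im (t b : ℂ) (s : ℝ) :
    (seg t b s).im = ‖seg t b s‖ * Real.sin ((1 - s) * Complex.arg t + s * Complex.arg b) := by
  rw [norm_seg, seg, Complex.exp_im]
  congr 2
  · simp [Complex.log_re, Complex.log_im]
  · simp [Complex.log_re, Complex.log_im]

theorem seg_im_nonneg (t b : ℂ) (ht : 0 ≤ t.im) (hb : 0 ≤ b.im) (s : ℝ) (hs : s ∈ Icc (0:ℝ) 1) :
    0 ≤ (seg t b s).im := by
  rw [seg_im]
  have h1 := Complex.arg_nonneg_iff.2 ht
  have h2 := Complex.arg_nonneg_iff.2 hb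
  have h3 := Complex.arg_le_pi t
  have h4 := Complex.arg_le_pi b
  refine mul_nonneg (norm_nonneg _) (Real.sin_nonneg_of_nonneg_of_le_pi ?_ ?_)
  · have := hs.1; have := hs.2
    have h5 : 0 ≤ (1 - s) := by linarith
    positivity
  · have := hs.1; have := hs.2
    nlinarith

theorem norm_seg_le (t b : ℂ) (ht : t ≠ 0) (hb : b ≠ 0) (M : ℝ) (h1 : ‖t‖ ≤ M) (h2 : ‖b‖ ≤ M)
    (s : ℝ) (hs : s ∈ Icc (0:ℝ) 1) : ‖seg t b s‖ ≤ M := by
  have ht' : 0 < ‖t‖ := norm_pos_iff.2 ht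
  have hb' : 0 < ‖b‖ := norm_pos_iff.2 hb
  have hM : 0 < M := ht'.trans_le h1
  rw [norm_seg, ← Real.exp_log hM]
  apply Real.exp_le_exp.2
  have h3 := Real.log_le_log ht' h1
  have h4 := Real.log_le_log hb' h2
  have := hs.1; have := hs.2
  nlinarith

theorem le_norm_seg (t b : ℂ) (M : ℝ) (hM : 0 < M) (h1 : M ≤ ‖t‖) (h2 : M ≤ ‖b‖)
    (s : ℝ) (hs : s ∈ Icc (0:ℝ) 1) : M ≤ ‖seg t b s‖ := by
  rw [norm_seg]
  refine (Real.exp_log hM).symm.le.trans (Real.exp_le_exp.2 ?_)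
  have h3 := Real.log_le_log hM h1
  have h4 := Real.log_le_log hM h2
  have := hs.1; have := hs.2
  nlinarith

/-- the norm of `S` on a set away from the zeros -/
theorem norm_S_le (D : Dat) (w : ℂ) (M δ : ℝ) (hδ : 0 < δ) (h1 : ‖w‖ ≤ M)
    (h2 : ∀ j, δ ≤ ‖(D.a j : ℂ) - w‖) : ‖D.S w‖ ≤ (D.r : ℝ) + D.n * (M / δ) := by
  unfold Dat.S
  refine (norm_add_le _ _).trans ?_
  rw [Complex.norm_natCast]
  refine add_le_add le_rfl ((norm_sum_le _ _).trans ?_)
  have : ∀ j ∈ (Finset.univ : Finset (Fin D.n)), ‖w / ((D.a j : ℂ) - w)‖ ≤ M / δ := by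
    intro j _
    rw [norm_div]
    exact div_le_div₀ ((norm_nonneg w).trans h1) h1 hδ (h2 j)
  refine (Finset.sum_le_card_nsmul _ _ _ this).trans ?_
  simp

/-- reduction to the upper half plane -/
theorem exists_upper (D : Dat) (z : ℝ) (t b : ℂ) (hb : D.den z b = 0) (h1 : b ≠ t)
    (h2 : b ≠ starRingEnd ℂ t) :
    ∃ b' : ℂ, 0 ≤ b'.im ∧ D.den z b' = 0 ∧ b' ≠ t ∧ ‖b'‖ = ‖b‖ ∧ (b' = b ∨ b' = starRingEnd ℂ b) := by
  by_cases h : 0 ≤ b.im
  · exact ⟨b, h, hb, h1, rfl, Or.inl rfl⟩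
  · push Not at h
    refine ⟨starRingEnd ℂ b, ?_, ?_, ?_, ?_, Or.inr rfl⟩
    · simp only [Complex.conj_im]; linarith
    · rw [den_conj, hb, map_zero]
    · intro h3
      apply h2
      rw [← h3, Complex.conj_conj]
    · exact Complex.norm_conj b

theorem root_ne_zero (D : Dat) (z : ℝ) (b : ℂ) (hz : 0 < z) (hb : D.den z b = 0) : b ≠ 0 := by
  rintro rfl
  unfold Dat.den at hb
  rw [q_zero] at hb
  by_cases hr : D.r = 0
  · rw [hr, pow_zero, mul_one] at hb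
    have : (D.c + z : ℝ) = 0 := by exact_mod_cast hb
    linarith [D.hc]
  · rw [zero_pow hr, mul_zero, add_zero] at hb
    exact D.hc.ne' (by exact_mod_cast hb)

theorem norm_q_root (D : Dat) (z : ℝ) (b : ℂ) (hz : 0 < z) (hb : D.den z b = 0) :
    ‖D.q b‖ = z * ‖b‖ ^ D.r := by
  have : D.q b = -((z : ℂ) * b ^ D.r) := by
    unfold Dat.den at hb; linear_combination hb
  rw [this, norm_neg, norm_mul, norm_pow, Complex.norm_real, Real.norm_eq_abs, abs_of_pos hz]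

/-- eventually near `θ₀` gives an `ε` -/
theorem eps_of_eventually (S : Set ℝ) (θ₀ : ℝ) (P : ℝ → Prop)
    (h : ∀ᶠ θ in 𝓝[S \ {θ₀}] θ₀, P θ) :
    ∃ ε > 0, ∀ θ ∈ S, 0 < |θ - θ₀| → |θ - θ₀| ≤ ε → P θ := by
  rw [eventually_nhdsWithin_iff, Metric.eventually_nhds_iff] at h
  obtain ⟨ε, hε, h⟩ := h
  refine ⟨ε / 2, by positivity, fun θ hθ h0 h1 => ?_⟩
  refine h (by rw [Real.dist_eq]; linarith) ⟨hθ, ?_⟩
  rintro rfl
  simp at h0

end Pool.Agent.KS6_47.Zof.B43
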