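import Pool.Agent.KS6_47.Zof.Defs

/-! Simple lemmas for project ZZ. -/

namespace Pool.Agent.KS6_47.Zof

open Polynomial Set Filter Topology

namespace Dat

variable (D : Dat)

theorem a_ne (j : Fin D.n) : (D.a j : ℂ) ≠ 0 := by
  exact_mod_cast (D.ha j).ne'

theorem c_ne : (D.c : ℂ) ≠ 0 := by exact_mod_cast D.hc.ne'

theorem aeval_Q (t : ℂ) : aeval t D.Q = D.q t := by
  unfold Q q
  rw [map_mul, map_prod, aeval_C]
  congr 1
  refine Finset.prod_congr rfl fun j _ => ?_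
  simp only [map_sub, map_one, map_mul, aeval_C, aeval_X]
  rw [Complex.coe_algebraMap]
  push_cast
  ring

theorem aeval_dp (z : ℝ) (t : ℂ) : aeval t (D.dp z) = D.den z t := by
  unfold dp den
  rw [map_add, aeval_Q, map_mul, aeval_C, map_pow, aeval_X]
  rfl

theorem eval_map_dp (z : ℝ) (t : ℂ) :
    ((D.dp z).map (algebraMap ℝ ℂ)).eval t = D.den z t := by
  rw [eval_map_algebraMap, aeval_dp]

theorem q_eq_zero_iff (t : ℂ) : D.q t = 0 ↔ ∃ j, t = (D.a j : ℂ) := by
  unfold q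
  rw [mul_eq_zero, or_iff_right D.c_ne, Finset.prod_eq_zero_iff]
  constructor
  · rintro ⟨j, _, hj⟩
    refine ⟨j, ?_⟩
    rw [sub_eq_zero, eq_comm, div_eq_one_iff_eq (D.a_ne j)] at hj
    exact hj
  · rintro ⟨j, hj⟩
    refine ⟨j, Finset.mem_univ _, ?_⟩
    rw [hj, div_self (D.a_ne j), sub_self]

theorem q_ne_zero_of_im {t : ℂ} (h : t.im ≠ 0) : D.q t ≠ 0 := by
  intro h0
  obtain ⟨j, hj⟩ := (D.q_eq_zero_iff t).1 h0
  apply h
  rw [hj]
  simp

theorem S_im (t : ℂ) :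
    (D.S t).im = ∑ j, D.a j * t.im / Complex.normSq ((D.a j : ℂ) - t) := by
  unfold S
  rw [Complex.add_im, Complex.natCast_im, zero_add, Complex.im_sum]
  refine Finset.sum_congr rfl fun j _ => ?_
  rw [Complex.div_im]
  simp only [Complex.sub_re, Complex.sub_im, Complex.ofReal_re, Complex.ofReal_im]
  rw [← sub_div]
  congr 1
  ring

theorem S_im_nonneg {t : ℂ} (ht : 0 ≤ t.im) : 0 ≤ (D.S t).im := by
  rw [S_im]
  exact Finset.sum_nonneg fun j _ =>
    div_nonneg (mul_nonneg (D.ha j).le ht) (Complex.normSq_nonneg _)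

theorem S_im_pos {t : ℂ} (ht : 0 < t.im) : 0 < (D.S t).im := by
  rw [S_im]
  have : Nonempty (Fin D.n) := ⟨⟨0, D.hn⟩⟩
  refine Finset.sum_pos (fun j _ => ?_) Finset.univ_nonempty
  refine div_pos (mul_pos (D.ha j) ht) (Complex.normSq_pos.2 ?_)
  intro h
  have : t = (D.a j : ℂ) := (sub_eq_zero.mp h).symm
  rw [this] at ht
  simp at ht

/-- one summand of `Im S` is a lower bound -/
theorem le_S_im {t : ℂ} (ht : 0 ≤ t.im) (j : Fin D.n) :
    D.a j * t.im / Complex.normSq ((D.a j : ℂ) - t) ≤ (D.S t).im := by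
  rw [S_im]
  exact Finset.single_le_sum
    (f := fun j => D.a j * t.im / Complex.normSq ((D.a j : ℂ) - t))
    (fun j _ => div_nonneg (mul_nonneg (D.ha j).le ht) (Complex.normSq_nonneg _))
    (Finset.mem_univ j)

theorem derivative_Q_aeval {t : ℂ} (h : ∀ j, t ≠ (D.a j : ℂ)) :
    aeval t (derivative D.Q) = - D.q t * ∑ j, 1 / ((D.a j : ℂ) - t) := by
  unfold Q q
  rw [derivative_C_mul, derivative_prod_finset, map_mul, aeval_C, map_sum]
  suffices hs : ∑ i, (aeval t) ((∏ b ∈ Finset.univ.erase i, (1 - C (D.a b)⁻¹ * X)) *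
      derivative (1 - C (D.a i)⁻¹ * X : ℝ[X])) =
      - ((∏ j, (1 - t / (D.a j : ℂ))) * ∑ j, 1 / ((D.a j : ℂ) - t)) by
    rw [hs, Complex.coe_algebraMap]
    ring
  rw [Finset.mul_sum, ← Finset.sum_neg_distrib]
  refine Finset.sum_congr rfl fun j _ => ?_
  rw [map_mul, map_prod]
  have h1 : ∀ i : Fin D.n, aeval t (1 - C (D.a i)⁻¹ * X : ℝ[X]) = 1 - t / (D.a i : ℂ) := by
    intro i
    simp only [map_sub, map_one, map_mul, aeval_C, aeval_X]
    rw [Complex.coe_algebraMap]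
    push_cast
    ring
  have h2 : aeval t (derivative (1 - C (D.a j)⁻¹ * X : ℝ[X])) = - 1 / (D.a j : ℂ) := by
    simp only [derivative_sub, derivative_one, derivative_mul, derivative_C, zero_mul,
      derivative_X, mul_one, zero_add, zero_sub, map_neg, aeval_C]
    rw [Complex.coe_algebraMap]
    push_cast
    ring
  simp only [h1]
  rw [h2, ← Finset.mul_prod_erase Finset.univ (fun i => 1 - t / (D.a i : ℂ)) (Finset.mem_univ j)]
  have h3 : (D.a j : ℂ) - t ≠ 0 := fun h0 => h j (sub_eq_zero.mp h0).symm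
  have h4 := D.a_ne j
  field_simp

/-- `L = Q S` away from the zeros of `Q` -/
theorem L_eq {t : ℂ} (h : ∀ j, t ≠ (D.a j : ℂ)) : aeval t D.L = D.q t * D.S t := by
  unfold L S
  rw [map_sub, map_mul, map_mul, aeval_C, aeval_X, D.derivative_Q_aeval h, aeval_Q]
  rw [Complex.coe_algebraMap]
  push_cast
  rw [mul_add]
  have : ∑ j, t / ((D.a j : ℂ) - t) = t * ∑ j, 1 / ((D.a j : ℂ) - t) := by
    rw [Finset.mul_sum]
    refine Finset.sum_congr rfl fun j _ => ?_
    ring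
  rw [this]
  ring

theorem S_ne_zero_of_im {t : ℂ} (h : t.im ≠ 0) : D.S t ≠ 0 := by
  intro h0
  rcases lt_or_gt_of_ne h with h1 | h1
  · have h2 : (D.S t).im < 0 := by
      rw [S_im]
      have : Nonempty (Fin D.n) := ⟨⟨0, D.hn⟩⟩
      refine Finset.sum_neg (fun j _ => ?_) Finset.univ_nonempty
      refine div_neg_of_neg_of_pos (mul_neg_of_pos_of_neg (D.ha j) h1) (Complex.normSq_pos.2 ?_)
      intro h
      have : t = (D.a j : ℂ) := (sub_eq_zero.mp h).symm
      rw [this] at h1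
      simp at h1
    rw [h0] at h2
    simp at h2
  · have := D.S_im_pos h1
    rw [h0] at this
    simp at this

theorem L_ne_zero_of_im {t : ℂ} (h : t.im ≠ 0) : aeval t D.L ≠ 0 := by
  have h1 : ∀ j, t ≠ (D.a j : ℂ) := by
    intro j hj
    apply h
    rw [hj]
    simp
  rw [D.L_eq h1]
  exact mul_ne_zero (D.q_ne_zero_of_im h) (D.S_ne_zero_of_im h)

theorem L_ne_zero : D.L ≠ 0 := by
  intro h
  have := D.L_ne_zero_of_im (t := Complex.I) (by simp)
  rw [h] at this
  simp at this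

theorem q_zero : D.q 0 = D.c := by simp [q]

theorem den_zero_ne {z : ℝ} (hz : 0 < z) : D.den z 0 ≠ 0 := by
  unfold den
  rw [q_zero]
  by_cases hr : D.r = 0
  · rw [hr, pow_zero, mul_one]
    have h : 0 < D.c + z := add_pos D.hc hz
    exact_mod_cast h.ne'
  · rw [zero_pow hr, mul_zero, add_zero]
    exact D.c_ne

theorem ne_zero_of_den {z : ℝ} (hz : 0 < z) {b : ℂ} (hb : D.den z b = 0) : b ≠ 0 := by
  rintro rfl
  exact D.den_zero_ne hz hb

theorem q_of_den {z : ℝ} {b : ℂ} (hb : D.den z b = 0) : D.q b = -((z : ℂ) * b ^ D.r) := by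
  unfold den at hb
  exact eq_neg_of_add_eq_zero_left hb

theorem q_ne_of_den {z : ℝ} (hz : 0 < z) {b : ℂ} (hb : D.den z b = 0) : D.q b ≠ 0 := by
  rw [D.q_of_den hb]
  have : (z : ℂ) ≠ 0 := by exact_mod_cast hz.ne'
  exact neg_ne_zero.2 (mul_ne_zero this (pow_ne_zero _ (D.ne_zero_of_den hz hb)))

theorem ne_a_of_den {z : ℝ} (hz : 0 < z) {b : ℂ} (hb : D.den z b = 0) (j : Fin D.n) :
    b ≠ (D.a j : ℂ) := fun h => D.q_ne_of_den hz hb ((D.q_eq_zero_iff b).2 ⟨j, h⟩)

theorem norm_q_of_den {z : ℝ} (hz : 0 < z) {b : ℂ} (hb : D.den z b = 0) :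
    ‖D.q b‖ / ‖b‖ ^ D.r = z := by
  have h0 : ‖b‖ ^ D.r ≠ 0 := pow_ne_zero _ (norm_ne_zero_iff.2 (D.ne_zero_of_den hz hb))
  rw [D.q_of_den hb, norm_neg, norm_mul, norm_pow, Complex.norm_real, Real.norm_eq_abs,
    abs_of_pos hz, mul_div_assoc, div_self h0, mul_one]

theorem q_conj (t : ℂ) : D.q ((starRingEnd ℂ) t) = (starRingEnd ℂ) (D.q t) := by
  unfold q
  rw [map_mul, Complex.conj_ofReal, map_prod]
  congr 1
  refine Finset.prod_congr rfl fun j _ => ?_
  rw [map_sub, map_one, map_div₀, Complex.conj_ofReal]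

theorem den_conj (z : ℝ) (t : ℂ) : D.den z ((starRingEnd ℂ) t) = (starRingEnd ℂ) (D.den z t) := by
  unfold den
  rw [q_conj, map_add, map_mul, map_pow, Complex.conj_ofReal]

theorem den_conj_eq_zero {z : ℝ} {t : ℂ} (h : D.den z t = 0) :
    D.den z ((starRingEnd ℂ) t) = 0 := by
  rw [den_conj, h, map_zero]

theorem aeval_conj (R : ℝ[X]) (t : ℂ) :
    aeval ((starRingEnd ℂ) t) R = (starRingEnd ℂ) (aeval t R) := Polynomial.aeval_conj R t

theorem F_conj (R : ℝ[X]) (t : ℂ) :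
    D.F R ((starRingEnd ℂ) t) = (starRingEnd ℂ) (D.F R t) := by
  unfold F
  rw [aeval_conj, aeval_conj, map_div₀]

/-- `L = r D_z - t D_z'` -/
theorem L_eq_dp (z : ℝ) : D.L = C (D.r : ℝ) * D.dp z - X * derivative (D.dp z) := by
  unfold L dp
  rw [derivative_add, derivative_C_mul, derivative_X_pow]
  rcases Nat.eq_zero_or_pos D.r with h | h
  · rw [h]
    simp
  · have : (X : ℝ[X]) ^ D.r = X * X ^ (D.r - 1) := by
      rw [← pow_succ', Nat.sub_add_cancel h]
    rw [this]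
    simp only [map_natCast]
    ring

/-- at a root `b` of `D_z`, `L(b) = - b D_z'(b)` -/
theorem L_root {z : ℝ} {b : ℂ} (hb : D.den z b = 0) :
    aeval b D.L = - (b * aeval b (derivative (D.dp z))) := by
  rw [D.L_eq_dp z, map_sub, map_mul, map_mul, aeval_X, aeval_dp, hb]
  ring

theorem thm_le_pi : D.thm ≤ Real.pi := by
  unfold thm
  have hpi := Real.pi_pos
  split_ifs with h
  · have : 0 ≤ Real.pi / (D.n : ℝ) := by positivity
    linarith
  · have h1 : (1 : ℝ) ≤ D.r := by exact_mod_cast Nat.one_le_iff_ne_zero.2 h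
    exact div_le_self hpi.le h1

theorem thm_nonneg : 0 ≤ D.thm := by
  unfold thm
  have hpi := Real.pi_pos
  split_ifs with h
  · have h1 : (1 : ℝ) ≤ D.n := by exact_mod_cast D.hn
    have := div_le_self hpi.le h1
    linarith
  · positivity

theorem thm_pos (h : D.Main) : 0 < D.thm := by
  unfold thm
  have hpi := Real.pi_pos
  split_ifs with hr
  · have h1 : (2 : ℝ) ≤ D.n := by
      rcases h with h | h
      · exact_mod_cast h
      · omega
    have : Real.pi / (D.n : ℝ) < Real.pi := by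
      rw [div_lt_iff₀ (by linarith)]
      nlinarith
    linarith
  · have h1 : (0 : ℝ) < D.r := by exact_mod_cast Nat.pos_of_ne_zero hr
    positivity

end Dat

theorem norm_pt {tau : ℝ → ℝ} {θ : ℝ} (h : 0 < tau θ) : ‖pt tau θ‖ = tau θ := by
  unfold pt
  rw [norm_mul, Complex.norm_exp_ofReal_mul_I, mul_one, Complex.norm_real, Real.norm_eq_abs,
    abs_of_pos h]

theorem pt_ne_zero {tau : ℝ → ℝ} {θ : ℝ} (h : 0 < tau θ) : pt tau θ ≠ 0 := by
  rw [← norm_ne_zero_iff, norm_pt h]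
  exact h.ne'

theorem pt_re (tau : ℝ → ℝ) (θ : ℝ) : (pt tau θ).re = tau θ * Real.cos θ := by
  unfold pt
  rw [Complex.exp_mul_I, ← Complex.ofReal_cos, ← Complex.ofReal_sin, Complex.re_ofReal_mul]
  simp only [Complex.add_re, Complex.ofReal_re, Complex.mul_re, Complex.I_re, mul_zero,
    Complex.ofReal_im, Complex.I_im, mul_one, sub_self, add_zero]

theorem pt_im (tau : ℝ → ℝ) (θ : ℝ) : (pt tau θ).im = tau θ * Real.sin θ := by
  unfold pt
  rw [Complex.exp_mul_I, ← Complex.ofReal_cos, ← Complex.ofReal_sin, Complex.im_ofReal_mul]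
  simp only [Complex.add_im, Complex.ofReal_re, Complex.mul_im, Complex.I_re, mul_zero,
    Complex.ofReal_im, Complex.I_im, mul_one, zero_add, add_zero]

theorem arg_pt {tau : ℝ → ℝ} {θ : ℝ} (h : 0 < tau θ) (h0 : 0 < θ) (h1 : θ < Real.pi) :
    (pt tau θ).arg = θ := by
  unfold pt
  rw [Complex.arg_real_mul _ h, Complex.arg_exp_mul_I,
    toIocMod_eq_self]
  constructor
  · linarith [Real.pi_pos]
  · linarith

theorem log_pt {tau : ℝ → ℝ} {θ : ℝ} (h : 0 < tau θ) (h0 : 0 < θ) (h1 : θ < Real.pi) :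
    Complex.log (pt tau θ) = (Real.log (tau θ) : ℂ) + (θ : ℂ) * Complex.I := by
  rw [Complex.log, norm_pt h, arg_pt h h0 h1]

namespace Dat

variable {D : Dat} {tau : ℝ → ℝ}

theorem IsCurve.pos (h : D.IsCurve tau) {θ : ℝ} (hθ : θ ∈ Ioo 0 D.thm) : 0 < tau θ := (h.2 θ hθ).1

theorem IsCurve.lt_pi {θ : ℝ} (hθ : θ ∈ Ioo 0 D.thm) : θ < Real.pi :=
  lt_of_lt_of_le hθ.2 D.thm_le_pi

theorem IsCurve.im_pos (h : D.IsCurve tau) {θ : ℝ} (hθ : θ ∈ Ioo 0 D.thm) :
    0 < (pt tau θ).im := by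
  rw [pt_im]
  exact mul_pos (h.pos hθ) (Real.sin_pos_of_pos_of_lt_pi hθ.1 (IsCurve.lt_pi hθ))

theorem IsCurve.continuousOn_pt (h : D.IsCurve tau) : ContinuousOn (pt tau) (Ioo 0 D.thm) := by
  unfold pt
  refine ContinuousOn.mul (Complex.continuous_ofReal.comp_continuousOn h.1) ?_
  exact (by fun_prop : Continuous fun θ : ℝ => Complex.exp ((θ : ℂ) * Complex.I)).continuousOn

end Dat

theorem continuous_q (D : Dat) : Continuous D.q := by
  unfold Dat.q
  fun_prop

theorem continuous_den (D : Dat) (z : ℝ) : Continuous (D.den z) := by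
  unfold Dat.den
  have := continuous_q D
  fun_prop

end Pool.Agent.KS6_47.Zof
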