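import Pool.Agent.KS6_47.Zof.Defs

/-!
Project ZZ (helper48), module COUNT: sign changes give zeros.
-/

set_option autoImplicit false

namespace Pool.Agent.KS6_47.Zof

open Polynomial Set Filter Topology

theorem mCOUNT : StmCOUNT := by
  intro f ψ a b B m hab hf hψ hB hsg
  have hpi := Real.pi_pos
  obtain ⟨Φ, hΦ⟩ : ∃ Φ : ℝ → ℝ, Φ = fun x => (m : ℝ) * x - ψ x := ⟨_, rfl⟩
  have hΦc : ContinuousOn Φ (Icc a b) := by
    rw [hΦ]
    exact (continuousOn_const.mul continuousOn_id).sub hψ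
  have key : ∀ (N : ℕ) (a' : ℝ) (k : ℤ), a' ∈ Icc a b → Φ a' = k * Real.pi →
      ((k : ℝ) + N) * Real.pi ≤ Φ b →
      ∃ Z : Finset ℝ, (∀ x ∈ Z, a' < x ∧ x < b ∧ f x = 0) ∧ Z.card = N := by
    intro N
    induction N with
    | zero => intro a' k _ _ _; exact ⟨∅, by simp, rfl⟩
    | succ N ih =>
      intro a' k ha' hk hb
      have hN : (0 : ℝ) ≤ N := Nat.cast_nonneg N
      push_cast at hb
      have h1 : ((k : ℝ) + 1) * Real.pi ≤ Φ b := by nlinarith
      have h2 : Φ a' ≤ ((k : ℝ) + 1) * Real.pi := by rw [hk]; nlinarith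
      have hsub : Icc a' b ⊆ Icc a b := Icc_subset_Icc_left ha'.1
      obtain ⟨c, hc, hc2⟩ := intermediate_value_Icc ha'.2 (hΦc.mono hsub) ⟨h2, h1⟩
      have hac : a' < c := by
        rcases hc.1.eq_or_lt with h3 | h3
        · exfalso
          rw [← h3, hk] at hc2
          nlinarith
        · exact h3
      have hcab : c ∈ Icc a b := hsub hc
      have s1 := hsg a' ha' k (by rw [hΦ] at hk; exact hk)
      have s2 := hsg c hcab (k + 1) (by rw [hΦ] at hc2; push_cast; exact hc2)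
      rw [zpow_add_one₀ (by norm_num)] at s2
      have hfc : ContinuousOn f (Icc a' c) := hf.mono (Icc_subset_Icc ha'.1 hc.2)
      have hz : ∃ x, a' < x ∧ x < c ∧ f x = 0 := by
        rcases Int.even_or_odd k with he | ho
        · rw [he.neg_one_zpow] at s1 s2
          have e1 : 0 < f a' := by linarith
          have e2 : f c < 0 := by linarith
          obtain ⟨x, hx, hx2⟩ := intermediate_value_Ioo' hac.le hfc ⟨e2, e1⟩
          exact ⟨x, hx.1, hx.2, hx2⟩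
        · rw [ho.neg_one_zpow] at s1 s2
          have e1 : f a' < 0 := by linarith
          have e2 : 0 < f c := by linarith
          obtain ⟨x, hx, hx2⟩ := intermediate_value_Ioo hac.le hfc ⟨e1, e2⟩
          exact ⟨x, hx.1, hx.2, hx2⟩
      obtain ⟨x, hx1, hx2, hx3⟩ := hz
      obtain ⟨Z, hZ, hZc⟩ := ih c (k + 1) hcab (by push_cast; exact hc2) (by
        push_cast
        linarith)
      have hxZ : x ∉ Z := fun h => by
        have := (hZ x h).1
        linarith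
      refine ⟨insert x Z, ?_, ?_⟩
      · intro y hy
        rcases Finset.mem_insert.1 hy with h | h
        · rw [h]
          exact ⟨hx1, lt_of_lt_of_le hx2 hc.2, hx3⟩
        · obtain ⟨e1, e2, e3⟩ := hZ y h
          exact ⟨by linarith, e2, e3⟩
      · rw [Finset.card_insert_of_notMem hxZ, hZc]
  have hΦab : (m : ℝ) * (b - a) - 2 * B ≤ Φ b - Φ a := by
    have e1 := abs_le.1 (hB a ⟨le_rfl, hab.le⟩)
    have e2 := abs_le.1 (hB b ⟨hab.le, le_rfl⟩)
    rw [hΦ]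
    simp only
    linarith
  obtain ⟨k0, hk0⟩ : ∃ k0 : ℤ, k0 = ⌈Φ a / Real.pi⌉ := ⟨_, rfl⟩
  obtain ⟨k1, hk1⟩ : ∃ k1 : ℤ, k1 = ⌊Φ b / Real.pi⌋ := ⟨_, rfl⟩
  have a1 : Φ a / Real.pi ≤ k0 := by rw [hk0]; exact Int.le_ceil _
  have a2 : (k0 : ℝ) < Φ a / Real.pi + 1 := by rw [hk0]; exact Int.ceil_lt_add_one _
  have b1 : (k1 : ℝ) ≤ Φ b / Real.pi := by rw [hk1]; exact Int.floor_le _
  have b2 : Φ b / Real.pi < (k1 : ℝ) + 1 := by rw [hk1]; exact Int.lt_floor_add_one _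
  have hlow : (m : ℝ) * (b - a) / Real.pi - 2 * B / Real.pi - 2 ≤ (k1 : ℝ) - k0 := by
    have e1 : ((m : ℝ) * (b - a) - 2 * B) / Real.pi ≤ (Φ b - Φ a) / Real.pi :=
      div_le_div_of_nonneg_right hΦab hpi.le
    rw [sub_div, sub_div] at e1
    linarith
  rcases lt_or_ge k1 k0 with hlt | hge
  · refine ⟨∅, by simp, ?_⟩
    have e1 : (k1 : ℝ) + 1 ≤ k0 := by exact_mod_cast hlt
    simp only [Finset.card_empty, Nat.cast_zero]
    linarith
  · rw [div_le_iff₀ hpi] at a1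
    rw [le_div_iff₀ hpi] at b1
    have e0 : (k0 : ℝ) ≤ k1 := by exact_mod_cast hge
    have e1 : (k0 : ℝ) * Real.pi ≤ Φ b := le_trans (mul_le_mul_of_nonneg_right e0 hpi.le) b1
    obtain ⟨a', ha', ha2⟩ := intermediate_value_Icc hab.le hΦc ⟨a1, e1⟩
    obtain ⟨N, hN⟩ : ∃ N : ℕ, (N : ℤ) = k1 - k0 := ⟨(k1 - k0).toNat, by omega⟩
    have hNr : (N : ℝ) = (k1 : ℝ) - k0 := by exact_mod_cast hN
    obtain ⟨Z, hZ, hZc⟩ := key N a' k0 ha' ha2 (by
      rw [hNr]
      calc ((k0 : ℝ) + (k1 - k0)) * Real.pi = k1 * Real.pi := by ring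
        _ ≤ Φ b := b1)
    refine ⟨Z, ?_, ?_⟩
    · intro x hx
      obtain ⟨e1, e2, e3⟩ := hZ x hx
      exact ⟨lt_of_le_of_lt ha'.1 e1, e2, e3⟩
    · rw [hZc, hNr]
      linarith

end Pool.Agent.KS6_47.Zof
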