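import Mathlib

/-!
# The coefficients of `N(t,z) / (c + z t^r)` for constant `c`
-/

set_option autoImplicit false

open Polynomial

namespace Pool.Agent.KS6_47.ZofC

/-- the coefficient of `t ^ m` -/
noncomputable def cP (Q : ℝ[X]) (r : ℕ) (N : ℝ[X][X]) (m : ℕ) : RatFunc ℝ :=
  PowerSeries.coeff m
    (((N.map (algebraMap ℝ[X] (RatFunc ℝ)) : (RatFunc ℝ)[X]) : PowerSeries (RatFunc ℝ)) *
      (((Q.map (algebraMap ℝ (RatFunc ℝ)) + C RatFunc.X * X ^ r : (RatFunc ℝ)[X])) :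
        PowerSeries (RatFunc ℝ))⁻¹)

/-- zeros outside the open positive half line -/
noncomputable def eZ (f : RatFunc ℝ) : ℕ :=
  ((f.num.map (algebraMap ℝ ℂ)).roots.filter (fun w => ¬ (w.im = 0 ∧ 0 < w.re))).card

/-- the denominator as a polynomial in `t` with coefficients in `ℝ[z]` -/
noncomputable def den (Q : ℝ[X]) (r : ℕ) : ℝ[X][X] :=
  Q.map (C : ℝ →+* ℝ[X]) + C X * X ^ r

theorem den_map (Q : ℝ[X]) (r : ℕ) :
    (den Q r).map (algebraMap ℝ[X] (RatFunc ℝ)) =
      Q.map (algebraMap ℝ (RatFunc ℝ)) + C RatFunc.X * X ^ r := by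
  unfold den
  rw [Polynomial.map_add, Polynomial.map_mul, Polynomial.map_pow, Polynomial.map_X,
    Polynomial.map_C, RatFunc.algebraMap_X, Polynomial.map_map]
  congr 2

theorem cP_eq (Q : ℝ[X]) (r : ℕ) (N : ℝ[X][X]) (m : ℕ) : cP Q r N m =
    PowerSeries.coeff m
    (((N.map (algebraMap ℝ[X] (RatFunc ℝ)) : (RatFunc ℝ)[X]) : PowerSeries (RatFunc ℝ)) *
      ((((den Q r).map (algebraMap ℝ[X] (RatFunc ℝ)) : (RatFunc ℝ)[X])) :
        PowerSeries (RatFunc ℝ))⁻¹) := by
  rw [den_map]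
  rfl

theorem den_const_ne (Q : ℝ[X]) (hQ0 : 0 < Q.eval 0) (r : ℕ) :
    PowerSeries.constantCoeff ((((den Q r).map (algebraMap ℝ[X] (RatFunc ℝ)) :
      (RatFunc ℝ)[X])) : PowerSeries (RatFunc ℝ)) ≠ 0 := by
  rw [← PowerSeries.coeff_zero_eq_constantCoeff_apply, Polynomial.coeff_coe,
    Polynomial.coeff_map, Ne, map_eq_zero_iff _ (RatFunc.algebraMap_injective ℝ)]
  unfold den
  rw [Polynomial.coeff_add, Polynomial.coeff_map, Polynomial.coeff_C_mul,
    Polynomial.coeff_X_pow]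
  intro h
  have h0 : Q.coeff 0 = Q.eval 0 := Polynomial.coeff_zero_eq_eval_zero Q
  have h1 := congrArg (Polynomial.eval 0) h
  simp only [Polynomial.eval_add, Polynomial.eval_C, Polynomial.eval_mul, Polynomial.eval_X,
    zero_mul, add_zero, Polynomial.eval_zero] at h1
  rw [h0] at h1
  exact hQ0.ne' h1

/-- if the denominator divides `N` the coefficients vanish eventually -/
theorem cP_of_dvd (Q : ℝ[X]) (hQ0 : 0 < Q.eval 0) (r : ℕ) (N : ℝ[X][X]) (h : den Q r ∣ N) :
    ∃ M : ℕ, ∀ m, M ≤ m → cP Q r N m = 0 := by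
  obtain ⟨g, rfl⟩ := h
  refine ⟨g.natDegree + 1, fun m hm => ?_⟩
  rw [cP_eq, Polynomial.map_mul, Polynomial.coe_mul, mul_comm, ← mul_assoc,
    PowerSeries.inv_mul_cancel _ (den_const_ne Q hQ0 r), one_mul, Polynomial.coeff_coe,
    Polynomial.coeff_map, Polynomial.coeff_eq_zero_of_natDegree_lt (by omega), map_zero]

/-- if the coefficients are polynomials in `z` and vanish eventually, then the denominator
divides `N` -/
theorem dvd_of_cP (Q : ℝ[X]) (hQ0 : 0 < Q.eval 0) (r : ℕ) (N : ℝ[X][X]) (p : ℕ → ℝ[X])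
    (hp : ∀ m, cP Q r N m = algebraMap ℝ[X] (RatFunc ℝ) (p m)) (M : ℕ)
    (h : ∀ m, M ≤ m → cP Q r N m = 0) : den Q r ∣ N := by
  have hp0 : ∀ m, M ≤ m → p m = 0 := fun m hm => by
    have h1 := h m hm
    rw [hp m, map_eq_zero_iff _ (RatFunc.algebraMap_injective ℝ)] at h1
    exact h1
  set g : ℝ[X][X] := ∑ i ∈ Finset.range M, C (p i) * X ^ i with hg
  have hgc : ∀ m, g.coeff m = p m := by
    intro m
    rw [hg, Polynomial.finsetSum_coeff]
    simp only [Polynomial.coeff_C_mul, Polynomial.coeff_X_pow]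
    by_cases hm : m < M
    · rw [Finset.sum_eq_single m]
      · simp
      · intro b _ hb
        rw [if_neg (Ne.symm hb), mul_zero]
      · intro hm'
        exact absurd (Finset.mem_range.2 hm) hm'
    · rw [hp0 m (not_lt.1 hm)]
      apply Finset.sum_eq_zero
      intro b hb
      rw [if_neg, mul_zero]
      have := Finset.mem_range.1 hb
      omega
  have hgs : ((g.map (algebraMap ℝ[X] (RatFunc ℝ)) : (RatFunc ℝ)[X]) :
      PowerSeries (RatFunc ℝ)) =
      ((N.map (algebraMap ℝ[X] (RatFunc ℝ)) : (RatFunc ℝ)[X]) : PowerSeries (RatFunc ℝ)) *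
      ((((den Q r).map (algebraMap ℝ[X] (RatFunc ℝ)) : (RatFunc ℝ)[X])) :
        PowerSeries (RatFunc ℝ))⁻¹ := by
    ext m
    rw [← cP_eq, hp m, Polynomial.coeff_coe, Polynomial.coeff_map, hgc]
  refine ⟨g, ?_⟩
  have h3 : (((den Q r * g).map (algebraMap ℝ[X] (RatFunc ℝ)) : (RatFunc ℝ)[X]) :
      PowerSeries (RatFunc ℝ)) =
      ((N.map (algebraMap ℝ[X] (RatFunc ℝ)) : (RatFunc ℝ)[X]) : PowerSeries (RatFunc ℝ)) := by
    rw [Polynomial.map_mul, Polynomial.coe_mul, hgs, mul_left_comm,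
      PowerSeries.mul_inv_cancel _ (den_const_ne Q hQ0 r), mul_one]
  have h4 := Polynomial.coe_injective (RatFunc ℝ) h3
  exact (Polynomial.map_injective _ (RatFunc.algebraMap_injective ℝ) h4).symm

/-- the inverse of `a + x t ^ r` -/
theorem inv_series {F : Type*} [Field F] (a x : F) (ha : a ≠ 0) (r : ℕ) (hr : 0 < r) :
    ((C a + C x * X ^ r : F[X]) : PowerSeries F)⁻¹ =
      PowerSeries.mk (fun n => if r ∣ n then (-x) ^ (n / r) * a⁻¹ ^ (n / r + 1) else 0) := by
  have hc : PowerSeries.constantCoeff ((C a + C x * X ^ r : F[X]) : PowerSeries F) ≠ 0 := by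
    rw [← PowerSeries.coeff_zero_eq_constantCoeff_apply, Polynomial.coeff_coe]
    simp [hr.ne, ha]
  symm
  rw [PowerSeries.eq_inv_iff_mul_eq_one hc]
  ext n
  have h1 : ((C a + C x * X ^ r : F[X]) : PowerSeries F) =
      PowerSeries.C a + PowerSeries.C x * PowerSeries.X ^ r := by
    push_cast
    rfl
  rw [h1, mul_add, map_add, mul_comm _ (PowerSeries.C a), PowerSeries.coeff_C_mul,
    PowerSeries.coeff_mk, mul_left_comm, PowerSeries.coeff_C_mul, PowerSeries.coeff_mul_X_pow',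
    PowerSeries.coeff_one]
  rcases Nat.eq_zero_or_pos n with h0 | h0
  · subst h0
    rw [if_pos (dvd_zero r), if_neg (by omega), if_pos rfl]
    simp [ha]
  · rw [if_neg h0.ne']
    by_cases hd : r ∣ n
    · have hle : r ≤ n := Nat.le_of_dvd h0 hd
      obtain ⟨k, rfl⟩ := hd
      have hk : 0 < k := by
        rcases Nat.eq_zero_or_pos k with h | h
        · subst h
          simp at h0
        · exact h
      obtain ⟨k, rfl⟩ : ∃ j, k = j + 1 := ⟨k - 1, by omega⟩
      have h2 : r * (k + 1) - r = r * k := by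
        rw [Nat.mul_succ, Nat.add_sub_cancel]
      rw [if_pos (dvd_mul_right _ _), if_pos hle, PowerSeries.coeff_mk, h2,
        if_pos (dvd_mul_right _ _), Nat.mul_div_cancel_left _ hr, Nat.mul_div_cancel_left _ hr]
      have h3 : a * ((-x) ^ (k + 1) * a⁻¹ ^ (k + 1 + 1)) = (-x) ^ (k + 1) * a⁻¹ ^ (k + 1) := by
        rw [pow_succ a⁻¹ (k + 1)]
        field_simp
      rw [h3]
      ring
    · rw [if_neg hd, mul_zero, zero_add]
      by_cases hle : r ≤ n
      · rw [if_pos hle, PowerSeries.coeff_mk, if_neg, mul_zero]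
        intro h
        have h9 := Nat.dvd_add h (dvd_refl r)
        rw [Nat.sub_add_cancel hle] at h9
        exact hd h9
      · rw [if_neg hle, mul_zero]

/-- the coefficients, as polynomials in `z`, for `Q = c` -/
noncomputable def pc (c : ℝ) (r : ℕ) (N : ℝ[X][X]) (m : ℕ) : ℝ[X] :=
  ∑ x ∈ Finset.HasAntidiagonal.antidiagonal m,
    N.coeff x.1 * (if r ∣ x.2 then (-X) ^ (x.2 / r) * C c⁻¹ ^ (x.2 / r + 1) else 0)

theorem cP_const (c : ℝ) (hc : 0 < c) (r : ℕ) (hr : 0 < r) (N : ℝ[X][X]) (m : ℕ) :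
    cP (C c) r N m = algebraMap ℝ[X] (RatFunc ℝ) (pc c r N m) := by
  have ha : algebraMap ℝ (RatFunc ℝ) c ≠ 0 := by
    rw [Ne, map_eq_zero]
    exact hc.ne'
  have h5 : algebraMap ℝ[X] (RatFunc ℝ) (C c⁻¹) = (algebraMap ℝ (RatFunc ℝ) c)⁻¹ := by
    rw [← map_inv₀, IsScalarTower.algebraMap_apply ℝ ℝ[X] (RatFunc ℝ),
      Polynomial.algebraMap_eq]
  unfold cP pc
  rw [Polynomial.map_C, inv_series _ _ ha r hr, PowerSeries.coeff_mul, map_sum]
  refine Finset.sum_congr rfl fun x _ => ?_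
  rw [Polynomial.coeff_coe, PowerSeries.coeff_mk, Polynomial.coeff_map, map_mul]
  congr 1
  split_ifs with hd
  · simp only [map_mul, map_pow, map_neg, RatFunc.algebraMap_X, h5]
  · simp

theorem pc_dvd (c : ℝ) (r : ℕ) (hr : 0 < r) (N : ℝ[X][X]) (K m : ℕ)
    (hm : N.natDegree + r * K ≤ m) : (X : ℝ[X]) ^ K ∣ pc c r N m := by
  unfold pc
  refine Finset.dvd_sum fun x hx => ?_
  rw [Finset.HasAntidiagonal.mem_antidiagonal] at hx
  by_cases hi : N.natDegree < x.1
  · rw [Polynomial.coeff_eq_zero_of_natDegree_lt hi, zero_mul]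
    exact dvd_zero _
  · split_ifs with hd
    · apply Dvd.dvd.mul_left
      apply Dvd.dvd.mul_right
      have h1 : r * K ≤ x.2 := by omega
      have h2 : K ≤ x.2 / r := by
        rw [Nat.le_div_iff_mul_le hr, mul_comm]
        exact h1
      rw [neg_pow]
      apply Dvd.dvd.mul_left
      exact pow_dvd_pow _ h2
    · rw [mul_zero]
      exact dvd_zero _

theorem eZ_of_dvd (f : ℝ[X]) (hf : f ≠ 0) (K : ℕ) (h : (X : ℝ[X]) ^ K ∣ f) :
    K ≤ eZ (algebraMap ℝ[X] (RatFunc ℝ) f) := by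
  unfold eZ
  rw [RatFunc.num_algebraMap]
  have hmap : f.map (algebraMap ℝ ℂ) ≠ 0 :=
    (Polynomial.map_ne_zero_iff (algebraMap ℝ ℂ).injective).2 hf
  have h1 : (X : ℂ[X]) ^ K ∣ f.map (algebraMap ℝ ℂ) := by
    have := Polynomial.map_dvd (algebraMap ℝ ℂ) h
    rwa [Polynomial.map_pow, Polynomial.map_X] at this
  have h2 := Multiset.le_iff_exists_add.1 (Polynomial.roots.le_of_dvd hmap h1)
  obtain ⟨u, hu⟩ := h2
  rw [hu, Multiset.filter_add, Multiset.card_add, Polynomial.roots_pow, Polynomial.roots_X,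
    Multiset.filter_nsmul, Multiset.card_nsmul, Multiset.filter_singleton, if_pos]
  · simp
  · simp

/-- `Q = c`, `r ≥ 1`: every nonzero coefficient has at least `K` exceptional zeros once
`m ≥ deg_t N + r K` -/
theorem const_many (c : ℝ) (hc : 0 < c) (r : ℕ) (hr : 0 < r) (N : ℝ[X][X]) (K m : ℕ)
    (hm : N.natDegree + r * K ≤ m) (hne : cP (C c) r N m ≠ 0) : K ≤ eZ (cP (C c) r N m) := by
  rw [cP_const c hc r hr] at hne ⊢
  have hf : pc c r N m ≠ 0 := by
    rintro h
    rw [h, map_zero] at hne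
    exact hne rfl
  exact eZ_of_dvd _ hf K (pc_dvd c r hr N K m hm)

/-- eventually vanishing coefficients give a bound -/
theorem bounded_of_eventually (Q : ℝ[X]) (r : ℕ) (N : ℝ[X][X]) (M : ℕ)
    (h : ∀ m, M ≤ m → cP Q r N m = 0) :
    ∃ K : ℕ, ∀ m : ℕ, cP Q r N m ≠ 0 → eZ (cP Q r N m) < K := by
  refine ⟨∑ m ∈ Finset.range M, eZ (cP Q r N m) + 1, fun m hm => ?_⟩
  have hlt : m < M := by
    by_contra hc
    exact hm (h m (not_lt.1 hc))
  have := Finset.single_le_sum (f := fun m => eZ (cP Q r N m)) (fun i _ => Nat.zero_le _)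
    (Finset.mem_range.2 hlt)
  exact Nat.lt_succ_of_le this

/-- `r = 0` and `Q` constant: the coefficients vanish eventually -/
theorem const_zero (c : ℝ) (hc : 0 < c) (N : ℝ[X][X]) (m : ℕ) (hm : N.natDegree + 1 ≤ m) :
    cP (C c) 0 N m = 0 := by
  unfold cP
  have hne := den_const_ne (C c) (by simpa using hc) 0
  rw [den_map] at hne
  have h1 : ((((C c : ℝ[X]).map (algebraMap ℝ (RatFunc ℝ)) + C RatFunc.X * X ^ 0 :
      (RatFunc ℝ)[X])) : PowerSeries (RatFunc ℝ)) =
      PowerSeries.C (algebraMap ℝ (RatFunc ℝ) c + RatFunc.X) := by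
    rw [Polynomial.map_C, pow_zero, mul_one, ← Polynomial.C_add, Polynomial.coe_C]
  rw [h1] at hne ⊢
  have hu : algebraMap ℝ (RatFunc ℝ) c + RatFunc.X ≠ 0 := by
    intro h
    rw [h] at hne
    simp at hne
  have h2 : (PowerSeries.C (algebraMap ℝ (RatFunc ℝ) c + RatFunc.X))⁻¹ =
      PowerSeries.C (algebraMap ℝ (RatFunc ℝ) c + RatFunc.X)⁻¹ := by
    symm
    rw [PowerSeries.eq_inv_iff_mul_eq_one hne, ← map_mul, inv_mul_cancel₀ hu, map_one]
  rw [h2, PowerSeries.coeff_mul_C, Polynomial.coeff_coe, Polynomial.coeff_map,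
    Polynomial.coeff_eq_zero_of_natDegree_lt (by omega), map_zero, zero_mul]

/-- the criterion for `Q` constant -/
theorem const_criterion (c : ℝ) (hc : 0 < c) (r : ℕ) (N : ℝ[X][X]) :
    (∃ K : ℕ, ∀ m : ℕ, cP (C c) r N m ≠ 0 → eZ (cP (C c) r N m) < K) ↔
      (r = 0 ∨ den (C c) r ∣ N) := by
  have hQ0 : 0 < (C c : ℝ[X]).eval 0 := by simpa using hc
  constructor
  · rintro ⟨K, hK⟩
    by_cases hr0 : r = 0
    · exact Or.inl hr0
    · right
      have hr : 0 < r := Nat.pos_of_ne_zero hr0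
      refine dvd_of_cP (C c) hQ0 r N (pc c r N) (cP_const c hc r hr N)
        (N.natDegree + r * K) fun m hm => ?_
      by_contra hne
      have h1 := const_many c hc r hr N K m hm hne
      have h2 := hK m hne
      omega
  · rintro (h | h)
    · subst h
      exact bounded_of_eventually (C c) 0 N _ (const_zero c hc N)
    · obtain ⟨M, hM⟩ := cP_of_dvd (C c) hQ0 r N h
      exact bounded_of_eventually (C c) r N M hM

/-- infinitely many nonzero coefficients when the denominator does not divide -/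
theorem const_inf (c : ℝ) (hc : 0 < c) (r : ℕ) (hr : 0 < r) (N : ℝ[X][X])
    (h : ¬ den (C c) r ∣ N) (M : ℕ) : ∃ m, M ≤ m ∧ cP (C c) r N m ≠ 0 := by
  by_contra hcon
  push Not at hcon
  exact h (dvd_of_cP (C c) (by simpa using hc) r N (pc c r N) (cP_const c hc r hr N) M hcon)

end Pool.Agent.KS6_47.ZofC
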