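import Pool.Agent.KS6_47.Zof.Defs

/-!
Project ZZ (helper48), MP_4d57dd_an, module DEG (helper51): degree bound.
-/

set_option autoImplicit false

namespace Pool.Agent.KS6_47.Zof

open Polynomial Set Filter Topology

namespace ModDEG

/-- the numerators -/
noncomputable def Hq (q₀ : ℝ[X]) (d : ℕ → ℝ[X]) (R : ℝ[X]) : ℕ → ℝ[X]
  | m => q₀ ^ m * C (R.coeff m) -
      ∑ k : Fin m, d (k + 1) * q₀ ^ (k : ℕ) * Hq q₀ d R (m - (k + 1))
termination_by m => m
decreasing_by
  have := k.2
  omega

theorem Hq_eq (q₀ : ℝ[X]) (d : ℕ → ℝ[X]) (R : ℝ[X]) (m : ℕ) :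
    Hq q₀ d R m = q₀ ^ m * C (R.coeff m) -
      ∑ k ∈ Finset.range m, d (k + 1) * q₀ ^ k * Hq q₀ d R (m - (k + 1)) := by
  rw [Hq, Fin.sum_univ_eq_sum_range (fun k => d (k + 1) * q₀ ^ k * Hq q₀ d R (m - (k + 1))) m]

/-- the recursion determines the numerators -/
theorem main_rec {K : Type*} [Field K] (φ : ℝ[X] →+* K) (q₀ : ℝ[X]) (d : ℕ → ℝ[X]) (R : ℝ[X])
    (a : ℕ → K) (ha : ∀ m, φ q₀ * a m = φ (C (R.coeff m)) -
      ∑ k ∈ Finset.range m, φ (d (k + 1)) * a (m - (k + 1))) (m : ℕ) :
    a m * φ q₀ ^ (m + 1) = φ (Hq q₀ d R m) := by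
  induction m using Nat.strong_induction_on with
  | _ m ih =>
    rw [Hq_eq, map_sub, map_mul, map_pow, map_sum]
    have h1 : a m * φ q₀ ^ (m + 1) = φ q₀ ^ m * (φ q₀ * a m) := by ring
    rw [h1, ha, mul_sub, Finset.mul_sum]
    congr 1
    refine Finset.sum_congr rfl fun k hk => ?_
    have hk' : k < m := Finset.mem_range.1 hk
    rw [map_mul, map_mul, map_pow, ← ih (m - (k + 1)) (by omega)]
    have h2 : φ q₀ ^ m = φ q₀ ^ k * φ q₀ ^ (m - (k + 1) + 1) := by
      rw [← pow_add]
      congr 1
      omega
    rw [h2]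
    ring

/-- the recursion for the coefficients of a quotient -/
theorem coeff_rec {K : Type*} [Field K] (f g : PowerSeries K)
    (hg : PowerSeries.constantCoeff g ≠ 0) (m : ℕ) :
    PowerSeries.coeff 0 g * PowerSeries.coeff m (f * g⁻¹) = PowerSeries.coeff m f -
      ∑ k ∈ Finset.range m, PowerSeries.coeff (k + 1) g *
        PowerSeries.coeff (m - (k + 1)) (f * g⁻¹) := by
  have h1 : g * (f * g⁻¹) = f := by
    rw [mul_left_comm, PowerSeries.mul_inv_cancel _ hg, mul_one]
  have h2 := congrArg (PowerSeries.coeff m) h1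
  rw [PowerSeries.coeff_mul, Finset.Nat.sum_antidiagonal_eq_sum_range_succ_mk,
    Finset.sum_range_succ'] at h2
  simp only [Nat.sub_zero] at h2
  rw [← h2]
  ring

variable (D : Dat)

/-- the coefficients of the denominator -/
noncomputable def dd (j : ℕ) : ℝ[X] := C (D.Q.coeff j) + (if j = D.r then X else 0)

theorem Q0 : D.Q.coeff 0 = D.c := by
  rw [coeff_zero_eq_eval_zero]
  unfold Dat.Q
  rw [eval_mul, eval_C, eval_prod]
  simp

theorem Q_deg : D.Q.natDegree ≤ D.n := by
  unfold Dat.Q
  refine (natDegree_C_mul_le _ _).trans ((natDegree_prod_le _ _).trans ?_)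
  calc ∑ j : Fin D.n, (1 - C (D.a j)⁻¹ * X : ℝ[X]).natDegree ≤ ∑ _j : Fin D.n, 1 := by
        refine Finset.sum_le_sum fun j _ => ?_
        refine (natDegree_sub_le _ _).trans ?_
        rw [natDegree_one, max_le_iff]
        exact ⟨Nat.zero_le _, (natDegree_C_mul_le _ _).trans natDegree_X_le⟩
    _ = D.n := by simp

theorem dd0 : dd D 0 = D.q0 := by
  unfold dd Dat.q0
  rw [Q0]
  by_cases h : D.r = 0
  · simp [h]
  · simp [h, Ne.symm h]

theorem q0_pos {z : ℝ} (hz : 0 < z) : 0 < D.q0.eval z := by
  unfold Dat.q0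
  have := D.hc
  by_cases h : D.r = 0
  · simp only [h, if_true, eval_add, eval_C, eval_X]
    linarith
  · simp only [h, if_false, eval_add, eval_C, eval_zero]
    linarith

theorem q0_ne : D.q0 ≠ 0 := by
  intro h
  have := q0_pos D one_pos
  rw [h, eval_zero] at this
  exact lt_irrefl _ this

theorem thm_div : D.thm / Real.pi = if D.r = 0 then 1 - 1 / (D.n : ℝ) else 1 / (D.r : ℝ) := by
  unfold Dat.thm
  have := Real.pi_pos.ne'
  split_ifs
  · field_simp
  · field_simp

/-- degree bound -/
theorem deg (R : ℝ[X]) (m : ℕ) :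
    ((Hq D.q0 (dd D) R m).natDegree : ℝ) ≤ (m : ℝ) * (D.thm / Real.pi) + R.natDegree := by
  set θ : ℝ := D.thm / Real.pi with hθ
  have hn : (1 : ℝ) ≤ D.n := by exact_mod_cast D.hn
  have hθ0 : 0 ≤ θ := by
    rw [hθ, thm_div]
    split_ifs
    · have : 1 / (D.n : ℝ) ≤ 1 := by
        rw [div_le_one (by linarith)]
        exact hn
      linarith
    · positivity
  induction m using Nat.strong_induction_on with
  | _ m ih =>
    have hx0 : 0 ≤ (m : ℝ) * θ + R.natDegree := by positivity
    rw [← Nat.le_floor_iff hx0, Hq_eq]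
    refine (natDegree_sub_le _ _).trans (max_le ?_ ?_)
    · rw [Nat.le_floor_iff hx0]
      by_cases hm : R.natDegree < m
      · rw [coeff_eq_zero_of_natDegree_lt hm]
        simp only [map_zero, mul_zero, natDegree_zero, Nat.cast_zero]
        exact hx0
      · push Not at hm
        by_cases hr : D.r = 0
        · have h1 : (D.q0 ^ m * C (R.coeff m)).natDegree ≤ m := by
            refine (natDegree_mul_C_le _ _).trans ((natDegree_pow_le).trans ?_)
            have h2 : D.q0.natDegree ≤ 1 := by
              unfold Dat.q0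
              rw [if_pos hr]
              refine (natDegree_add_le _ _).trans (max_le ?_ natDegree_X_le)
              rw [natDegree_C]
              exact Nat.zero_le _
            calc m * D.q0.natDegree ≤ m * 1 := Nat.mul_le_mul_left m h2
              _ = m := mul_one m
          have h2 : ((D.q0 ^ m * C (R.coeff m)).natDegree : ℝ) ≤ (m : ℝ) := by exact_mod_cast h1
          have h3 : (m : ℝ) ≤ R.natDegree := by exact_mod_cast hm
          have h4 : 0 ≤ (m : ℝ) * θ := by positivity
          linarith
        · have h2 : D.q0 = C D.c := by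
            unfold Dat.q0
            rw [if_neg hr, add_zero]
          rw [h2, ← C_pow, ← C_mul, natDegree_C]
          simpa using hx0
    · refine natDegree_sum_le_of_forall_le _ _ fun k hk => ?_
      rw [Nat.le_floor_iff hx0]
      have hk' : k < m := Finset.mem_range.1 hk
      have hih := ih (m - (k + 1)) (by omega)
      have hcast : ((m - (k + 1) : ℕ) : ℝ) = (m : ℝ) - (k + 1) := by
        rw [Nat.cast_sub (by omega)]
        push_cast
        ring
      rw [hcast] at hih
      have hmul : ((dd D (k + 1) * D.q0 ^ k * Hq D.q0 (dd D) R (m - (k + 1))).natDegree : ℝ) ≤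
          ((dd D (k + 1)).natDegree : ℝ) + k * (D.q0.natDegree : ℝ) +
            ((Hq D.q0 (dd D) R (m - (k + 1))).natDegree : ℝ) := by
        have h1 : (dd D (k + 1) * D.q0 ^ k * Hq D.q0 (dd D) R (m - (k + 1))).natDegree ≤
            (dd D (k + 1)).natDegree + k * D.q0.natDegree +
              (Hq D.q0 (dd D) R (m - (k + 1))).natDegree :=
          natDegree_mul_le.trans (add_le_add (natDegree_mul_le.trans
            (add_le_add le_rfl natDegree_pow_le)) le_rfl)
        exact_mod_cast h1
      by_cases hr : D.r = 0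
      · have h2 : D.q0.natDegree ≤ 1 := by
          unfold Dat.q0
          rw [if_pos hr]
          refine (natDegree_add_le _ _).trans (max_le ?_ natDegree_X_le)
          rw [natDegree_C]
          exact Nat.zero_le _
        have h3 : dd D (k + 1) = C (D.Q.coeff (k + 1)) := by
          unfold dd
          rw [if_neg (by omega), add_zero]
        by_cases hkn : D.n < k + 1
        · have h4 : D.Q.coeff (k + 1) = 0 :=
            coeff_eq_zero_of_natDegree_lt ((Q_deg D).trans_lt hkn)
          rw [h3, h4]
          simp only [map_zero, zero_mul, natDegree_zero, Nat.cast_zero]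
          exact hx0
        · push Not at hkn
          have h4 : (dd D (k + 1)).natDegree = 0 := by rw [h3, natDegree_C]
          have h5 : (D.q0.natDegree : ℝ) ≤ 1 := by exact_mod_cast h2
          have h6 : θ = 1 - 1 / (D.n : ℝ) := by
            rw [hθ, thm_div, if_pos hr]
          have h7 : ((k : ℝ) + 1) / D.n ≤ 1 := by
            rw [div_le_one (by linarith)]
            exact_mod_cast hkn
          have h8 : ((k : ℝ) + 1) * θ = (k + 1) - ((k : ℝ) + 1) / D.n := by
            rw [h6]
            ring
          rw [h4] at hmul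
          have h9 : (k : ℝ) * (D.q0.natDegree : ℝ) ≤ k := by
            calc (k : ℝ) * (D.q0.natDegree : ℝ) ≤ k * 1 :=
                  mul_le_mul_of_nonneg_left h5 (Nat.cast_nonneg k)
              _ = k := mul_one _
          push_cast at hmul
          nlinarith
      · have h2 : D.q0 = C D.c := by
          unfold Dat.q0
          rw [if_neg hr, add_zero]
        have h4 : D.q0.natDegree = 0 := by rw [h2, natDegree_C]
        have h6 : θ = 1 / (D.r : ℝ) := by
          rw [hθ, thm_div, if_neg hr]
        rw [h4] at hmul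
        by_cases hkr : k + 1 = D.r
        · have h5 : (dd D (k + 1)).natDegree ≤ 1 := by
            unfold dd
            rw [if_pos hkr]
            refine (natDegree_add_le _ _).trans (max_le ?_ natDegree_X_le)
            rw [natDegree_C]
            exact Nat.zero_le _
          have h5' : ((dd D (k + 1)).natDegree : ℝ) ≤ 1 := by exact_mod_cast h5
          have h7 : ((k : ℝ) + 1) * θ = 1 := by
            have h8 : ((k : ℝ) + 1) = D.r := by exact_mod_cast hkr
            have h9 : (D.r : ℝ) ≠ 0 := by exact_mod_cast hr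
            rw [h8, h6]
            field_simp
          push_cast at hmul
          nlinarith
        · have h5 : (dd D (k + 1)).natDegree = 0 := by
            unfold dd
            rw [if_neg hkr, add_zero, natDegree_C]
          rw [h5] at hmul
          push_cast at hmul
          have h7 : 0 ≤ ((k : ℝ) + 1) * θ := by positivity
          nlinarith

end ModDEG

open ModDEG in
theorem mDEG : StmDEG := by
  intro D R
  refine ⟨Hq D.q0 (dd D) R, fun m => ⟨?_, ?_, ?_⟩⟩
  · rw [mul_div_assoc]
    exact deg D R m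
  · refine main_rec (algebraMap ℝ[X] (RatFunc ℝ)) D.q0 (dd D) R
      (fun m => coefP D.Q D.r (lift R) m) (fun m => ?_) m
    have hden : ∀ j, PowerSeries.coeff j (((D.Q.map (algebraMap ℝ (RatFunc ℝ)) +
        C RatFunc.X * X ^ D.r : (RatFunc ℝ)[X])) : PowerSeries (RatFunc ℝ)) =
        algebraMap ℝ[X] (RatFunc ℝ) (dd D j) := by
      intro j
      rw [Polynomial.coeff_coe, coeff_add, coeff_map, coeff_C_mul, coeff_X_pow]
      unfold dd
      rw [map_add, IsScalarTower.algebraMap_apply ℝ ℝ[X] (RatFunc ℝ), Polynomial.algebraMap_eq]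
      congr 1
      split_ifs
      · rw [mul_one, RatFunc.algebraMap_X]
      · rw [mul_zero, map_zero]
    have hnum : ∀ j, PowerSeries.coeff j (((lift R).map (algebraMap ℝ[X] (RatFunc ℝ)) :
        (RatFunc ℝ)[X]) : PowerSeries (RatFunc ℝ)) =
        algebraMap ℝ[X] (RatFunc ℝ) (C (R.coeff j)) := by
      intro j
      rw [Polynomial.coeff_coe, coeff_map]
      unfold lift
      rw [coeff_map, Polynomial.algebraMap_eq]
    have hc : PowerSeries.constantCoeff (((D.Q.map (algebraMap ℝ (RatFunc ℝ)) +
        C RatFunc.X * X ^ D.r : (RatFunc ℝ)[X])) : PowerSeries (RatFunc ℝ)) ≠ 0 := by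
      rw [← PowerSeries.coeff_zero_eq_constantCoeff_apply, hden, dd0]
      intro h
      exact q0_ne D ((IsFractionRing.injective ℝ[X] (RatFunc ℝ)) (by rw [h, map_zero]))
    have h1 := coeff_rec (((lift R).map (algebraMap ℝ[X] (RatFunc ℝ)) :
        (RatFunc ℝ)[X]) : PowerSeries (RatFunc ℝ)) _ hc m
    rw [hnum, hden, dd0] at h1
    show _ * coefP D.Q D.r (lift R) m = _
    unfold coefP
    rw [h1]
    congr 1
    refine Finset.sum_congr rfl fun k _ => ?_
    rw [hden]
  · intro z hz
    refine ⟨q0_pos D hz, ?_⟩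
    refine main_rec (evalRingHom z) D.q0 (dd D) R
      (fun m => D.P R m z) (fun m => ?_) m
    have hden : ∀ j, PowerSeries.coeff j ((D.dp z : ℝ[X]) : PowerSeries ℝ) =
        evalRingHom z (dd D j) := by
      intro j
      rw [Polynomial.coeff_coe]
      unfold Dat.dp dd
      rw [coeff_add, coeff_C_mul, coeff_X_pow, map_add, coe_evalRingHom, eval_C]
      congr 1
      split_ifs
      · rw [mul_one, eval_X]
      · rw [mul_zero, eval_zero]
    have hc : PowerSeries.constantCoeff ((D.dp z : ℝ[X]) : PowerSeries ℝ) ≠ 0 := by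
      rw [← PowerSeries.coeff_zero_eq_constantCoeff_apply, hden, dd0]
      exact (q0_pos D hz).ne'
    have h1 := coeff_rec (R : PowerSeries ℝ) _ hc m
    rw [hden, dd0, Polynomial.coeff_coe] at h1
    show _ * D.P R m z = _
    unfold Dat.P
    rw [h1]
    have h2 : evalRingHom z (C (R.coeff m)) = R.coeff m := by simp
    rw [h2]
    congr 1
    refine Finset.sum_congr rfl fun k _ => ?_
    rw [hden]

end Pool.Agent.KS6_47.Zof
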