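import Pool.Agent.KS6_47.Zof.Defs

/-!
# Common lemmas for the modules EST and ESTZ
-/

namespace Pool.Agent.KS6_47.Zof

open Polynomial Set Filter Topology

namespace ModEST

variable (D : Dat)

theorem aeval_Q (t : ℂ) : aeval t D.Q = D.q t := by
  unfold Dat.Q Dat.q
  rw [map_mul, map_prod, aeval_C]
  congr 1
  refine Finset.prod_congr rfl fun j _ => ?_
  simp only [map_sub, map_one, map_mul, aeval_C, aeval_X]
  simp only [Complex.coe_algebraMap, Complex.ofReal_inv]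
  rw [div_eq_mul_inv, mul_comm]

theorem aeval_dp (z : ℝ) (t : ℂ) : aeval t (D.dp z) = D.den z t := by
  unfold Dat.dp Dat.den
  rw [map_add, aeval_Q, map_mul, map_pow, aeval_C, aeval_X]
  rfl

theorem eval_E (z : ℝ) (t : ℂ) : ((D.dp z).map (algebraMap ℝ ℂ)).eval t = D.den z t := by
  rw [eval_map_algebraMap, aeval_dp]

theorem Q_eval0 : D.Q.eval 0 = D.c := by
  unfold Dat.Q
  rw [eval_mul, eval_C, eval_prod]
  simp

theorem dp_eval0 {z : ℝ} (hz : 0 < z) : 0 < (D.dp z).eval 0 := by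
  unfold Dat.dp
  rw [eval_add, Q_eval0, eval_mul, eval_C, eval_pow, eval_X]
  have := D.hc
  have h2 : (0 : ℝ) ≤ z * 0 ^ D.r := by positivity
  linarith

theorem E_eval0 {z : ℝ} (hz : 0 < z) : ((D.dp z).map (algebraMap ℝ ℂ)).eval 0 ≠ 0 := by
  have h := dp_eval0 D hz
  have h2 : ((D.dp z).map (algebraMap ℝ ℂ)).eval 0 = (((D.dp z).eval 0 : ℝ) : ℂ) := by
    have := eval₂_at_apply (p := D.dp z) (algebraMap ℝ ℂ) 0
    rw [map_zero] at this
    rw [eval_map, this]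
    rfl
  rw [h2]
  exact_mod_cast h.ne'

theorem den_zero_ne {z : ℝ} (hz : 0 < z) {b : ℂ} (hb : D.den z b = 0) : b ≠ 0 := by
  intro h
  apply E_eval0 D hz
  rw [eval_E]
  rw [h] at hb
  exact hb

theorem Q_natDegree : D.Q.natDegree ≤ D.n := by
  unfold Dat.Q
  refine (natDegree_C_mul_le _ _).trans ?_
  refine (natDegree_prod_le _ _).trans ?_
  calc ∑ j : Fin D.n, (1 - C (D.a j)⁻¹ * X).natDegree ≤ ∑ _j : Fin D.n, 1 := by
        refine Finset.sum_le_sum fun j _ => ?_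
        refine (natDegree_sub_le _ _).trans ?_
        rw [natDegree_one]
        refine max_le (by norm_num) ((natDegree_C_mul_le _ _).trans natDegree_X_le)
    _ = D.n := by simp

theorem dp_natDegree (z : ℝ) : (D.dp z).natDegree ≤ D.n + D.r := by
  unfold Dat.dp
  refine (natDegree_add_le _ _).trans (max_le ?_ ?_)
  · exact (Q_natDegree D).trans (Nat.le_add_right _ _)
  · exact (natDegree_C_mul_le _ _).trans ((natDegree_X_pow_le _).trans (Nat.le_add_left _ _))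

theorem E_ne_zero {z : ℝ} (hz : 0 < z) : (D.dp z).map (algebraMap ℝ ℂ) ≠ 0 := by
  intro h
  apply E_eval0 D hz
  rw [h, eval_zero]

theorem L_eq (z : ℝ) : D.L = C (D.r : ℝ) * D.dp z - X * derivative (D.dp z) := by
  unfold Dat.L Dat.dp
  rw [derivative_add, derivative_C_mul, derivative_X_pow]
  rcases Nat.eq_zero_or_pos D.r with h | h
  · rw [h]; simp
  · obtain ⟨k, hk⟩ := Nat.exists_eq_succ_of_ne_zero h.ne'
    rw [hk, Nat.succ_sub_one, pow_succ]
    ring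

/-- `L(b) = - b D_z'(b)` at a root `b` of `D_z` -/
theorem root_L {z : ℝ} {b : ℂ} (hb : D.den z b = 0) :
    aeval b D.L = -(b * ((D.dp z).map (algebraMap ℝ ℂ)).derivative.eval b) := by
  rw [L_eq D z, map_sub, map_mul, aeval_dp, hb, mul_zero, zero_sub, map_mul, aeval_X,
    derivative_map, eval_map_algebraMap]

theorem aeval_conj (p : ℝ[X]) (t : ℂ) :
    aeval ((starRingEnd ℂ) t) p = (starRingEnd ℂ) (aeval t p) := by
  rw [aeval_def, aeval_def, eval₂_eq_sum, eval₂_eq_sum]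
  simp only [Polynomial.sum, map_sum, map_mul, map_pow, Complex.coe_algebraMap, Complex.conj_ofReal]

theorem F_conj (R : ℝ[X]) (t : ℂ) : D.F R ((starRingEnd ℂ) t) = (starRingEnd ℂ) (D.F R t) := by
  unfold Dat.F
  rw [aeval_conj, aeval_conj, map_div₀]

theorem term_eq {z : ℝ} (hz : 0 < z) (R : ℝ[X]) {b : ℂ} (hb : D.den z b = 0) (m : ℕ) :
    (R.map (algebraMap ℝ ℂ)).eval b /
        (((D.dp z).map (algebraMap ℝ ℂ)).derivative.eval b * b ^ (m + 1)) =
      -(D.F R b * (b⁻¹) ^ m) := by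
  have hb0 := den_zero_ne D hz hb
  have h := root_L D hb
  unfold Dat.F
  rw [h, eval_map_algebraMap]
  rcases eq_or_ne (((D.dp z).map (algebraMap ℝ ℂ)).derivative.eval b) 0 with h0 | h0
  · rw [h0]; simp
  · rw [inv_pow]
    field_simp
    ring

/-- the coefficient as a complex number -/
theorem coeff_ofReal (R E : ℝ[X]) (hE : E.eval 0 ≠ 0) (m : ℕ) :
    ((PowerSeries.coeff m ((R : PowerSeries ℝ) * (E : PowerSeries ℝ)⁻¹) : ℝ) : ℂ) =
      PowerSeries.coeff m (((R.map (algebraMap ℝ ℂ) : ℂ[X]) : PowerSeries ℂ) *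
        ((E.map (algebraMap ℝ ℂ) : ℂ[X]) : PowerSeries ℂ)⁻¹) := by
  have h0 : PowerSeries.constantCoeff (E : PowerSeries ℝ) ≠ 0 := by
    rw [← PowerSeries.coeff_zero_eq_constantCoeff_apply, Polynomial.coeff_coe,
      Polynomial.coeff_zero_eq_eval_zero]
    exact hE
  have h1 : PowerSeries.constantCoeff ((E.map (algebraMap ℝ ℂ) : ℂ[X]) : PowerSeries ℂ) ≠ 0 := by
    rw [← PowerSeries.coeff_zero_eq_constantCoeff_apply, Polynomial.coeff_coe,
      Polynomial.coeff_map, Polynomial.coeff_zero_eq_eval_zero]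
    simpa using hE
  have h2 : PowerSeries.map (algebraMap ℝ ℂ) ((E : PowerSeries ℝ)⁻¹) =
      ((E.map (algebraMap ℝ ℂ) : ℂ[X]) : PowerSeries ℂ)⁻¹ := by
    rw [PowerSeries.eq_inv_iff_mul_eq_one h1, Polynomial.polynomial_map_coe, ← map_mul,
      PowerSeries.inv_mul_cancel _ h0, map_one]
  rw [← h2, Polynomial.polynomial_map_coe, ← map_mul, PowerSeries.coeff_map]
  rfl

/-- splitting of the sum over the roots -/
theorem split (R : ℝ[X]) (Z : Finset ℂ) (t : ℂ) (m : ℕ) (G B : ℝ) (ht : t ∈ Z)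
    (htc : (starRingEnd ℂ) t ∈ Z) (him : t.im ≠ 0) (hG : 0 ≤ G)
    (hZ : ∀ b ∈ Z, b = t ∨ b = (starRingEnd ℂ) t ∨ ‖D.F R b * (b⁻¹) ^ m‖ ≤ G)
    (hB : (Z.card : ℝ) ≤ B) :
    ‖∑ b ∈ Z, D.F R b * (b⁻¹) ^ m - ((2 * (D.F R t * (t⁻¹) ^ m).re : ℝ) : ℂ)‖ ≤ B * G := by
  have hne : t ≠ (starRingEnd ℂ) t := by
    intro h
    apply him
    exact Complex.conj_eq_iff_im.1 h.symm
  have h1 : ∑ b ∈ Z, D.F R b * (b⁻¹) ^ m =
      D.F R t * (t⁻¹) ^ m + (D.F R ((starRingEnd ℂ) t) * (((starRingEnd ℂ) t)⁻¹) ^ m +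
        ∑ b ∈ (Z.erase t).erase ((starRingEnd ℂ) t), D.F R b * (b⁻¹) ^ m) := by
    rw [Finset.add_sum_erase _ (fun b => D.F R b * (b⁻¹) ^ m)
      (Finset.mem_erase.2 ⟨hne.symm, htc⟩),
      Finset.add_sum_erase _ (fun b => D.F R b * (b⁻¹) ^ m) ht]
  have h2 : D.F R t * (t⁻¹) ^ m + D.F R ((starRingEnd ℂ) t) * (((starRingEnd ℂ) t)⁻¹) ^ m =
      ((2 * (D.F R t * (t⁻¹) ^ m).re : ℝ) : ℂ) := by
    rw [F_conj, ← map_inv₀, ← map_pow, ← map_mul, Complex.add_conj]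
  rw [h1, ← add_assoc, h2, add_sub_cancel_left]
  calc ‖∑ b ∈ (Z.erase t).erase ((starRingEnd ℂ) t), D.F R b * (b⁻¹) ^ m‖
      ≤ ∑ b ∈ (Z.erase t).erase ((starRingEnd ℂ) t), ‖D.F R b * (b⁻¹) ^ m‖ := norm_sum_le _ _
    _ ≤ ∑ _b ∈ (Z.erase t).erase ((starRingEnd ℂ) t), G := by
        refine Finset.sum_le_sum fun b hb => ?_
        rw [Finset.mem_erase, Finset.mem_erase] at hb
        rcases hZ b hb.2.2 with h | h | h
        · exact absurd h hb.2.1
        · exact absurd h hb.1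
        · exact h
    _ = (((Z.erase t).erase ((starRingEnd ℂ) t)).card : ℝ) * G := by
        rw [Finset.sum_const, nsmul_eq_mul]
    _ ≤ B * G := by
        refine mul_le_mul_of_nonneg_right (le_trans ?_ hB) hG
        exact_mod_cast Finset.card_le_card
          ((Finset.erase_subset _ _).trans (Finset.erase_subset _ _))

theorem norm_pt {tau : ℝ → ℝ} {θ : ℝ} (h : 0 < tau θ) : ‖pt tau θ‖ = tau θ := by
  unfold pt
  rw [norm_mul, Complex.norm_exp_ofReal_mul_I, Complex.norm_real, Real.norm_of_nonneg h.le, mul_one]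

/-- choice of the constant -/
theorem exists_K {d B c : ℝ} (hd : 0 ≤ d) (hB : 0 < B) (hc : 0 < c) :
    ∃ K : ℝ, 0 < K ∧ ∀ x : ℝ, K ≤ x → d * B * Real.exp (-(c * x)) ≤ 1 / 3 := by
  have hdB : 0 ≤ d * B := mul_nonneg hd hB.le
  have hlog : 0 ≤ Real.log (3 * (d * B + 1)) := Real.log_nonneg (by linarith)
  refine ⟨Real.log (3 * (d * B + 1)) / c + 1, by positivity, fun x hx => ?_⟩
  have h1 : Real.log (3 * (d * B + 1)) ≤ c * x := by
    have h2 := mul_le_mul_of_nonneg_left hx hc.le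
    have h3 : c * (Real.log (3 * (d * B + 1)) / c + 1) = Real.log (3 * (d * B + 1)) + c := by
      field_simp
    linarith
  have h2 : Real.exp (-(c * x)) ≤ 1 / (3 * (d * B + 1)) := by
    calc Real.exp (-(c * x)) ≤ Real.exp (-Real.log (3 * (d * B + 1))) :=
          Real.exp_le_exp.2 (by linarith)
      _ = 1 / (3 * (d * B + 1)) := by
          rw [Real.exp_neg, Real.exp_log (by positivity), one_div]
  calc d * B * Real.exp (-(c * x)) ≤ d * B * (1 / (3 * (d * B + 1))) :=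
        mul_le_mul_of_nonneg_left h2 hdB
    _ ≤ 1 / 3 := by
        rw [mul_one_div, div_le_div_iff₀ (by positivity) (by norm_num)]
        linarith

theorem den_conj {z : ℝ} {t : ℂ} (h : D.den z t = 0) : D.den z ((starRingEnd ℂ) t) = 0 := by
  rw [← aeval_dp, aeval_conj, aeval_dp, h, map_zero]

theorem norm_term (R : ℝ[X]) {tau : ℝ → ℝ} {θ : ℝ} (h : 0 < tau θ) (m : ℕ) :
    ‖D.F R (pt tau θ) * ((pt tau θ)⁻¹) ^ m‖ = ‖D.F R (pt tau θ)‖ * (tau θ)⁻¹ ^ m := by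
  rw [norm_mul, norm_pow, norm_inv, norm_pt h]

/-- bound of the terms of the other roots -/
theorem other {x y s : ℝ} {b : ℂ} {m : ℕ} {c δ B : ℝ} (hs : 0 < s) (hx : x ≤ B * y)
    (hb : s * Real.exp (c * δ) ≤ ‖b‖) (hBy : 0 ≤ B * y) :
    x * (‖b‖⁻¹) ^ m ≤ B * y * (s⁻¹ ^ m * Real.exp (-(c * (m * δ)))) := by
  have h1 : 0 < s * Real.exp (c * δ) := by positivity
  have h2 : ‖b‖⁻¹ ≤ s⁻¹ * Real.exp (-(c * δ)) := by
    calc ‖b‖⁻¹ ≤ (s * Real.exp (c * δ))⁻¹ := inv_anti₀ h1 hb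
      _ = s⁻¹ * Real.exp (-(c * δ)) := by rw [mul_inv, Real.exp_neg]
  have h3 : (‖b‖⁻¹) ^ m ≤ s⁻¹ ^ m * Real.exp (-(c * (m * δ))) := by
    calc (‖b‖⁻¹) ^ m ≤ (s⁻¹ * Real.exp (-(c * δ))) ^ m :=
          pow_le_pow_left₀ (inv_nonneg.2 (norm_nonneg _)) h2 m
      _ = s⁻¹ ^ m * Real.exp (-(c * (m * δ))) := by
          rw [mul_pow, ← Real.exp_nat_mul]
          congr 2
          ring
  calc x * (‖b‖⁻¹) ^ m ≤ B * y * (‖b‖⁻¹) ^ m :=
        mul_le_mul_of_nonneg_right hx (pow_nonneg (inv_nonneg.2 (norm_nonneg _)) m)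
    _ ≤ _ := mul_le_mul_of_nonneg_left h3 hBy

end ModEST

end Pool.Agent.KS6_47.Zof
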