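import Pool.Agent.KS6_47.Zof.Basic

namespace Pool.Agent.KS6_47.Zof

open Polynomial Set Filter Topology

namespace ModFIN

theorem coefP_zero (Q : ℝ[X]) (r m : ℕ) : coefP Q r (lift 0) m = 0 := by
  unfold coefP lift
  simp

theorem q0_ne (D : Dat) : D.q0 ≠ 0 := by
  intro h
  have h1 : D.q0.eval 1 = 0 := by rw [h, eval_zero]
  have hc := D.hc
  unfold Dat.q0 at h1
  split_ifs at h1
  · simp at h1
    linarith
  · simp at h1
    linarith

theorem num_dvd (D : Dat) (p : RatFunc ℝ) (k : ℕ) (H : ℝ[X])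
    (h : p * (algebraMap ℝ[X] (RatFunc ℝ) D.q0) ^ k = algebraMap ℝ[X] (RatFunc ℝ) H) :
    p.num ∣ H := by
  have hd : algebraMap ℝ[X] (RatFunc ℝ) p.denom ≠ 0 :=
    RatFunc.algebraMap_ne_zero p.denom_ne_zero
  have h1 : algebraMap ℝ[X] (RatFunc ℝ) (p.num * D.q0 ^ k) =
      algebraMap ℝ[X] (RatFunc ℝ) (H * p.denom) := by
    rw [map_mul, map_mul, map_pow, ← h]
    nth_rewrite 2 [← RatFunc.num_div_denom p]
    field_simp
  have h2 : p.num * D.q0 ^ k = H * p.denom := RatFunc.algebraMap_injective ℝ h1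
  have h3 : p.num ∣ H * p.denom := ⟨_, h2.symm⟩
  exact (RatFunc.isCoprime_num_denom p).dvd_of_dvd_mul_right h3

end ModFIN

open ModFIN in
theorem mFIN (hR : StmRED) (hD : StmDEG) (hN : StmN11) (hr : StmROOT) (hd : StmDAT)
    (hP : StmPOS) : StmFIN := by
  intro Q r N hQ0 hQd hQr
  obtain ⟨D, rfl, rfl⟩ := hd Q r hQ0 hQd hQr
  obtain ⟨R, s, m₀, hred⟩ := hR D N
  have key : ∃ K' : ℕ, ∀ m, m₀ ≤ m → coefP D.Q D.r N m ≠ 0 →
      out (coefP D.Q D.r N m).num ≤ K' := by
    by_cases hR0 : R = 0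
    · refine ⟨0, fun m hm hne => absurd ?_ hne⟩
      rw [hred m hm, hR0, coefP_zero]
    · obtain ⟨H, hH⟩ := hD D R
      have hne : ∀ m, coefP D.Q D.r (lift R) m ≠ 0 → H m ≠ 0 := by
        intro m hm h0
        have h1 := (hH m).2.1
        rw [h0, map_zero] at h1
        rcases mul_eq_zero.1 h1 with h2 | h2
        · exact hm h2
        · exact RatFunc.algebraMap_ne_zero (q0_ne D) (pow_eq_zero_iff (by omega) |>.1 h2)
      have hdv : ∀ m, (coefP D.Q D.r (lift R) m).num ∣ H m := fun m =>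
        num_dvd D _ _ _ (hH m).2.1
      suffices hs : ∃ K' : ℕ, ∀ m, H m ≠ 0 → out (H m) ≤ K' by
        obtain ⟨K', hK'⟩ := hs
        refine ⟨K', fun m hm hne' => ?_⟩
        rw [hred m hm] at hne' ⊢
        exact (hr.2 _ _ (hne _ hne') (hdv _)).trans (hK' _ (hne _ hne'))
      by_cases hM : D.Main
      · obtain ⟨K, hK⟩ := hP D R hM hR0
        refine ⟨⌈(R.natDegree : ℝ) + K⌉₊, fun m hm => ?_⟩
        have h1 := hK m (H m) hm (fun z hz => ⟨(D.q0.eval z) ^ (m + 1),
          pow_pos ((hH m).2.2 z hz).1 _, ((hH m).2.2 z hz).2⟩)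
        have h2 : ((out (H m) + posr (H m) : ℕ) : ℝ) ≤ ((H m).natDegree : ℝ) := by
          exact_mod_cast hr.1 (H m) hm
        have h3 := (hH m).1
        push_cast at h2
        have h4 : (out (H m) : ℝ) ≤ (R.natDegree : ℝ) + K := by linarith
        exact_mod_cast h4.trans (Nat.le_ceil _)
      · unfold Dat.Main at hM
        push Not at hM
        have hn := D.hn
        have hn1 : D.n = 1 := by omega
        refine ⟨R.natDegree, fun m hm => ?_⟩
        rcases Nat.eq_zero_or_pos D.r with hr0 | hr0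
        · have hT : D.thm = 0 := by
            unfold Dat.thm
            rw [if_pos hr0, hn1]
            simp
          have h3 := (hH m).1
          rw [hT, mul_zero, zero_div, zero_add] at h3
          have h4 : (H m).natDegree ≤ R.natDegree := by exact_mod_cast h3
          have h2 := hr.1 (H m) hm
          omega
        · have hr1 : D.r = 1 := by omega
          exact hN D R hn1 hr1 m (H m) (hH m).2.1 hm
  obtain ⟨K', hK'⟩ := key
  refine ⟨K' + (∑ m ∈ Finset.range m₀, out (coefP D.Q D.r N m).num) + 1, fun m hm => ?_⟩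
  rcases le_or_gt m₀ m with h | h
  · have := hK' m h hm
    omega
  · have h1 : out (coefP D.Q D.r N m).num ≤
        ∑ m ∈ Finset.range m₀, out (coefP D.Q D.r N m).num :=
      Finset.single_le_sum (f := fun m => out (coefP D.Q D.r N m).num)
        (fun _ _ => Nat.zero_le _) (Finset.mem_range.2 h)
    omega

end Pool.Agent.KS6_47.Zof
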