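import Pool.Agent.KS6_47.Zof.Basic

namespace Pool.Agent.KS6_47.Zof

open Polynomial Set Filter Topology

namespace ModGAP

theorem A_odd (hA : StmARG) (D : Dat) {z : ℝ} (hz : 0 < z) {b : ℂ} (hb : 0 ≤ b.im)
    (h : D.den z b = 0) : ∃ k : ℕ, D.A b = (2 * k + 1) * Real.pi := by
  have hb0 := D.ne_zero_of_den hz h
  obtain ⟨h1, h2, h3⟩ := hA D b hb hb0
  have hq : D.q b / b ^ D.r = -(z : ℂ) := by
    rw [D.q_of_den h, neg_div, mul_div_assoc, div_self (pow_ne_zero _ hb0), mul_one]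
  rw [hq, D.norm_q_of_den hz h] at h3
  have hz' : (z : ℂ) ≠ 0 := by exact_mod_cast hz.ne'
  have h4 : Complex.exp (-(Complex.I * (D.A b : ℂ))) = -1 := by
    have : (z : ℂ) * (-1) = z * Complex.exp (-(Complex.I * (D.A b : ℂ))) := by
      rw [← h3]; ring
    exact (mul_left_cancel₀ hz' this).symm
  have h5 : Complex.exp (((Real.pi : ℂ) - (D.A b : ℂ)) * Complex.I) = 1 := by
    rw [sub_mul, Complex.exp_sub, Complex.exp_pi_mul_I]
    rw [Complex.exp_neg] at h4
    rw [mul_comm (D.A b : ℂ)]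
    rw [div_eq_mul_inv, h4]
    ring
  rw [Complex.exp_eq_one_iff] at h5
  obtain ⟨n, hn⟩ := h5
  have h6 : (Real.pi : ℂ) - (D.A b : ℂ) = n * (2 * Real.pi) := by
    have hI := Complex.I_ne_zero
    have : ((Real.pi : ℂ) - (D.A b : ℂ)) * Complex.I = (n * (2 * Real.pi)) * Complex.I := by
      rw [hn]; ring
    exact mul_right_cancel₀ hI this
  have h7 : Real.pi - D.A b = n * (2 * Real.pi) := by exact_mod_cast h6
  have hpi := Real.pi_pos
  have h8 : D.A b = (2 * (-n) + 1) * Real.pi := by linarith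
  have h9 : n ≤ 0 := by
    by_contra hcon
    push Not at hcon
    have : (1 : ℝ) ≤ n := by exact_mod_cast hcon
    nlinarith
  refine ⟨(-n).toNat, ?_⟩
  rw [h8]
  have : (((-n).toNat : ℤ) : ℝ) = ((-n : ℤ) : ℝ) := by
    rw [Int.toNat_of_nonneg (by omega)]
  have h10 : (((-n).toNat : ℕ) : ℝ) = -(n : ℝ) := by
    rw [← Int.cast_natCast, this]; push_cast; ring
  rw [h10]

end ModGAP

open ModGAP in
theorem mGAP (hA : StmARG) (hI : StmGAPI) : StmGAP := by
  intro D z t b hz ht hb hdt hdb hAt hne hseg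
  have ht0 := D.ne_zero_of_den hz hdt
  have hb0 := D.ne_zero_of_den hz hdb
  obtain ⟨hc, hid, him, hpos⟩ := hI D t b ht hb ht0 hb0 (D.q_ne_of_den hz hdt)
    (D.q_ne_of_den hz hdb) hseg
  rw [D.norm_q_of_den hz hdt, D.norm_q_of_den hz hdb, sub_self, Complex.ofReal_zero,
    add_zero] at hid
  obtain ⟨k, hk⟩ := A_odd hA D hz hb hdb
  have hpi := Real.pi_pos
  set M := ∫ s in (0:ℝ)..1, D.S (seg t b s) with hM
  have hMim : 0 < M.im := by rw [him]; exact hpos
  have hM0 : M ≠ 0 := by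
    intro h
    rw [h] at hMim
    simp at hMim
  have hlog : Complex.log b ≠ Complex.log t := by
    intro h
    apply hne
    rw [← Complex.exp_log hb0, ← Complex.exp_log ht0, h]
  have hk0 : k ≠ 0 := by
    rintro rfl
    have : D.A b - D.A t = 0 := by rw [hk, hAt]; push_cast; ring
    rw [this, Complex.ofReal_zero, mul_zero] at hid
    rcases mul_eq_zero.1 hid with h | h
    · exact hlog (sub_eq_zero.1 h)
    · exact hM0 h
  have hk1 : (1 : ℝ) ≤ k := by exact_mod_cast Nat.one_le_iff_ne_zero.2 hk0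
  have h3pi : 3 * Real.pi ≤ D.A b := by rw [hk]; nlinarith
  have hdA : 0 < D.A b - D.A t := by rw [hAt]; linarith
  have hsol : Complex.log b - Complex.log t = Complex.I * ((D.A b - D.A t : ℝ) : ℂ) / M := by
    rw [eq_div_iff hM0, hid]
  have hnM : 0 < Complex.normSq M := Complex.normSq_pos.2 hM0
  have hre : Real.log ‖b‖ - Real.log ‖t‖ = (D.A b - D.A t) * M.im / Complex.normSq M := by
    have h1 : (Complex.log b - Complex.log t).re = Real.log ‖b‖ - Real.log ‖t‖ := by
      rw [Complex.sub_re, Complex.log_re, Complex.log_re]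
    rw [← h1, hsol, Complex.div_re]
    simp only [Complex.mul_re, Complex.I_re, Complex.I_im, Complex.ofReal_re, Complex.ofReal_im,
      Complex.mul_im]
    ring
  have hnorm : ‖Complex.log b - Complex.log t‖ ^ 2 = (D.A b - D.A t) ^ 2 / Complex.normSq M := by
    rw [hsol, norm_div, norm_mul, Complex.norm_I, one_mul, Complex.norm_real, Real.norm_eq_abs,
      abs_of_pos hdA, div_pow, Complex.normSq_eq_norm_sq]
  have hgap : Real.log ‖b‖ - Real.log ‖t‖ =
      ‖Complex.log b - Complex.log t‖ ^ 2 * (∫ s in (0:ℝ)..1, (D.S (seg t b s)).im) /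
        (D.A b - D.A t) := by
    rw [← him, hre, hnorm]
    field_simp
  have hlt : Real.log ‖t‖ < Real.log ‖b‖ := by
    have : 0 < Real.log ‖b‖ - Real.log ‖t‖ := by
      rw [hre]
      positivity
    linarith
  refine ⟨?_, h3pi, (hA D b hb hb0).2.1, hc, hid, hgap⟩
  exact (Real.log_lt_log_iff (norm_pos_iff.2 ht0) (norm_pos_iff.2 hb0)).1 hlt

end Pool.Agent.KS6_47.Zof
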