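import Pool.Agent.KS6_47.Zof.Defs

/-!
Project ZZ (helper48), MP_4d57dd_an, module GAPI (helper51): the integral identity for the gap.
-/

set_option autoImplicit false

namespace Pool.Agent.KS6_47.Zof

open Set Filter Topology
open scoped ComplexConjugate

namespace ModGAPI

/-- `log` is continuous on the closed upper half plane without `0` -/
theorem cont_log : ContinuousOn Complex.log {z : ℂ | 0 ≤ z.im ∧ z ≠ 0} := by
  rintro z ⟨h1, h2⟩
  by_cases h3 : z ∈ Complex.slitPlane
  · exact (continuousAt_clog h3).continuousWithinAt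
  · rw [Complex.mem_slitPlane_iff] at h3
    push Not at h3
    have h4 : z.re < 0 := by
      rcases lt_or_eq_of_le h3.1 with h | h
      · exact h
      · exact absurd (Complex.ext h h3.2) h2
    refine (Complex.continuousWithinAt_log_of_re_neg_of_im_zero h4 h3.2).mono ?_
    rintro w ⟨h5, -⟩
    exact h5

variable (D : Dat)

theorem q_ne {t : ℂ} (hq : D.q t ≠ 0) (j : Fin D.n) : 1 - t / (D.a j : ℂ) ≠ 0 := by
  intro h
  apply hq
  unfold Dat.q
  rw [Finset.prod_eq_zero (Finset.mem_univ j) h, mul_zero]

theorem a_ne (j : Fin D.n) : (D.a j : ℂ) ≠ 0 := by exact_mod_cast (D.ha j).ne'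

theorem sub_ne {t : ℂ} (hq : D.q t ≠ 0) (j : Fin D.n) : (D.a j : ℂ) - t ≠ 0 := by
  intro h
  apply q_ne D hq j
  have h1 : t = (D.a j : ℂ) := (sub_eq_zero.1 h).symm
  rw [h1, div_self (a_ne D j), sub_self]

/-- the imaginary part of `S` -/
theorem S_im (w : ℂ) : (D.S w).im = ∑ j, D.a j * w.im / Complex.normSq ((D.a j : ℂ) - w) := by
  unfold Dat.S
  rw [Complex.add_im, Complex.natCast_im, zero_add, Complex.im_sum]
  refine Finset.sum_congr rfl fun j _ => ?_
  rw [Complex.div_im, Complex.sub_re, Complex.sub_im, Complex.ofReal_re, Complex.ofReal_im]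
  ring

theorem S_im_pos {w : ℂ} (hw : 0 < w.im) : 0 < (D.S w).im := by
  rw [S_im]
  have hne : (Finset.univ : Finset (Fin D.n)).Nonempty := by
    have : 0 < D.n := D.hn
    exact ⟨⟨0, this⟩, Finset.mem_univ _⟩
  refine Finset.sum_pos (fun j _ => ?_) hne
  refine div_pos (mul_pos (D.ha j) hw) (Complex.normSq_pos.2 fun h => ?_)
  have h1 := congrArg Complex.im h
  rw [Complex.sub_im, Complex.ofReal_im, Complex.zero_im] at h1
  linarith

/-- the antiderivative at an end point -/
theorem endpoint {t : ℂ} (ht : t ≠ 0) (hq : D.q t ≠ 0) :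
    -(∑ j, conj (Complex.log (1 - conj t / (D.a j : ℂ)))) + (D.r : ℂ) * Complex.log t =
      ((Real.log D.c - Real.log (‖D.q t‖ / ‖t‖ ^ D.r) : ℝ) : ℂ) + Complex.I * (D.A t : ℂ) := by
  have h1 : ∀ j, ‖1 - conj t / (D.a j : ℂ)‖ = ‖1 - t / (D.a j : ℂ)‖ := by
    intro j
    rw [← RCLike.norm_conj (1 - t / (D.a j : ℂ))]
    congr 1
    rw [map_sub, map_one, map_div₀, Complex.conj_ofReal]
  have h2 : Real.log (‖D.q t‖ / ‖t‖ ^ D.r) = Real.log D.c + ∑ j, Real.log ‖1 - t / (D.a j : ℂ)‖ -
      D.r * Real.log ‖t‖ := by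
    have h3 : ‖D.q t‖ ≠ 0 := norm_ne_zero_iff.2 hq
    have h4 : ‖t‖ ^ D.r ≠ 0 := pow_ne_zero _ (norm_ne_zero_iff.2 ht)
    rw [Real.log_div h3 h4, Real.log_pow]
    congr 1
    unfold Dat.q
    rw [norm_mul, norm_prod, Complex.norm_real, Real.norm_of_nonneg D.hc.le, Real.log_mul D.hc.ne',
      Real.log_prod]
    · intro j _
      exact norm_ne_zero_iff.2 (q_ne D hq j)
    · rw [Finset.prod_ne_zero_iff]
      intro j _
      exact norm_ne_zero_iff.2 (q_ne D hq j)
  have h5 : ∀ j, conj (Complex.log (1 - conj t / (D.a j : ℂ))) =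
      ((Real.log ‖1 - t / (D.a j : ℂ)‖ : ℝ) : ℂ) -
        Complex.I * (Complex.arg (1 - conj t / (D.a j : ℂ)) : ℂ) := by
    intro j
    apply Complex.ext
    · rw [Complex.conj_re, Complex.log_re, h1]
      simp
    · rw [Complex.conj_im, Complex.log_im]
      simp
  have h6 : Complex.log t = ((Real.log ‖t‖ : ℝ) : ℂ) + Complex.I * (Complex.arg t : ℂ) := by
    apply Complex.ext
    · rw [Complex.log_re]
      simp
    · rw [Complex.log_im]
      simp
  rw [Finset.sum_congr rfl fun j _ => h5 j, h6, h2, Finset.sum_sub_distrib, ← Finset.mul_sum]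
  unfold Dat.A
  push_cast
  ring

end ModGAPI

open ModGAPI in
theorem mGAPI : StmGAPI := by
  intro D t b ht hb ht0 hb0 hqt hqb halt
  have hα0 : 0 ≤ Complex.arg t := Complex.arg_nonneg_iff.2 ht
  have hβ0 : 0 ≤ Complex.arg b := Complex.arg_nonneg_iff.2 hb
  have hαπ : Complex.arg t ≤ Real.pi := Complex.arg_le_pi t
  have hβπ : Complex.arg b ≤ Real.pi := Complex.arg_le_pi b
  -- not both zero, not both `π`
  have hne0 : ¬ (Complex.arg t = 0 ∧ Complex.arg b = 0) := by
    rintro ⟨h1, h2⟩
    rw [Complex.arg_eq_zero_iff] at h1 h2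
    rcases halt with h | h | h
    · linarith [h1.2]
    · linarith [h2.2]
    · nlinarith [h1.1, h2.1]
  have hneπ : ¬ (Complex.arg t = Real.pi ∧ Complex.arg b = Real.pi) := by
    rintro ⟨h1, h2⟩
    rw [Complex.arg_eq_pi_iff] at h1 h2
    rcases halt with h | h | h
    · linarith [h1.2]
    · linarith [h2.2]
    · nlinarith [h1.1, h2.1, mul_pos_of_neg_of_neg h1.1 h2.1]
  set ξ : ℝ → ℂ := fun s => (1 - (s : ℂ)) * Complex.log t + (s : ℂ) * Complex.log b with hξ
  have hw : ∀ s, seg t b s = Complex.exp (ξ s) := fun s => rfl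
  have hξim : ∀ s : ℝ, (ξ s).im = (1 - s) * Complex.arg t + s * Complex.arg b := by
    intro s
    simp only [hξ, Complex.add_im, Complex.mul_im, Complex.sub_re, Complex.sub_im,
      Complex.one_re, Complex.one_im, Complex.ofReal_re, Complex.ofReal_im, Complex.log_im]
    ring
  have hξ0 : ∀ s ∈ Icc (0 : ℝ) 1, 0 ≤ (ξ s).im ∧ (ξ s).im ≤ Real.pi := by
    rintro s ⟨hs0, hs1⟩
    rw [hξim]
    constructor
    · nlinarith
    · nlinarith
  have hξ1 : ∀ s ∈ Ioo (0 : ℝ) 1, 0 < (ξ s).im ∧ (ξ s).im < Real.pi := by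
    rintro s ⟨hs0, hs1⟩
    rw [hξim]
    constructor
    · rcases eq_or_lt_of_le hα0 with h | h
      · have h2 : 0 < Complex.arg b := by
          rcases eq_or_lt_of_le hβ0 with h3 | h3
          · exact absurd ⟨h.symm, h3.symm⟩ hne0
          · exact h3
        rw [← h]
        nlinarith
      · nlinarith
    · rcases eq_or_lt_of_le hαπ with h | h
      · have h2 : Complex.arg b < Real.pi := by
          rcases eq_or_lt_of_le hβπ with h3 | h3
          · exact absurd ⟨h, h3⟩ hneπ
          · exact h3
        rw [h]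
        nlinarith
      · nlinarith
  have hwim : ∀ s, (seg t b s).im = Real.exp (ξ s).re * Real.sin (ξ s).im := fun s => by
    rw [hw, Complex.exp_im]
  have hwim0 : ∀ s ∈ Icc (0 : ℝ) 1, 0 ≤ (seg t b s).im := by
    intro s hs
    rw [hwim]
    exact mul_nonneg (Real.exp_pos _).le (Real.sin_nonneg_of_nonneg_of_le_pi (hξ0 s hs).1
      (hξ0 s hs).2)
  have hwim1 : ∀ s ∈ Ioo (0 : ℝ) 1, 0 < (seg t b s).im := by
    intro s hs
    rw [hwim]
    exact mul_pos (Real.exp_pos _) (Real.sin_pos_of_pos_of_lt_pi (hξ1 s hs).1 (hξ1 s hs).2)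
  have hw0 : seg t b 0 = t := by
    unfold seg
    simp [Complex.exp_log ht0]
  have hw1 : seg t b 1 = b := by
    unfold seg
    simp [Complex.exp_log hb0]
  have hne : ∀ s ∈ Icc (0 : ℝ) 1, ∀ j, (D.a j : ℂ) - seg t b s ≠ 0 := by
    rintro s ⟨hs0, hs1⟩ j
    rcases eq_or_lt_of_le hs0 with h | h
    · rw [← h, hw0]
      exact sub_ne D hqt j
    · rcases eq_or_lt_of_le hs1 with h' | h'
      · rw [h', hw1]
        exact sub_ne D hqb j
      · intro h2
        have h3 := congrArg Complex.im h2
        rw [Complex.sub_im, Complex.ofReal_im, Complex.zero_im] at h3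
        linarith [hwim1 s ⟨h, h'⟩]
  have hξc : Continuous ξ := by
    simp only [hξ]
    fun_prop
  have hwc : Continuous (seg t b) := Complex.continuous_exp.comp hξc
  have hSc : ContinuousOn (fun s : ℝ => D.S (seg t b s)) (Icc 0 1) := by
    unfold Dat.S
    refine continuousOn_const.add (continuousOn_finsetSum _ fun j _ => ?_)
    exact hwc.continuousOn.div (continuousOn_const.sub hwc.continuousOn) fun s hs => hne s hs j
  have hSi : IntervalIntegrable (fun s : ℝ => D.S (seg t b s)) MeasureTheory.volume 0 1 := by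
    refine ContinuousOn.intervalIntegrable ?_
    rwa [uIcc_of_le zero_le_one]
  have him : (∫ s in (0:ℝ)..1, D.S (seg t b s)).im = ∫ s in (0:ℝ)..1, (D.S (seg t b s)).im := by
    have h1 := Complex.imCLM.intervalIntegral_comp_comm hSi
    exact h1.symm
  refine ⟨hSc, ?_, him, ?_⟩
  · -- the antiderivative
    set l : ℂ := Complex.log b - Complex.log t with hl
    set G : ℝ → ℂ := fun s => -(∑ j, conj (Complex.log (1 - conj (seg t b s) / (D.a j : ℂ)))) +
      (D.r : ℂ) * ξ s with hG
    have him' : ∀ s j, (1 - conj (seg t b s) / (D.a j : ℂ)).im = (seg t b s).im / D.a j := by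
      intro s j
      rw [Complex.sub_im, Complex.one_im, Complex.div_ofReal_im, Complex.conj_im]
      ring
    have hGc : ContinuousOn G (Icc 0 1) := by
      refine ContinuousOn.add (ContinuousOn.neg (continuousOn_finsetSum _ fun j _ => ?_))
        (continuousOn_const.mul hξc.continuousOn)
      refine Complex.continuous_conj.comp_continuousOn ?_
      refine cont_log.comp (Continuous.continuousOn (by fun_prop)) ?_
      intro s hs
      refine ⟨?_, ?_⟩
      · rw [him']
        exact div_nonneg (hwim0 s hs) (D.ha j).le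
      · intro h2
        apply hne s hs j
        have h3 : conj (seg t b s) = (D.a j : ℂ) := by
          have h4 := (sub_eq_zero.1 h2).symm
          rwa [div_eq_one_iff_eq (a_ne D j)] at h4
        have h4 := congrArg conj h3
        rw [Complex.conj_conj, Complex.conj_ofReal] at h4
        rw [h4, sub_self]
    have hξd : ∀ s : ℝ, HasDerivAt ξ l s := by
      intro s
      have h1 : HasDerivAt (fun s : ℝ => (s : ℂ)) 1 s := Complex.ofRealCLM.hasDerivAt
      have h2 := ((h1.const_sub 1).mul_const (Complex.log t)).add (h1.mul_const (Complex.log b))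
      have h3 : -1 * Complex.log t + 1 * Complex.log b = l := by
        rw [hl]
        ring
      rw [h3] at h2
      exact h2
    have hwd : ∀ s : ℝ, HasDerivAt (seg t b) (seg t b s * l) s := by
      intro s
      exact (hξd s).cexp
    have hGd : ∀ s ∈ Ioo (0 : ℝ) 1, HasDerivAt G (l * D.S (seg t b s)) s := by
      intro s hs
      have h1 : G =ᶠ[𝓝 s] fun s => -(∑ j, Complex.log (1 - seg t b s / (D.a j : ℂ))) +
          (D.r : ℂ) * ξ s := by
        filter_upwards [isOpen_Ioo.mem_nhds hs] with s' hs'
        simp only [hG]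
        congr 2
        refine Finset.sum_congr rfl fun j _ => ?_
        have h2 : (1 - conj (seg t b s') / (D.a j : ℂ)).arg ≠ Real.pi := by
          intro h3
          rw [Complex.arg_eq_pi_iff, him'] at h3
          have h4 := div_pos (hwim1 s' hs') (D.ha j)
          linarith [h3.2]
        rw [← Complex.log_conj _ h2, map_sub, map_one, map_div₀, Complex.conj_conj,
          Complex.conj_ofReal]
      refine HasDerivAt.congr_of_eventuallyEq ?_ h1
      have h2 : ∀ j ∈ (Finset.univ : Finset (Fin D.n)),
          HasDerivAt (fun s => Complex.log (1 - seg t b s / (D.a j : ℂ)))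
          (-(seg t b s * l / (D.a j : ℂ)) / (1 - seg t b s / (D.a j : ℂ))) s := by
        intro j _
        refine HasDerivAt.clog_real (((hwd s).div_const _).const_sub 1) ?_
        rw [Complex.mem_slitPlane_iff]
        right
        rw [Complex.sub_im, Complex.one_im, Complex.div_ofReal_im]
        have h4 := div_pos (hwim1 s hs) (D.ha j)
        intro h5
        linarith
      have h3 := ((HasDerivAt.fun_sum h2).neg).add ((hξd s).const_mul (D.r : ℂ))
      have h4 : -(∑ j, -(seg t b s * l / (D.a j : ℂ)) / (1 - seg t b s / (D.a j : ℂ))) +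
          (D.r : ℂ) * l = l * D.S (seg t b s) := by
        unfold Dat.S
        rw [mul_add, Finset.mul_sum, add_comm, ← Finset.sum_neg_distrib]
        congr 1
        · ring
        · refine Finset.sum_congr rfl fun j _ => ?_
          have h5 := a_ne D j
          have h6 := hne s (Ioo_subset_Icc_self hs) j
          have h7 : 1 - seg t b s / (D.a j : ℂ) ≠ 0 := by
            intro h8
            apply h6
            have h9 := (sub_eq_zero.1 h8).symm
            rw [div_eq_one_iff_eq h5] at h9
            rw [h9, sub_self]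
          have h8 : 1 - seg t b s / (D.a j : ℂ) = ((D.a j : ℂ) - seg t b s) / (D.a j : ℂ) := by
            field_simp
          rw [h8]
          field_simp
      rw [h4] at h3
      exact h3
    have hint : IntervalIntegrable (fun s : ℝ => l * D.S (seg t b s)) MeasureTheory.volume 0 1 :=
      hSi.const_mul l
    have hftc := intervalIntegral.integral_eq_sub_of_hasDerivAt_of_le zero_le_one hGc hGd hint
    rw [intervalIntegral.integral_const_mul] at hftc
    rw [hftc]
    have hG1 : G 1 = -(∑ j, conj (Complex.log (1 - conj b / (D.a j : ℂ)))) +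
        (D.r : ℂ) * Complex.log b := by
      simp only [hG, hw1]
      congr 2
      simp [hξ]
    have hG0 : G 0 = -(∑ j, conj (Complex.log (1 - conj t / (D.a j : ℂ)))) +
        (D.r : ℂ) * Complex.log t := by
      simp only [hG, hw0]
      congr 2
      simp [hξ]
    rw [hG1, hG0, endpoint D hb0 hqb, endpoint D ht0 hqt]
    push_cast
    ring
  · refine intervalIntegral.intervalIntegral_pos_of_pos_on ?_ ?_ one_pos
    · refine ContinuousOn.intervalIntegrable ?_
      rw [uIcc_of_le zero_le_one]
      exact Complex.continuous_im.comp_continuousOn hSc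
    · intro s hs
      exact S_im_pos D (hwim1 s hs)

end Pool.Agent.KS6_47.Zof
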