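import Pool.Agent.KS6_47.Zof.Basic
import Pool.Agent.KS6_47.Zof.B43

namespace Pool.Agent.KS6_47.Zof

open Polynomial Set Filter Topology

namespace ModLC0

/-- growth of a real polynomial at infinity -/
theorem growth (R : ℝ[X]) (hR : R ≠ 0) : ∃ W > 0, ∃ c₁ > 0, ∃ c₂ > 0, ∀ w : ℂ, W ≤ ‖w‖ →
    c₁ * ‖w‖ ^ R.natDegree ≤ ‖aeval w R‖ ∧ ‖aeval w R‖ ≤ c₂ * ‖w‖ ^ R.natDegree := by
  have hlc : 0 < ‖(R.leadingCoeff : ℂ)‖ := by
    rw [norm_pos_iff]
    exact_mod_cast leadingCoeff_ne_zero.2 hR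
  have hcont : Continuous fun u : ℂ => ‖aeval u R.reverse‖ := by fun_prop
  have h0 : ‖aeval (0:ℂ) R.reverse‖ = ‖(R.leadingCoeff : ℂ)‖ := by
    rw [aeval_def, eval₂_at_zero, Polynomial.coeff_zero_reverse]
    rfl
  have hev : ∀ᶠ u in 𝓝 (0:ℂ), ‖(R.leadingCoeff : ℂ)‖ / 2 < ‖aeval u R.reverse‖ ∧
      ‖aeval u R.reverse‖ < 2 * ‖(R.leadingCoeff : ℂ)‖ := by
    have h1 := hcont.tendsto 0
    rw [h0] at h1
    exact (h1.eventually_const_lt (by linarith)).and (h1.eventually_lt_const (by linarith))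
  rw [Metric.eventually_nhds_iff] at hev
  obtain ⟨δ, hδ, hδ'⟩ := hev
  refine ⟨2 / δ, by positivity, ‖(R.leadingCoeff : ℂ)‖ / 2, by positivity,
    2 * ‖(R.leadingCoeff : ℂ)‖, by positivity, fun w hw => ?_⟩
  have hw0 : 0 < ‖w‖ := lt_of_lt_of_le (by positivity) hw
  have hwne : w ≠ 0 := norm_pos_iff.1 hw0
  have h2 : dist w⁻¹ 0 < δ := by
    rw [dist_zero_right, norm_inv, inv_lt_comm₀ hw0 hδ]
    calc δ⁻¹ < 2 / δ := by rw [div_eq_mul_inv]; nlinarith [inv_pos.2 hδ]
      _ ≤ ‖w‖ := hw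
  obtain ⟨h3, h4⟩ := hδ' h2
  have h5 : aeval w⁻¹ R.reverse * w ^ R.natDegree = aeval w R := by
    let _ := invertibleOfNonzero hwne
    have := eval₂_reverse_mul_pow (algebraMap ℝ ℂ) w R
    rw [invOf_eq_inv] at this
    exact this
  rw [← h5, norm_mul, norm_pow]
  constructor
  · exact mul_le_mul_of_nonneg_right h3.le (by positivity)
  · exact mul_le_mul_of_nonneg_right h4.le (by positivity)

theorem sin_lb {η φ : ℝ} (hη : 0 ≤ η) (h1 : η ≤ φ) (h2 : φ ≤ Real.pi - η) :
    2 / Real.pi * η ≤ Real.sin φ := by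
  have hpi := Real.pi_pos
  rcases le_total φ (Real.pi / 2) with h | h
  · calc 2 / Real.pi * η ≤ 2 / Real.pi * φ := by gcongr
      _ ≤ _ := Real.mul_le_sin (by linarith) h
  · rw [← Real.sin_pi_sub]
    calc 2 / Real.pi * η ≤ 2 / Real.pi * (Real.pi - φ) := by gcongr; linarith
      _ ≤ _ := Real.mul_le_sin (by linarith) (by linarith)

theorem Q_ne_zero (D : Dat) : D.Q ≠ 0 := by
  intro h
  have h1 := D.aeval_Q 0
  rw [h, map_zero, D.q_zero] at h1
  exact D.c_ne h1.symm

theorem Q_natDegree (D : Dat) : 1 ≤ D.Q.natDegree := by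
  by_contra hcon
  have h0 : D.Q.natDegree = 0 := by omega
  have h1 : D.q (D.a ⟨0, D.hn⟩ : ℂ) = 0 := (D.q_eq_zero_iff _).2 ⟨_, rfl⟩
  rw [← D.aeval_Q, eq_C_of_natDegree_eq_zero h0, aeval_C] at h1
  have h2 := D.aeval_Q 0
  rw [eq_C_of_natDegree_eq_zero h0, aeval_C, h1, D.q_zero] at h2
  exact D.c_ne h2.symm

end ModLC0

open ModLC0 in
theorem mLC0 (_hA : StmARG) (hGL : StmGAPLB) (hz : StmZINJ) (hl : StmLIM0) : StmLC0 := by
  intro D R tau hD htau hR hr
  have hpi := Real.pi_pos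
  have hn2 : 2 ≤ D.n := by
    rcases hD with h | h
    · exact h
    · omega
  have hn2' : (2 : ℝ) ≤ D.n := by exact_mod_cast hn2
  have hnpos : (0 : ℝ) < D.n := by linarith
  have hthm : D.thm = Real.pi - Real.pi / D.n := by
    unfold Dat.thm
    rw [if_pos hr]
  have hthm2 : Real.pi / 2 ≤ D.thm := by
    rw [hthm]
    have : Real.pi / D.n ≤ Real.pi / 2 := by gcongr
    linarith
  obtain ⟨hlim, K, hK, hKθ⟩ := hl D tau hD htau hr
  obtain ⟨_, _, hall⟩ := hz D tau htau
  obtain ⟨W1, hW1, r1, hr1, r2, hr2, hgR⟩ := growth R hR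
  obtain ⟨W2, hW2, l1, hl1, l2, hl2, hgL⟩ := growth D.L D.L_ne_zero
  obtain ⟨W3, hW3, q1, hq1, q2, hq2, hgQ⟩ := growth D.Q (Q_ne_zero D)
  set sa : ℝ := ∑ j, D.a j with hsa
  have haj : ∀ j, D.a j ≤ sa := fun j =>
    Finset.single_le_sum (f := D.a) (fun i _ => (D.ha i).le) (Finset.mem_univ j)
  have hsa0 : 0 < sa := lt_of_lt_of_le (D.ha ⟨0, D.hn⟩) (haj _)
  set W : ℝ := max (max W1 W2) (max W3 (2 * sa)) with hW
  have hWW1 : W1 ≤ W := le_trans (le_max_left _ _) (le_max_left _ _)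
  have hWW2 : W2 ≤ W := le_trans (le_max_right _ _) (le_max_left _ _)
  have hWW3 : W3 ≤ W := le_trans (le_max_left _ _) (le_max_right _ _)
  have hWW4 : 2 * sa ≤ W := le_trans (le_max_right _ _) (le_max_right _ _)
  set lam : ℝ := max 1 (q2 / q1) with hlam
  have hlam1 : 1 ≤ lam := le_max_left _ _
  have hlam2 : q2 / q1 ≤ lam := le_max_right _ _
  set η : ℝ := min (Real.pi / 8) (Real.pi / (2 * D.n)) with hη
  have hη0 : 0 < η := lt_min (by positivity) (by positivity)
  have hη1 : η ≤ Real.pi / 8 := min_le_left _ _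
  have hη2 : η ≤ Real.pi / (2 * D.n) := min_le_right _ _
  set κ₀ : ℝ := 2 / Real.pi * η with hκ₀
  have hκ₀pos : 0 < κ₀ := by positivity
  set a₀ : ℝ := D.a ⟨0, D.hn⟩ with ha₀
  have ha₀pos : 0 < a₀ := D.ha _
  have ha₀sa : a₀ ≤ sa := haj _
  set c₀ : ℝ := (Real.pi / D.n) ^ 2 * (a₀ * κ₀ / (4 * lam ^ 2)) / (2 * Real.pi * D.n) with hc₀
  have hlampos : 0 < lam := by linarith
  have hc₀pos : 0 < c₀ := by positivity
  -- the neighbourhood
  have hev := hlim.eventually_ge_atTop W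
  rw [eventually_nhdsWithin_iff, Metric.eventually_nhds_iff] at hev
  obtain ⟨ε₁, hε₁, hε₁'⟩ := hev
  refine ⟨min (ε₁ / 2) (Real.pi / 4), by positivity, r2 * lam ^ R.natDegree * l2 / (l1 * r1),
    by positivity, c₀ / K, by positivity, ?_⟩
  intro θ hθ hθ1 hθ2 b hb
  have habs : |θ - D.thm| = D.thm - θ := by
    rw [abs_sub_comm, abs_of_pos (by linarith [hθ.2])]
  rw [habs] at hθ1 hθ2 ⊢
  have hθε := hθ2.trans (min_le_left _ _)
  have hθ4 := hθ2.trans (min_le_right _ _)
  have hτW : W ≤ tau θ := by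
    refine hε₁' ?_ hθ.2
    rw [Real.dist_eq, habs]
    linarith
  have hτ0 : 0 < tau θ := htau.pos hθ
  obtain ⟨hz0, hdt, him, hdom⟩ := hall θ hθ
  set t := pt tau θ with ht
  have htn : ‖t‖ = tau θ := norm_pt hτ0
  have hbτ : tau θ ≤ ‖b‖ := by
    rcases hdom b hb with h | h | h
    · rw [h, htn]
    · rw [h, Complex.norm_conj, htn]
    · exact h.le
  have hLb : aeval b D.L ≠ 0 := by
    have h1 := (hgL b (hWW2.trans (hτW.trans hbτ))).1
    have h2 : 0 < l1 * ‖b‖ ^ D.L.natDegree := by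
      have : 0 < ‖b‖ := hτ0.trans_le hbτ
      positivity
    exact norm_pos_iff.1 (h2.trans_le h1)
  refine ⟨hLb, ?_⟩
  by_cases hb1 : b = t
  · exact Or.inl hb1
  by_cases hb2 : b = (starRingEnd ℂ) t
  · exact Or.inr (Or.inl hb2)
  right; right
  -- the ratio
  have hblam : ‖b‖ ≤ lam * tau θ := by
    have h1 := (hgQ b (hWW3.trans (hτW.trans hbτ))).1
    have h2 := (hgQ t (by rw [htn]; exact hWW3.trans hτW)).2
    rw [D.aeval_Q] at h1 h2
    have h3 := D.norm_q_of_den hz0 hb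
    have h4 := D.norm_q_of_den hz0 hdt
    rw [hr, pow_zero, div_one] at h3 h4
    rw [h3] at h1
    rw [h4, htn] at h2
    have h5 : ‖b‖ ^ D.Q.natDegree ≤ (lam * tau θ) ^ D.Q.natDegree := by
      have h6 : q1 * ‖b‖ ^ D.Q.natDegree ≤ q2 * tau θ ^ D.Q.natDegree := h1.trans h2
      have h7 : ‖b‖ ^ D.Q.natDegree ≤ q2 / q1 * tau θ ^ D.Q.natDegree := by
        rw [div_mul_eq_mul_div, le_div_iff₀ hq1]
        linarith
      refine h7.trans ?_
      rw [mul_pow]
      refine mul_le_mul_of_nonneg_right ?_ (by positivity)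
      exact hlam2.trans (le_self_pow₀ hlam1 (by have := Q_natDegree D; omega))
    exact le_of_pow_le_pow_left₀ (by have := Q_natDegree D; omega) (by positivity) h5
  have hbpos : 0 < ‖b‖ := hτ0.trans_le hbτ
  constructor
  · -- comparison of `F`
    unfold Dat.F
    rw [norm_div, norm_div]
    have h1 := (hgR b (hWW1.trans (hτW.trans hbτ))).2
    have h2 := (hgR t (by rw [htn]; exact hWW1.trans hτW)).1
    have h3 := (hgL b (hWW2.trans (hτW.trans hbτ))).1
    have h4 := (hgL t (by rw [htn]; exact hWW2.trans hτW)).2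
    rw [htn] at h2 h4
    have hLb' : l1 * tau θ ^ D.L.natDegree ≤ ‖aeval b D.L‖ := by
      refine le_trans ?_ h3
      gcongr
    have hRb' : ‖aeval b R‖ ≤ r2 * (lam ^ R.natDegree * tau θ ^ R.natDegree) := by
      refine h1.trans ?_
      rw [← mul_pow]
      gcongr
    have hLt0 : 0 < ‖aeval t D.L‖ := norm_pos_iff.2 (D.L_ne_zero_of_im him.ne')
    have hFb : ‖aeval b R‖ / ‖aeval b D.L‖ ≤
        r2 * (lam ^ R.natDegree * tau θ ^ R.natDegree) / (l1 * tau θ ^ D.L.natDegree) := by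
      apply div_le_div₀ (by positivity) hRb' (by positivity) hLb'
    have hFt : r1 * tau θ ^ R.natDegree / (l2 * tau θ ^ D.L.natDegree) ≤
        ‖aeval t R‖ / ‖aeval t D.L‖ := by
      apply div_le_div₀ (by positivity) h2 hLt0 h4
    refine hFb.trans ?_
    refine le_trans (le_of_eq ?_) (mul_le_mul_of_nonneg_left hFt (by positivity))
    field_simp
  · -- the gap
    obtain ⟨b', hb'im, hb'd, hb't, hb'n, _⟩ := B43.exists_upper D _ t b hb hb1 hb2
    obtain ⟨hg1, hg2⟩ := hGL D _ t b' hz0 him.le hb'im hdt hb'd (htau.2 θ hθ).2 hb't (Or.inl him)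
    have hsegn : ∀ s ∈ Icc (0:ℝ) 1, tau θ ≤ ‖seg t b' s‖ ∧ ‖seg t b' s‖ ≤ lam * tau θ := by
      intro s hs
      constructor
      · exact B43.le_norm_seg t b' _ hτ0 (le_of_eq htn.symm) (by rw [hb'n]; exact hbτ) s hs
      · refine B43.norm_seg_le t b' (norm_pos_iff.1 (by rw [htn]; exact hτ0))
          (norm_pos_iff.1 (by rw [hb'n]; exact hbpos)) _ ?_ (by rw [hb'n]; exact hblam) s hs
        rw [htn]
        nlinarith
    have hM : 2 * Real.pi ≤ (2 * D.n : ℝ) * ‖Complex.log b' - Complex.log t‖ := by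
      apply hg2
      intro s hs
      obtain ⟨h1, _⟩ := hsegn s hs
      have hw0 : 0 < ‖seg t b' s‖ := hτ0.trans_le h1
      have h3 := B43.norm_S_le D (seg t b' s) ‖seg t b' s‖ (‖seg t b' s‖ / 2) (by positivity)
        le_rfl (by
          intro j
          have h4 : ‖seg t b' s‖ - ‖(D.a j : ℂ)‖ ≤ ‖(D.a j : ℂ) - seg t b' s‖ := by
            rw [← norm_neg ((D.a j : ℂ) - seg t b' s), neg_sub]
            exact norm_sub_norm_le _ _
          have h5 : ‖(D.a j : ℂ)‖ = D.a j := by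
            rw [Complex.norm_real, Real.norm_eq_abs, abs_of_pos (D.ha j)]
          have h6 := haj j
          have h7 := hWW4.trans (hτW.trans h1)
          rw [h5] at h4
          linarith)
      refine h3.trans (le_of_eq ?_)
      rw [hr]
      field_simp
      simp
    have hΔ : Real.pi / D.n ≤ ‖Complex.log b' - Complex.log t‖ := by
      rw [div_le_iff₀ hnpos]
      linarith
    have hσ : ∀ s ∈ Icc (0:ℝ) (1/2), a₀ * κ₀ / (4 * lam ^ 2 * tau θ) ≤ (D.S (seg t b' s)).im := by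
      intro s hs
      have hs1 : s ∈ Icc (0:ℝ) 1 := ⟨hs.1, by linarith [hs.2]⟩
      obtain ⟨h1, h2⟩ := hsegn s hs1
      have h3 := B43.seg_im_nonneg t b' him.le hb'im s hs1
      refine le_trans ?_ (D.le_S_im h3 ⟨0, D.hn⟩)
      rw [← ha₀]
      have hsin : κ₀ ≤ Real.sin ((1 - s) * Complex.arg t + s * Complex.arg b') := by
        have hargt : Complex.arg t = θ := arg_pt hτ0 hθ.1 (Dat.IsCurve.lt_pi hθ)
        have h4 := Complex.arg_nonneg_iff.2 hb'im
        have h5 := Complex.arg_le_pi b'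
        rw [hargt]
        have hs0 := hs.1
        have hs2 := hs.2
        have hθpi : θ < Real.pi := Dat.IsCurve.lt_pi hθ
        apply sin_lb hη0.le
        · have h6 : θ / 2 ≤ (1 - s) * θ := by
            have h61 : (1 / 2 : ℝ) * θ ≤ (1 - s) * θ :=
              mul_le_mul_of_nonneg_right (by linarith) hθ.1.le
            linarith
          have h7 : 0 ≤ s * Complex.arg b' := by positivity
          linarith
        · have h6 : s * Complex.arg b' ≤ s * Real.pi := by gcongr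
          have h7 : (1 - s) * θ + s * Real.pi ≤ (θ + Real.pi) / 2 := by
            have h71 : s * (Real.pi - θ) ≤ 1 / 2 * (Real.pi - θ) :=
              mul_le_mul_of_nonneg_right hs2 (by linarith)
            linarith
          have h8 : (θ + Real.pi) / 2 ≤ Real.pi - Real.pi / (2 * D.n) := by
            have h9 : θ ≤ Real.pi - Real.pi / D.n := by rw [← hthm]; exact hθ.2.le
            have h10 : Real.pi / (2 * D.n) = Real.pi / D.n / 2 := by
              rw [div_div, mul_comm]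
            rw [h10]
            linarith
          linarith
      have him' : tau θ * κ₀ ≤ (seg t b' s).im := by
        rw [B43.seg_im]
        exact mul_le_mul h1 hsin hκ₀pos.le (norm_nonneg _)
      have hnsq : Complex.normSq ((a₀ : ℂ) - seg t b' s) ≤ 4 * lam ^ 2 * tau θ ^ 2 := by
        rw [Complex.normSq_eq_norm_sq]
        have h5 : ‖(a₀ : ℂ) - seg t b' s‖ ≤ 2 * lam * tau θ := by
          refine (norm_sub_le _ _).trans ?_
          rw [Complex.norm_real, Real.norm_eq_abs, abs_of_pos ha₀pos]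
          have h6 : a₀ ≤ tau θ := by linarith
          nlinarith
        calc ‖(a₀ : ℂ) - seg t b' s‖ ^ 2 ≤ (2 * lam * tau θ) ^ 2 := by gcongr
          _ = _ := by ring
      have hnpos' : 0 < Complex.normSq ((a₀ : ℂ) - seg t b' s) := by
        rw [Complex.normSq_pos]
        intro h0
        have h5 : seg t b' s = (a₀ : ℂ) := (sub_eq_zero.1 h0).symm
        rw [h5] at h1
        rw [Complex.norm_real, Real.norm_eq_abs, abs_of_pos ha₀pos] at h1
        linarith
      calc a₀ * κ₀ / (4 * lam ^ 2 * tau θ) = a₀ * (tau θ * κ₀) / (4 * lam ^ 2 * tau θ ^ 2) := by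
            field_simp
        _ ≤ a₀ * (seg t b' s).im / Complex.normSq ((a₀ : ℂ) - seg t b' s) := by
            apply div_le_div₀ (by positivity) (by gcongr) hnpos' hnsq
    have hgap := hg1 _ (by positivity) hσ
    have hfin : c₀ / K * (D.thm - θ) ≤ Real.log ‖b‖ - Real.log (tau θ) := by
      rw [← hb'n, ← htn]
      refine le_trans ?_ hgap
      have h1 : c₀ / tau θ ≤ ‖Complex.log b' - Complex.log t‖ ^ 2 *
          (a₀ * κ₀ / (4 * lam ^ 2 * tau θ)) / (2 * Real.pi * ((D.n : ℝ) + D.r)) := by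
        have h2 : ((D.n : ℝ) + D.r) = D.n := by rw [hr]; simp
        rw [h2]
        calc c₀ / tau θ = (Real.pi / D.n) ^ 2 * (a₀ * κ₀ / (4 * lam ^ 2 * tau θ)) /
              (2 * Real.pi * D.n) := by rw [hc₀]; field_simp
          _ ≤ _ := by gcongr
      refine le_trans ?_ h1
      have h2 := hKθ θ hθ
      calc c₀ / K * (D.thm - θ) ≤ c₀ / K * (K / tau θ) := by gcongr
        _ = c₀ / tau θ := by field_simp
    calc tau θ * Real.exp (c₀ / K * (D.thm - θ))
        ≤ tau θ * Real.exp (Real.log ‖b‖ - Real.log (tau θ)) := by gcongr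
      _ = ‖b‖ := by
          rw [Real.exp_sub, Real.exp_log hbpos, Real.exp_log hτ0]
          field_simp

end Pool.Agent.KS6_47.Zof
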