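import Pool.Agent.KS6_47.Zof.Basic

/-!
# Module LC1 (helper82 for helper48)
-/

set_option autoImplicit false

namespace Pool.Agent.KS6_47.Zof.ModLC1

open Polynomial Set Filter Topology

theorem S_deriv (D : Dat) (t : ℂ) (h : ∀ j, t ≠ (D.a j : ℂ)) :
    HasDerivAt D.S (∑ j, (D.a j : ℂ) / ((D.a j : ℂ) - t) ^ 2) t := by
  have h1 : HasDerivAt (fun s : ℂ => ∑ j, s / ((D.a j : ℂ) - s))
      (∑ j, (D.a j : ℂ) / ((D.a j : ℂ) - t) ^ 2) t := by
    refine HasDerivAt.fun_sum fun j _ => ?_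
    have h2 : (D.a j : ℂ) - t ≠ 0 := fun h0 => h j (sub_eq_zero.mp h0).symm
    have h3 : HasDerivAt (fun s : ℂ => s / ((D.a j : ℂ) - s))
        ((1 * ((D.a j : ℂ) - t) - t * (0 - 1)) / ((D.a j : ℂ) - t) ^ 2) t :=
      (hasDerivAt_id' t).fun_div ((hasDerivAt_const t (D.a j : ℂ)).fun_sub (hasDerivAt_id' t)) h2
    have h4 : (1 * ((D.a j : ℂ) - t) - t * (0 - 1)) = (D.a j : ℂ) := by ring
    rwa [h4] at h3
  exact h1.const_add _

theorem q_diff (D : Dat) (t : ℂ) : DifferentiableAt ℂ D.q t := by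
  unfold Dat.q
  fun_prop

theorem L_deriv (D : Dat) (t : ℂ) (h : ∀ j, t ≠ (D.a j : ℂ)) (hS : D.S t = 0) :
    aeval t (derivative D.L) = D.q t * ∑ j, (D.a j : ℂ) / ((D.a j : ℂ) - t) ^ 2 := by
  have h1 : HasDerivAt (fun s : ℂ => aeval s D.L) (aeval t (derivative D.L)) t :=
    D.L.hasDerivAt_aeval t
  have h2 := (q_diff D t).hasDerivAt.mul (S_deriv D t h)
  have h3 : (fun s : ℂ => aeval s D.L) =ᶠ[𝓝 t] D.q * D.S := by
    have : ∀ᶠ s in 𝓝 t, ∀ j, s ≠ (D.a j : ℂ) :=
      Filter.eventually_all.2 fun j => eventually_ne_nhds (h j)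
    filter_upwards [this] with s hs
    rw [D.L_eq hs]
    rfl
  have h4 := (h2.congr_of_eventuallyEq h3).unique h1
  rw [← h4, hS, mul_zero, zero_add]

/-- the value of `q` on the negative axis -/
theorem q_neg (D : Dat) (x : ℝ) :
    D.q (-(x : ℂ)) = ((D.c * ∏ j, (1 + x / D.a j) : ℝ) : ℂ) := by
  unfold Dat.q
  push_cast
  congr 1
  refine Finset.prod_congr rfl fun j _ => ?_
  rw [neg_div, sub_neg_eq_add]

theorem q_neg_pos (D : Dat) (x : ℝ) (hx : 0 < x) : 0 < D.c * ∏ j, (1 + x / D.a j) := by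
  refine mul_pos D.hc (Finset.prod_pos fun j _ => ?_)
  have := div_pos hx (D.ha j)
  linarith

theorem S_neg (D : Dat) (x : ℝ) (hx : 0 < x) (hr : D.r = 1) :
    D.S (-(x : ℂ)) = ((1 - ∑ j, x / (D.a j + x) : ℝ) : ℂ) := by
  unfold Dat.S
  rw [hr]
  push_cast
  rw [sub_eq_add_neg, ← Finset.sum_neg_distrib]
  congr 1
  refine Finset.sum_congr rfl fun j _ => ?_
  rw [sub_neg_eq_add, neg_div]

/-- `q(-x)/x` is strictly decreasing before the zero of `S` -/
theorem strict (D : Dat) (x x₀ : ℝ) (hx : 0 < x) (hxx : x < x₀)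
    (hS : ∑ j, x₀ / (D.a j + x₀) = 1) :
    (∏ j, (1 + x₀ / D.a j)) * x < (∏ j, (1 + x / D.a j)) * x₀ := by
  have hx₀ : 0 < x₀ := hx.trans hxx
  have : Nonempty (Fin D.n) := ⟨⟨0, D.hn⟩⟩
  have h1 : ∏ j, (x / x₀) ^ (x₀ / (D.a j + x₀)) < ∏ j, ((D.a j + x) / (D.a j + x₀)) := by
    refine Finset.prod_lt_prod_of_nonempty (fun j _ => by positivity) (fun j _ => ?_)
      Finset.univ_nonempty
    have ha := D.ha j
    have hp0 : 0 < x₀ / (D.a j + x₀) := by positivity
    have hp1 : x₀ / (D.a j + x₀) < 1 := by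
      rw [div_lt_one (by positivity)]
      linarith
    have hs : (-1 : ℝ) ≤ x / x₀ - 1 := by
      have : 0 < x / x₀ := by positivity
      linarith
    have hs' : x / x₀ - 1 ≠ 0 := by
      have : x / x₀ < 1 := by
        rw [div_lt_one hx₀]
        exact hxx
      linarith
    have h2 := rpow_one_add_lt_one_add_mul_self hs hs' hp0 hp1
    rw [add_sub_cancel] at h2
    refine h2.trans_eq ?_
    field_simp
    ring
  have h3 : ∏ j, (x / x₀) ^ (x₀ / (D.a j + x₀)) = x / x₀ := by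
    rw [← Real.rpow_sum_of_pos (by positivity), hS, Real.rpow_one]
  rw [h3, Finset.prod_div_distrib, div_lt_div_iff₀ hx₀
    (Finset.prod_pos fun j _ => add_pos (D.ha j) hx₀)] at h1
  have h4 : ∀ y : ℝ, ∏ j, (1 + y / D.a j) = (∏ j, (D.a j + y)) / ∏ j, D.a j := by
    intro y
    rw [← Finset.prod_div_distrib]
    refine Finset.prod_congr rfl fun j _ => ?_
    rw [add_div, div_self (D.ha j).ne']
  have h5 : 0 < ∏ j, D.a j := Finset.prod_pos fun j _ => D.ha j
  rw [h4, h4, div_mul_eq_mul_div, div_mul_eq_mul_div]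
  apply div_lt_div_of_pos_right _ h5
  linarith

theorem A_neg (D : Dat) (x : ℝ) (hx : 0 < x) (hr : D.r = 1) : D.A (-(x : ℂ)) = Real.pi := by
  unfold Dat.A
  rw [hr, Nat.cast_one, one_mul]
  have h1 : ∀ j, Complex.arg (1 - (starRingEnd ℂ) (-(x : ℂ)) / (D.a j : ℂ)) = 0 := by
    intro j
    have : (1 : ℂ) - (starRingEnd ℂ) (-(x : ℂ)) / (D.a j : ℂ) = ((1 + x / D.a j : ℝ) : ℂ) := by
      rw [map_neg, Complex.conj_ofReal]
      push_cast
      ring
    rw [this, Complex.arg_ofReal_of_nonneg]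
    have := div_pos hx (D.ha j)
    linarith
  simp only [h1]
  rw [Finset.sum_const_zero, zero_add, ← Complex.ofReal_neg,
    Complex.arg_ofReal_of_neg (by linarith)]

end Pool.Agent.KS6_47.Zof.ModLC1

namespace Pool.Agent.KS6_47.Zof

open Polynomial Set Filter Topology ModLC1

theorem mLC1 (_hA : StmARG) (hG : StmGAP) (h1 : StmTYPE1) (hl : StmLIM1) : StmLC1 := by
  intro D R tau hm hcu hR hr
  obtain ⟨x₀, hx₀, hS, hlim⟩ := hl D tau hm hcu hr
  have hthm : D.thm = Real.pi := by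
    unfold Dat.thm
    rw [if_neg (by omega), hr, Nat.cast_one, div_one]
  have hS' : ∑ j, x₀ / (D.a j + x₀) = 1 := by
    rw [S_neg D x₀ hx₀ hr] at hS
    have : (1 - ∑ j, x₀ / (D.a j + x₀) : ℝ) = 0 := by exact_mod_cast hS
    linarith
  set P₀ : ℝ := D.c * ∏ j, (1 + x₀ / D.a j) with hP₀
  have hP₀pos : 0 < P₀ := q_neg_pos D x₀ hx₀
  have hne : ∀ j, (-(x₀ : ℂ)) ≠ (D.a j : ℂ) := by
    intro j h
    have h2 : -x₀ = D.a j := by exact_mod_cast h
    have := D.ha j
    linarith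
  have hnorm : ‖(-(x₀ : ℂ))‖ = x₀ := by
    rw [norm_neg, Complex.norm_real, Real.norm_eq_abs, abs_of_pos hx₀]
  have hz₀ : 0 < P₀ / x₀ := div_pos hP₀pos hx₀
  have hden : ∀ x : ℝ, D.den (P₀ / x₀) (-(x : ℂ)) =
      ((D.c * ∏ j, (1 + x / D.a j) - P₀ / x₀ * x : ℝ) : ℂ) := by
    intro x
    unfold Dat.den
    rw [q_neg, hr, pow_one]
    push_cast
    ring
  have hden0 : D.den (P₀ / x₀) (-(x₀ : ℂ)) = 0 := by
    rw [hden x₀, ← hP₀, div_mul_cancel₀ _ hx₀.ne', sub_self, Complex.ofReal_zero]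
  refine h1 D R tau D.thm (-(x₀ : ℂ)) (P₀ / x₀) hcu hR hz₀ ?_ ?_ ?_ hlim hden0 ?_ ?_
  · exact neg_ne_zero.2 (Complex.ofReal_ne_zero.2 hx₀.ne')
  · simp
  · rw [hnorm, hthm, Complex.exp_pi_mul_I]
    ring
  · -- roots of smaller modulus
    have key : ∀ b : ℂ, 0 ≤ b.im → D.den (P₀ / x₀) b = 0 → ‖b‖ ≤ ‖(-(x₀ : ℂ))‖ →
        b = -(x₀ : ℂ) := by
      intro b hb hb0 hbn
      by_contra hne2
      have hbne : b ≠ 0 := D.ne_zero_of_den hz₀ hb0
      have hgap := hG D (P₀ / x₀) (-(x₀ : ℂ)) b hz₀ (by simp) hb hden0 hb0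
        (A_neg D x₀ hx₀ hr) hne2
      by_cases hc : 0 < b.im ∨ 0 < b.re
      · have := (hgap (by
          rcases hc with hc | hc
          · exact Or.inr (Or.inl hc)
          · right; right
            rw [Complex.neg_re, Complex.ofReal_re]
            nlinarith)).1
        exact absurd hbn (not_le.2 this)
      · push_neg at hc
        have him : b.im = 0 := le_antisymm hc.1 hb
        set x : ℝ := -b.re with hx
        have hbx : b = -(x : ℂ) := by
          apply Complex.ext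
          · rw [Complex.neg_re, Complex.ofReal_re, hx, neg_neg]
          · rw [Complex.neg_im, Complex.ofReal_im, neg_zero, him]
        have hxpos : 0 < x := by
          rcases lt_or_eq_of_le (show 0 ≤ x by rw [hx]; linarith [hc.2]) with h | h
          · exact h
          · exfalso
            apply hbne
            rw [hbx, ← h]
            simp
        have hxle : x ≤ x₀ := by
          rw [hnorm, hbx, norm_neg, Complex.norm_real, Real.norm_eq_abs, abs_of_pos hxpos] at hbn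
          exact hbn
        have hxlt : x < x₀ := by
          rcases lt_or_eq_of_le hxle with h | h
          · exact h
          · exfalso
            apply hne2
            rw [hbx, h]
        have hstr := strict D x x₀ hxpos hxlt hS'
        rw [hbx, hden x] at hb0
        have hb1 : D.c * ∏ j, (1 + x / D.a j) - P₀ / x₀ * x = 0 := by exact_mod_cast hb0
        have hb2 : D.c * (∏ j, (1 + x / D.a j)) * x₀ = P₀ * x := by
          have : D.c * (∏ j, (1 + x / D.a j)) = P₀ / x₀ * x := by linarith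
          rw [this]
          field_simp
        rw [hP₀] at hb2
        have hc0 := D.hc
        nlinarith [mul_lt_mul_of_pos_left hstr hc0]
    intro b hb hbn
    rcases le_total 0 b.im with h | h
    · exact Or.inl (key b h hb hbn)
    · right
      have h2 := key ((starRingEnd ℂ) b) (by rw [Complex.conj_im]; linarith)
        (D.den_conj_eq_zero hb) (by rwa [RCLike.norm_conj])
      rw [← h2, Complex.conj_conj]
  · intro _
    constructor
    · rw [D.L_eq hne, hS, mul_zero]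
    · rw [L_deriv D _ hne hS, q_neg]
      refine mul_ne_zero (Complex.ofReal_ne_zero.2 hP₀pos.ne') ?_
      have h2 : ∑ j, (D.a j : ℂ) / ((D.a j : ℂ) - -(x₀ : ℂ)) ^ 2 =
          ((∑ j, D.a j / (D.a j + x₀) ^ 2 : ℝ) : ℂ) := by
        push_cast
        refine Finset.sum_congr rfl fun j _ => ?_
        rw [sub_neg_eq_add]
      rw [h2, Complex.ofReal_ne_zero]
      have : Nonempty (Fin D.n) := ⟨⟨0, D.hn⟩⟩
      refine (Finset.sum_pos (fun j _ => ?_) Finset.univ_nonempty).ne'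
      have := D.ha j
      positivity

end Pool.Agent.KS6_47.Zof
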