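import Pool.Agent.KS6_47.Zof.C43

/-!
Project ZZ, module LC2 (helper43).
-/

namespace Pool.Agent.KS6_47.Zof.ModLC2

open Polynomial Set Filter Topology
open Pool.Agent.KS6_47.Zof Pool.Agent.KS6_47.Zof.B43 Pool.Agent.KS6_47.Zof.C43

theorem exists_disc (D : Dat) (η : ℝ) (hη : 0 < η) :
    ∃ ρ > 0, ρ < η ∧ (∀ j, ρ ≤ D.a j) ∧ ∀ w : ℂ, ‖w‖ ≤ ρ →
      D.c / 2 ≤ ‖D.q w‖ ∧ ‖D.q w‖ ≤ 2 * D.c ∧ ‖D.S w‖ ≤ (D.r : ℝ) + 1 := by
  have hq0 : D.q 0 = (D.c : ℂ) := q_zero D
  have hc := D.hc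
  have hqn : ‖D.q 0‖ = D.c := by
    rw [hq0, Complex.norm_real, Real.norm_eq_abs, abs_of_pos hc]
  have hqne : D.q 0 ≠ 0 := by
    rw [hq0]; exact_mod_cast hc.ne'
  have h1 : ∀ᶠ w in 𝓝 (0:ℂ), D.c / 2 < ‖D.q w‖ :=
    (q_cont D).norm.continuousAt.eventually_const_lt (by simp only [hqn]; linarith)
  have h2 : ∀ᶠ w in 𝓝 (0:ℂ), ‖D.q w‖ < 2 * D.c :=
    (q_cont D).norm.continuousAt.eventually_lt_const (by simp only [hqn]; linarith)
  have hS0 : ‖D.S 0‖ = D.r := by simp [Dat.S]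
  have h3 : ∀ᶠ w in 𝓝 (0:ℂ), ‖D.S w‖ < (D.r : ℝ) + 1 :=
    (S_contAt D 0 hqne).norm.eventually_lt_const (by simp only [hS0]; linarith)
  obtain ⟨δ, hδ, h4⟩ := Metric.eventually_nhds_iff.1 (h1.and (h2.and h3))
  have h5 : ∀ᶠ ρ in 𝓝[>] (0:ℝ), ∀ j, ρ < D.a j := by
    rw [eventually_all]
    intro j
    exact nhdsWithin_le_nhds (Iio_mem_nhds (D.ha j))
  have h6 : ∀ᶠ ρ in 𝓝[>] (0:ℝ), ρ < η := nhdsWithin_le_nhds (Iio_mem_nhds hη)
  have h7 : ∀ᶠ ρ in 𝓝[>] (0:ℝ), ρ < δ := nhdsWithin_le_nhds (Iio_mem_nhds hδ)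
  have h8 : ∀ᶠ ρ in 𝓝[>] (0:ℝ), 0 < ρ := self_mem_nhdsWithin
  obtain ⟨ρ, ⟨⟨e1, e2⟩, e3⟩, e4⟩ := (((h5.and h6).and h7).and h8).exists
  refine ⟨ρ, e4, e2, fun j => (e1 j).le, fun w hw => ?_⟩
  obtain ⟨f1, f2, f3⟩ := h4 (show dist w 0 < δ by rw [dist_zero_right]; linarith)
  exact ⟨f1.le, f2.le, f3.le⟩

theorem pow_cmp (x y : ℝ) (hx : 0 ≤ x) (hy : 0 ≤ y) (r : ℕ) (hr : r ≠ 0)
    (h : x ^ r ≤ 4 * y ^ r) : x ≤ 4 * y := by
  rw [← pow_le_pow_iff_left₀ hx (by positivity) hr, mul_pow]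
  have h4 : (4:ℝ) ≤ 4 ^ r := by
    calc (4:ℝ) = 4 ^ 1 := by norm_num
      _ ≤ 4 ^ r := pow_le_pow_right₀ (by norm_num) (Nat.one_le_iff_ne_zero.2 hr)
  have : 4 * y ^ r ≤ 4 ^ r * y ^ r := by gcongr
  linarith

end Pool.Agent.KS6_47.Zof.ModLC2

namespace Pool.Agent.KS6_47.Zof

open Polynomial Set Filter Topology
open Pool.Agent.KS6_47.Zof.B43 Pool.Agent.KS6_47.Zof.C43 Pool.Agent.KS6_47.Zof.ModLC2

set_option linter.unusedVariables false in
theorem mLC2 (hA : StmARG) (hGL : StmGAPLB) (hz : StmZINJ) (hl : StmLIM2) : StmLC2 := by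
  intro D R tau hcur hR hr
  obtain ⟨htau, K, hK, hlow⟩ := hl D tau hcur hr
  obtain ⟨-, -, hzz⟩ := hz D tau hcur
  obtain ⟨η, hη, B, hB, k, m, hm, hF⟩ := F_ratio D R hR 0 4 (by norm_num)
  obtain ⟨ρ, hρ, hρη, hρa, hdisc⟩ := exists_disc D η hη
  have hr0 : D.r ≠ 0 := by omega
  have hrR : (2:ℝ) ≤ D.r := by exact_mod_cast hr
  have hc := D.hc
  have hthm : D.thm = Real.pi / D.r := by simp [Dat.thm, hr0]
  have hpi := Real.pi_pos
  have hthm0 : 0 < D.thm := by rw [hthm]; positivity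
  have hthm2 : D.thm ≤ Real.pi / 2 := by
    rw [hthm]; exact div_le_div_of_nonneg_left hpi.le (by norm_num) hrR
  have hn : 0 < D.n := D.hn
  have hnR : (1:ℝ) ≤ D.n := by exact_mod_cast D.hn
  set j₀ : Fin D.n := ⟨0, hn⟩
  set a := D.a j₀ with ha_def
  have ha : 0 < a := D.ha j₀
  -- thresholds
  set τ₀ : ℝ := min (ρ / 8) (min 1 (D.c * ρ ^ D.r / (2 * (2 * D.c + 1)))) with hτ₀
  have hτ₀pos : 0 < τ₀ := by
    refine lt_min (by positivity) (lt_min one_pos (by positivity))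
  have hmono : 𝓝[Ioo 0 D.thm \ {D.thm}] D.thm ≤ 𝓝[<] D.thm :=
    nhdsWithin_mono _ (fun x hx => hx.1.2)
  have hev1 : ∀ᶠ θ in 𝓝[Ioo 0 D.thm \ {D.thm}] D.thm, tau θ < τ₀ :=
    hmono (htau.eventually_lt_const hτ₀pos)
  have hev2 : ∀ᶠ θ in 𝓝[Ioo 0 D.thm \ {D.thm}] D.thm, D.thm / 2 < θ :=
    nhdsWithin_le_nhds (Ioi_mem_nhds (by linarith))
  obtain ⟨ε, hε, hall⟩ := eps_of_eventually (Ioo 0 D.thm) D.thm _ (hev1.and hev2)
  -- constants
  set u : ℝ := D.thm / 4 with hu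
  have hu0 : 0 < u := by positivity
  have hsu : 0 < Real.sin u := Real.sin_pos_of_pos_of_lt_pi hu0 (by linarith)
  set g : ℝ := (2 * Real.pi / ((D.r : ℝ) + 1)) ^ 2 * (Real.sin u / (16 * a)) /
    (2 * Real.pi * ((D.n : ℝ) + D.r)) with hg
  have hg0 : 0 < g := by positivity
  set c₁ : ℝ := min (g / K) (m / K ^ k) with hc₁
  have hc₁0 : 0 < c₁ := lt_min (by positivity) (by positivity)
  refine ⟨ε, hε, ρ, hρ, 1/2, by norm_num, by norm_num, max B 1, by positivity, c₁, hc₁0, k,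
    fun θ hθ h0 h1 => ?_⟩
  obtain ⟨hτ, hθ2⟩ := hall θ hθ h0 h1
  obtain ⟨hzpos, hroot, himp, -⟩ := hzz θ hθ
  have htau0 : 0 < tau θ := (hcur.2 θ hθ).1
  have hAt : D.A (pt tau θ) = Real.pi := (hcur.2 θ hθ).2
  have hnt : ‖pt tau θ‖ = tau θ := norm_pt tau θ htau0.le
  have hargt : Complex.arg (pt tau θ) = θ := arg_pt D tau hcur θ hθ
  have habs : |θ - D.thm| = D.thm - θ := by
    rw [abs_sub_comm, abs_of_pos (by linarith [hθ.2])]
  have hKt : |θ - D.thm| ≤ K * tau θ := by rw [habs]; exact hlow θ hθ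
  have hτ1 : tau θ < ρ / 8 := hτ.trans_le (min_le_left _ _)
  have hτ2 : tau θ < 1 := hτ.trans_le ((min_le_right _ _).trans (min_le_left _ _))
  have hτ3 : tau θ < D.c * ρ ^ D.r / (2 * (2 * D.c + 1)) :=
    hτ.trans_le ((min_le_right _ _).trans (min_le_right _ _))
  set t := pt tau θ with ht_def
  set z := D.zz tau θ with hz_def
  have htne : t ≠ 0 := root_ne_zero D z t hzpos hroot
  obtain ⟨ht1, ht2, ht3⟩ := hdisc t (by rw [hnt]; linarith)
  have hqt : ‖D.q t‖ = z * tau θ ^ D.r := by rw [norm_q_root D z t hzpos hroot, hnt]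
  refine ⟨by linarith, ?_, ?_, ?_⟩
  · intro w hw
    obtain ⟨hw1, hw2, hw3⟩ := hdisc w hw.le
    have hden : z * ρ ^ D.r - 2 * D.c ≤ ‖D.den z w‖ := by
      have e1 : ‖(z:ℂ) * w ^ D.r‖ = z * ρ ^ D.r := by
        rw [norm_mul, norm_pow, hw, Complex.norm_real, Real.norm_eq_abs, abs_of_pos hzpos]
      have e2 : ‖(z:ℂ) * w ^ D.r‖ ≤ ‖D.den z w‖ + ‖D.q w‖ := by
        have : (z:ℂ) * w ^ D.r = D.den z w - D.q w := by unfold Dat.den; ring
        rw [this]; exact norm_sub_le _ _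
      rw [e1] at e2
      linarith
    have h2 : 1 ≤ z * ρ ^ D.r - 2 * D.c := by
      have e3 : tau θ ^ D.r ≤ tau θ := pow_le_of_le_one htau0.le hτ2.le hr0
      have e4 : D.c / 2 ≤ z * tau θ ^ D.r := by rw [← hqt]; exact ht1
      have e5 : tau θ * (2 * (2 * D.c + 1)) < D.c * ρ ^ D.r := by
        rwa [lt_div_iff₀ (by positivity)] at hτ3
      have e6 : D.c / 2 ≤ z * tau θ := e4.trans (by gcongr)
      have e7 : 0 < ρ ^ D.r := by positivity
      have e8 : z * (tau θ * (2 * (2 * D.c + 1))) ≤ z * (D.c * ρ ^ D.r) := by gcongr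
      have e9 : D.c / 2 * (2 * (2 * D.c + 1)) ≤ z * (D.c * ρ ^ D.r) := by
        refine le_trans ?_ e8
        have := mul_le_mul_of_nonneg_right e6 (show (0:ℝ) ≤ 2 * (2 * D.c + 1) by positivity)
        linarith
      have e10 : D.c * (2 * D.c + 1) ≤ D.c * (z * ρ ^ D.r) := by linarith
      have := le_of_mul_le_mul_left e10 hc
      linarith
    have h3 : (max B 1)⁻¹ ≤ 1 := inv_le_one_of_one_le₀ (le_max_right _ _)
    linarith
  · intro b hb hbρ
    have hbne : b ≠ 0 := root_ne_zero D z b hzpos hb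
    obtain ⟨hb1, hb2, hb3⟩ := hdisc b hbρ
    have hqb : ‖D.q b‖ = z * ‖b‖ ^ D.r := norm_q_root D z b hzpos hb
    have hbt : ‖b‖ ≤ 4 * tau θ := by
      refine pow_cmp _ _ (norm_nonneg _) htau0.le D.r hr0 ?_
      have : z * ‖b‖ ^ D.r ≤ z * (4 * tau θ ^ D.r) := by
        rw [← hqb]
        linarith
      exact le_of_mul_le_mul_left this hzpos
    have htb : tau θ ≤ 4 * ‖b‖ := by
      refine pow_cmp _ _ htau0.le (norm_nonneg _) D.r hr0 ?_
      have : z * tau θ ^ D.r ≤ z * (4 * ‖b‖ ^ D.r) := by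
        rw [← hqt]
        linarith
      exact le_of_mul_le_mul_left this hzpos
    have hb0 : 0 < ‖b‖ := norm_pos_iff.2 hbne
    obtain ⟨hLb, hFb, -⟩ := hF b t (by simpa using hbne) (by simp only [sub_zero]; linarith)
      (by simpa using htne) (by simp only [sub_zero, hnt]; linarith)
      (by simp only [sub_zero, hnt]; exact hbt) (by simp only [sub_zero, hnt]; exact htb)
    refine ⟨by linarith, hLb, ?_⟩
    by_cases hbt' : b = t
    · exact Or.inl hbt'
    by_cases hbt'' : b = (starRingEnd ℂ) t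
    · exact Or.inr (Or.inl hbt'')
    refine Or.inr (Or.inr ⟨?_, ?_⟩)
    · refine hFb.trans ?_
      gcongr
      exact le_max_left _ _
    · obtain ⟨b', hb'im, hb'den, hb't, hb'n, -⟩ := exists_upper D z t b hb hbt' hbt''
      have hb'ne : b' ≠ 0 := root_ne_zero D z b' hzpos hb'den
      have hseg : ∀ s ∈ Icc (0:ℝ) 1, ‖seg t b' s‖ ≤ ρ :=
        fun s hs => norm_seg_le t b' htne hb'ne ρ (by rw [hnt]; linarith) (by rw [hb'n]; exact hbρ)
          s hs
      obtain ⟨-, hg2⟩ := hGL D z t b' hzpos himp.le hb'im hroot hb'den hAt hb't (Or.inl himp)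
      have h6 := hg2 ((D.r : ℝ) + 1) (fun s hs => (hdisc _ (hseg s hs)).2.2)
      have h5 : ∀ s ∈ Icc (0:ℝ) (1/2), tau θ * (Real.sin u / (16 * a)) ≤
          (D.S (seg t b' s)).im := by
        intro s hs
        have hs' : s ∈ Icc (0:ℝ) 1 := ⟨hs.1, by linarith [hs.2]⟩
        have e1 := seg_im_nonneg t b' himp.le hb'im s hs'
        have e2 := S_im_ge D _ e1 j₀
        refine le_trans ?_ e2
        have e3 := seg_im_lb t b' hb'im u hu0.le (by rw [hargt]; linarith)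
          (by rw [hargt]; linarith [hθ.2]) s hs
        have e4 : tau θ / 4 ≤ ‖seg t b' s‖ :=
          le_norm_seg t b' _ (by positivity) (by rw [hnt]; linarith) (by rw [hb'n]; linarith)
            s hs'
        have e5 : tau θ / 4 * Real.sin u ≤ (seg t b' s).im :=
          le_trans (by gcongr) e3
        have e6 : 0 < (seg t b' s).im := lt_of_lt_of_le (by positivity) e5
        have e7 : 0 < Complex.normSq ((D.a j₀ : ℂ) - seg t b' s) := by
          refine Complex.normSq_pos.2 ?_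
          intro h0
          have := congrArg Complex.im h0
          simp only [Complex.sub_im, Complex.ofReal_im, Complex.zero_im, zero_sub,
            neg_eq_zero] at this
          exact e6.ne' this
        have e8 : Complex.normSq ((D.a j₀ : ℂ) - seg t b' s) ≤ (2 * a) ^ 2 := by
          rw [Complex.normSq_eq_norm_sq]
          refine pow_le_pow_left₀ (norm_nonneg _) ?_ 2
          refine (norm_sub_le _ _).trans ?_
          rw [Complex.norm_real, Real.norm_eq_abs, abs_of_pos (D.ha j₀)]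
          have := hseg s hs'
          have := hρa j₀
          linarith
        rw [← ha_def, le_div_iff₀ e7]
        calc tau θ * (Real.sin u / (16 * a)) * Complex.normSq ((D.a j₀ : ℂ) - seg t b' s)
            ≤ tau θ * (Real.sin u / (16 * a)) * (2 * a) ^ 2 := by gcongr
          _ = a * (tau θ / 4 * Real.sin u) := by field_simp; norm_num
          _ ≤ a * (seg t b' s).im := by gcongr
      have h7 := gap_exp D hGL z t b' hzpos himp hb'im hroot hb'den hAt hb't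
        (tau θ * (Real.sin u / (16 * a))) (by positivity) ((D.r : ℝ) + 1) (by positivity) h5 h6
      rw [hb'n, hnt] at h7
      refine le_of_log (tau θ) ‖b‖ _ htau0 hb0 (le_trans ?_ h7)
      calc c₁ * |θ - D.thm| ≤ g / K * (K * tau θ) := by
            gcongr
            exact min_le_left _ _
        _ = g * tau θ := by field_simp
        _ = _ := by rw [hg]; ring
  · obtain ⟨-, -, hFt⟩ := hF t t (by simpa using htne) (by simp only [sub_zero, hnt]; linarith)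
      (by simpa using htne) (by simp only [sub_zero, hnt]; linarith)
      (by simp only [sub_zero, hnt]; linarith) (by simp only [sub_zero, hnt]; linarith)
    rw [sub_zero, hnt] at hFt
    refine le_trans ?_ hFt
    calc c₁ * |θ - D.thm| ^ k ≤ m / K ^ k * (K * tau θ) ^ k := by
          gcongr
          exact min_le_right _ _
      _ = m * tau θ ^ k := by rw [mul_pow]; field_simp

end Pool.Agent.KS6_47.Zof
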