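import Pool.Agent.KS6_47.Zof.Basic

namespace Pool.Agent.KS6_47.Zof

open Polynomial Set Filter Topology

theorem mLCA (hz : StmZINJ) (h1 : StmTYPE1) : StmLCA := by
  intro D R tau htau hR θ₀ hθ₀
  obtain ⟨_, _, hall⟩ := hz D tau htau
  obtain ⟨hz0, hd, him, hdom⟩ := hall θ₀ hθ₀
  have hpos := htau.pos hθ₀
  refine h1 D R tau θ₀ (pt tau θ₀) (D.zz tau θ₀) htau hR hz0 (pt_ne_zero hpos) him.le ?_ ?_ hd
    ?_ ?_
  · rw [norm_pt hpos]
    rfl
  · exact ((htau.continuousOn_pt.continuousAt (Ioo_mem_nhds hθ₀.1 hθ₀.2)).tendsto).mono_left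
      nhdsWithin_le_nhds
  · intro b hb hle
    rcases hdom b hb with h | h | h
    · exact Or.inl h
    · exact Or.inr h
    · rw [norm_pt hpos] at hle
      exact absurd hle (not_le.2 h)
  · intro h
    exact absurd h him.ne'

end Pool.Agent.KS6_47.Zof
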