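import Pool.Agent.KS6_47.Zof.LIMB

/-!
# Module LCB: `θ₀ = 0`, the smallest zero of `Q` is simple
-/

namespace Pool.Agent.KS6_47.Zof

open Polynomial Set Filter Topology

namespace ModLCB

open ModLIMB

variable {D : Dat} {j₀ : Fin D.n} {x : ℝ}

/-- `Q` on the real line -/
noncomputable def qR (D : Dat) (x : ℝ) : ℝ := D.c * ∏ j, (1 - x / D.a j)

theorem q_ofReal (D : Dat) (x : ℝ) : D.q (x : ℂ) = ((qR D x : ℝ) : ℂ) := by
  unfold Dat.q qR
  push_cast
  rfl

theorem eval_Q (D : Dat) (x : ℝ) : D.Q.eval x = qR D x := by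
  have h := D.aeval_Q (x : ℂ)
  rw [q_ofReal] at h
  have h2 : aeval (x : ℂ) D.Q = ((D.Q.eval x : ℝ) : ℂ) := by
    have := aeval_algebraMap_apply ℂ x D.Q
    simpa using this
  rw [h2] at h
  exact_mod_cast h

theorem qR_neg (hx : InI D j₀ x) : qR D x < 0 := by
  unfold qR
  rw [← Finset.mul_prod_erase _ _ (Finset.mem_univ j₀)]
  have h1 : 1 - x / D.a j₀ < 0 := by
    have : 1 < x / D.a j₀ := by rw [one_lt_div (D.ha j₀)]; exact hx.1
    linarith
  have h2 : 0 < ∏ j ∈ (Finset.univ : Finset (Fin D.n)).erase j₀, (1 - x / D.a j) := by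
    refine Finset.prod_pos fun j hj => ?_
    have : x / D.a j < 1 := by rw [div_lt_one (D.ha j)]; exact hx.2 j (Finset.mem_erase.1 hj).1
    linarith
  exact mul_neg_of_pos_of_neg D.hc (mul_neg_of_neg_of_pos h1 h2)

/-- the derivative of `S` -/
theorem sR_deriv (hx : InI D j₀ x) :
    HasDerivAt (sR D) (∑ j, D.a j / (D.a j - x) ^ 2) x := by
  unfold sR
  have hj : ∀ j ∈ (Finset.univ : Finset (Fin D.n)),
      HasDerivAt (fun x : ℝ => x / (D.a j - x)) (D.a j / (D.a j - x) ^ 2) x := by
    intro j _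
    have h1 := (hasDerivAt_id x).div ((hasDerivAt_id x).const_sub (D.a j)) (hx.ne j)
    convert! h1 using 1
    simp only [id]
    congr 1
    ring
  exact (HasDerivAt.fun_sum hj).const_add _

theorem sR_deriv_pos (hx : InI D j₀ x) : 0 < ∑ j, D.a j / (D.a j - x) ^ 2 := by
  refine Finset.sum_pos (fun j _ => ?_) ⟨j₀, Finset.mem_univ _⟩
  exact div_pos (D.ha j) (by have := hx.ne j; positivity)

/-- `L` on the real line -/
theorem eval_L (hx : InI D j₀ x) : D.L.eval x = qR D x * sR D x := by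
  have h := D.L_eq (t := (x : ℂ)) (fun j h => hx.ne j (by
    have : x = D.a j := by exact_mod_cast h
    rw [this, sub_self]))
  rw [q_ofReal, S_ofReal] at h
  have h2 : aeval (x : ℂ) D.L = ((D.L.eval x : ℝ) : ℂ) := by
    have := aeval_algebraMap_apply ℂ x D.L
    simpa using this
  rw [h2] at h
  exact_mod_cast h

theorem isOpen_InI (D : Dat) (j₀ : Fin D.n) : IsOpen {x | InI D j₀ x} := by
  have : {x | InI D j₀ x} = Ioi (D.a j₀) ∩ ⋂ j : Fin D.n, {x | j ≠ j₀ → x < D.a j} := by
    ext x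
    simp [InI]
  rw [this]
  refine isOpen_Ioi.inter (isOpen_iInter_of_finite fun j => ?_)
  by_cases h : j = j₀
  · simp [h]
  · simp only [ne_eq, h, not_false_eq_true, forall_const]
    exact isOpen_Iio

theorem deriv_L (hx : InI D j₀ x) (h0 : sR D x = 0) :
    (derivative D.L).eval x = qR D x * ∑ j, D.a j / (D.a j - x) ^ 2 := by
  have h1 : HasDerivAt (fun y => D.L.eval y) ((derivative D.L).eval x) x := D.L.hasDerivAt x
  have hq : HasDerivAt (qR D) ((derivative D.Q).eval x) x := by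
    have := D.Q.hasDerivAt x
    refine this.congr_of_eventuallyEq (Eventually.of_forall fun y => ?_)
    exact (eval_Q D y).symm
  have h2 := hq.mul (sR_deriv hx)
  rw [h0, mul_zero, zero_add] at h2
  have h3 : HasDerivAt (fun y => D.L.eval y) (qR D x * ∑ j, D.a j / (D.a j - x) ^ 2) x := by
    refine h2.congr_of_eventuallyEq ?_
    filter_upwards [(isOpen_InI D j₀).mem_nhds hx] with y hy
    exact eval_L hy
  exact h1.unique h3

/-- uniqueness of the positive root of smallest modulus -/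
theorem unique_root {x₀ b : ℝ} (hI : InI D j₀ x₀) (h0 : sR D x₀ = 0) (hb : D.a j₀ < b)
    (hbx : b < x₀) (h : qR D b / b ^ D.r = qR D x₀ / x₀ ^ D.r) : False := by
  have hbI : InI D j₀ b := ⟨hb, fun j hj => hbx.trans (hI.2 j hj)⟩
  have hd : ∀ y ∈ Icc b x₀, HasDerivAt (fun y => D.Q.eval y / y ^ D.r)
      (((derivative D.Q).eval y * y ^ D.r - D.Q.eval y * ((D.r : ℝ) * y ^ (D.r - 1))) /
        (y ^ D.r) ^ 2) y := by
    intro y hy
    have hy0 : y ≠ 0 := (hbI.pos.trans_le hy.1).ne'
    exact (D.Q.hasDerivAt y).div (hasDerivAt_pow D.r y) (pow_ne_zero _ hy0)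
  obtain ⟨ξ, hξ, hξ0⟩ := exists_hasDerivAt_eq_zero hbx
    (fun y hy => (hd y hy).continuousAt.continuousWithinAt)
    (by
      show D.Q.eval b / b ^ D.r = D.Q.eval x₀ / x₀ ^ D.r
      rw [eval_Q, eval_Q, h])
    (fun y hy => hd y ⟨hy.1.le, hy.2.le⟩)
  have hξI : InI D j₀ ξ := hbI.mid hI hξ.1.le hξ.2.le
  have hξp := hξI.pos
  have h1 : D.L.eval ξ = 0 := by
    rw [div_eq_zero_iff] at hξ0
    rcases hξ0 with h2 | h2
    · unfold Dat.L
      rw [eval_sub, eval_mul, eval_C, eval_mul, eval_X]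
      rcases Nat.eq_zero_or_pos D.r with hr | hr
      · rw [hr] at h2 ⊢
        simp only [pow_zero, mul_one, Nat.cast_zero, zero_mul, mul_zero, sub_zero] at h2
        rw [h2]; simp
      · obtain ⟨k, hk⟩ := Nat.exists_eq_succ_of_ne_zero hr.ne'
        rw [hk, Nat.succ_sub_one, pow_succ] at h2
        have h3 : ξ ^ k * ((derivative D.Q).eval ξ * ξ - D.Q.eval ξ * ((k.succ : ℕ) : ℝ)) = 0 := by
          linear_combination h2
        have h4 := (mul_eq_zero.1 h3).resolve_left (pow_ne_zero _ hξp.ne')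
        rw [hk]
        linear_combination -h4
    · exact absurd h2 (pow_ne_zero _ (pow_ne_zero _ hξp.ne'))
  rw [eval_L hξI] at h1
  have h2 := qR_neg hξI
  have h3 : sR D ξ < 0 := by rw [← h0]; exact sR_lt hξI hI hξ.2
  have := mul_pos_of_neg_of_neg h2 h3
  linarith

end ModLCB

open ModLCB ModLIMB in
theorem mLCB (_hA : StmARG) (hG : StmGAP) (h1 : StmTYPE1) (hl : StmLIMB) : StmLCB := by
  intro D R tau hMain hcur hR hmin
  obtain ⟨j₀, hmin⟩ := hmin
  obtain ⟨x₀, hx1, hx2, hS, hlim⟩ := hl D tau j₀ hMain hcur hmin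
  have hI : InI D j₀ x₀ := ⟨hx1, hx2⟩
  have h0 : sR D x₀ = 0 := by
    rw [S_ofReal] at hS
    exact_mod_cast hS
  have hpos := hI.pos
  have hq := qR_neg hI
  set z₀ : ℝ := -qR D x₀ / x₀ ^ D.r with hz₀
  have hz : 0 < z₀ := div_pos (by linarith) (by positivity)
  have hden : D.den z₀ (x₀ : ℂ) = 0 := by
    unfold Dat.den
    rw [q_ofReal, ← Complex.ofReal_pow, ← Complex.ofReal_mul, ← Complex.ofReal_add]
    have : qR D x₀ + z₀ * x₀ ^ D.r = 0 := by
      rw [hz₀]
      field_simp
      ring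
    rw [this, Complex.ofReal_zero]
  have hAx : D.A (x₀ : ℂ) = Real.pi := by
    unfold Dat.A
    rw [Complex.conj_ofReal, Complex.arg_ofReal_of_nonneg hpos.le, mul_zero, add_zero]
    rw [← Finset.add_sum_erase _ _ (Finset.mem_univ j₀)]
    have e1 : Complex.arg (1 - (x₀ : ℂ) / (D.a j₀ : ℂ)) = Real.pi := by
      have : (1 - (x₀ : ℂ) / (D.a j₀ : ℂ)) = ((1 - x₀ / D.a j₀ : ℝ) : ℂ) := by push_cast; rfl
      rw [this]
      refine Complex.arg_ofReal_of_neg ?_
      have : 1 < x₀ / D.a j₀ := by rw [one_lt_div (D.ha j₀)]; exact hx1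
      linarith
    have e2 : ∑ j ∈ (Finset.univ : Finset (Fin D.n)).erase j₀,
        Complex.arg (1 - (x₀ : ℂ) / (D.a j : ℂ)) = 0 := by
      refine Finset.sum_eq_zero fun j hj => ?_
      have : (1 - (x₀ : ℂ) / (D.a j : ℂ)) = ((1 - x₀ / D.a j : ℝ) : ℂ) := by push_cast; rfl
      rw [this]
      refine Complex.arg_ofReal_of_nonneg ?_
      have : x₀ / D.a j < 1 := by
        rw [div_lt_one (D.ha j)]; exact hx2 j (Finset.mem_erase.1 hj).1
      linarith
    rw [e1, e2, add_zero]
  have hx0c : (x₀ : ℂ) ≠ 0 := by exact_mod_cast hpos.ne'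
  have hnorm : ‖(x₀ : ℂ)‖ = x₀ := by rw [Complex.norm_real, Real.norm_of_nonneg hpos.le]
  -- the roots in the upper half plane
  have key : ∀ b : ℂ, 0 ≤ b.im → D.den z₀ b = 0 → ‖b‖ ≤ ‖(x₀ : ℂ)‖ → b = (x₀ : ℂ) := by
    intro b hbim hb hbn
    by_contra hne
    by_cases hcase : 0 < b.im ∨ (x₀ : ℂ).re * b.re < 0
    · have hg := hG D z₀ (x₀ : ℂ) b hz (by simp) hbim hden hb hAx hne (Or.inr hcase)
      exact absurd hg.1 (not_lt.2 hbn)
    · push Not at hcase
      have him : b.im = 0 := le_antisymm hcase.1 hbim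
      have hre : 0 ≤ b.re := by
        have h3 := hcase.2
        rw [Complex.ofReal_re] at h3
        exact nonneg_of_mul_nonneg_right h3 hpos
      have hbr : b = ((b.re : ℝ) : ℂ) := by
        apply Complex.ext
        · simp
        · simp [him]
      have hb0 : b ≠ 0 := D.ne_zero_of_den hz hb
      have hrp : 0 < b.re := by
        refine lt_of_le_of_ne hre fun h => hb0 ?_
        rw [hbr, ← h, Complex.ofReal_zero]
      have hble : b.re ≤ x₀ := by
        rw [hnorm, hbr, Complex.norm_real, Real.norm_of_nonneg hre] at hbn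
        exact hbn
      have hblt : b.re < x₀ := by
        refine lt_of_le_of_ne hble fun h => hne ?_
        rw [hbr, h]
      have hqb : qR D b.re = -(z₀ * b.re ^ D.r) := by
        have h3 := D.q_of_den hb
        rw [hbr, q_ofReal] at h3
        have h4 : ((qR D b.re : ℝ) : ℂ) = ((-(z₀ * b.re ^ D.r) : ℝ) : ℂ) := by
          rw [h3]; push_cast; simp
        exact_mod_cast h4
      have hqneg : qR D b.re < 0 := by
        rw [hqb]
        have : 0 < z₀ * b.re ^ D.r := by positivity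
        linarith
      have hab : D.a j₀ < b.re := by
        by_contra hcon
        push Not at hcon
        have h5 : 0 ≤ qR D b.re := by
          unfold qR
          refine mul_nonneg D.hc.le (Finset.prod_nonneg fun j _ => ?_)
          have h6 : b.re ≤ D.a j := by
            rcases eq_or_ne j j₀ with h | h
            · rw [h]; exact hcon
            · exact hcon.trans (hmin j h).le
          have : b.re / D.a j ≤ 1 := by rw [div_le_one (D.ha j)]; exact h6
          linarith
        linarith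
      refine unique_root hI h0 hab hblt ?_
      rw [hqb, hz₀]
      field_simp
  refine h1 D R tau 0 (x₀ : ℂ) z₀ hcur hR hz hx0c (by simp) ?_ hlim hden ?_ ?_
  · rw [hnorm]; simp
  · intro b hb hbn
    rcases le_total 0 b.im with h | h
    · exact Or.inl (key b h hb hbn)
    · right
      have h3 := key ((starRingEnd ℂ) b) (by simpa using h) (D.den_conj_eq_zero hb)
        (by rw [RCLike.norm_conj]; exact hbn)
      rw [← h3, Complex.conj_conj]
  · intro _
    have hL0 : aeval (x₀ : ℂ) D.L = ((D.L.eval x₀ : ℝ) : ℂ) := by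
      have := aeval_algebraMap_apply ℂ x₀ D.L
      simpa using this
    have hL1 : aeval (x₀ : ℂ) (derivative D.L) = (((derivative D.L).eval x₀ : ℝ) : ℂ) := by
      have := aeval_algebraMap_apply ℂ x₀ (derivative D.L)
      simpa using this
    constructor
    · rw [hL0, eval_L hI, h0, mul_zero, Complex.ofReal_zero]
    · rw [hL1, deriv_L hI h0]
      have := sR_deriv_pos hI
      have h3 : qR D x₀ * ∑ j, D.a j / (D.a j - x₀) ^ 2 < 0 := mul_neg_of_neg_of_pos hq this
      exact_mod_cast h3.ne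

end Pool.Agent.KS6_47.Zof
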