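import Pool.Agent.KS6_47.Zof.C43

/-!
Project ZZ, module LCM (helper43).
-/

namespace Pool.Agent.KS6_47.Zof.ModLCM

open Polynomial Set Filter Topology
open Pool.Agent.KS6_47.Zof Pool.Agent.KS6_47.Zof.B43 Pool.Agent.KS6_47.Zof.C43

theorem pow_cmp (x y K : ℝ) (hx : 0 ≤ x) (hy : 0 ≤ y) (hK : 1 ≤ K) (r : ℕ) (hr : r ≠ 0)
    (h : x ^ r ≤ K * y ^ r) : x ≤ K * y := by
  rw [← pow_le_pow_iff_left₀ hx (by positivity) hr, mul_pow]
  have h4 : K ≤ K ^ r := by
    calc K = K ^ 1 := by ring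
      _ ≤ K ^ r := pow_le_pow_right₀ hK (Nat.one_le_iff_ne_zero.2 hr)
  have : K * y ^ r ≤ K ^ r * y ^ r := by gcongr
  linarith

theorem exists_disc (D : Dat) (α : ℝ) (hα : 0 < α) (hmin : ∀ j, α ≤ D.a j) :
    ∃ ρ γ, α < ρ ∧ ρ < 2 * α ∧ 0 < γ ∧ ∀ j, D.a j ≠ α → ρ + γ ≤ D.a j := by
  have h1 : ∀ᶠ ρ in 𝓝[>] α, ∀ j, D.a j ≠ α → ρ < D.a j := by
    rw [eventually_all]
    intro j
    by_cases h : D.a j = α
    · exact Eventually.of_forall fun ρ h' => absurd h h'
    · have h2 : α < D.a j := lt_of_le_of_ne (hmin j) (Ne.symm h)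
      filter_upwards [nhdsWithin_le_nhds (Iio_mem_nhds h2)] with ρ hρ _ using hρ
  have h2 : ∀ᶠ ρ in 𝓝[>] α, ρ < 2 * α := nhdsWithin_le_nhds (Iio_mem_nhds (by linarith))
  have h3 : ∀ᶠ ρ in 𝓝[>] α, α < ρ := self_mem_nhdsWithin
  obtain ⟨ρ, ⟨e1, e2⟩, e3⟩ := ((h1.and h2).and h3).exists
  refine ⟨(α + ρ) / 2, (ρ - α) / 2, by linarith, by linarith, by linarith, fun j hj => ?_⟩
  have := e1 j hj
  linarith

theorem exists_away (D : Dat) (α ρ η : ℝ) (hη : 0 < η)
    (h : ∀ j, D.a j ≠ α → ρ < D.a j) :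
    ∃ c > 0, ∀ w : ℂ, ‖w‖ ≤ ρ → η ≤ ‖w - (α : ℂ)‖ → 2 * c ≤ ‖D.q w‖ := by
  set K : Set ℂ := Metric.closedBall (0:ℂ) ρ ∩ {w | η ≤ ‖w - (α : ℂ)‖} with hK
  have hKc : IsCompact K := (isCompact_closedBall _ _).inter_right
    (isClosed_le continuous_const (by fun_prop))
  rcases K.eq_empty_or_nonempty with h0 | h0
  · refine ⟨1, one_pos, fun w hw1 hw2 => ?_⟩
    have : w ∈ K := ⟨by simpa using hw1, hw2⟩
    rw [h0] at this
    exact this.elim
  · obtain ⟨w₀, hw₀, hmin⟩ := hKc.exists_isMinOn h0 ((q_cont D).norm.continuousOn)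
    have hpos : 0 < ‖D.q w₀‖ := by
      refine norm_pos_iff.2 fun hq => ?_
      obtain ⟨j, hj⟩ := (q_eq_zero_iff D w₀).1 hq
      have h1 : ‖w₀‖ ≤ ρ := by simpa using hw₀.1
      have h2 : η ≤ ‖w₀ - (α : ℂ)‖ := hw₀.2
      have h3 : ‖w₀‖ = D.a j := by
        rw [hj, Complex.norm_real, Real.norm_eq_abs, abs_of_pos (D.ha j)]
      by_cases h4 : D.a j = α
      · rw [hj, h4, sub_self, norm_zero] at h2
        linarith
      · have := h j h4
        linarith
    refine ⟨‖D.q w₀‖ / 2, by positivity, fun w hw1 hw2 => ?_⟩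
    have h3 : ‖D.q w₀‖ ≤ ‖D.q w‖ := hmin (show w ∈ K from ⟨by simpa using hw1, hw2⟩)
    linarith

theorem log_local (α : ℝ) (hα : 0 < α) :
    ∃ C₁ > 0, ∀ᶠ w in 𝓝 (α : ℂ), ‖Complex.log w - Complex.log (α : ℂ)‖ ≤ C₁ * ‖w - (α : ℂ)‖ := by
  have h1 : (α : ℂ) ∈ Complex.slitPlane := Complex.ofReal_mem_slitPlane.2 hα
  have h2 := (Complex.hasStrictDerivAt_log h1).hasDerivAt.isBigO_sub
  obtain ⟨C, hC, hC'⟩ := h2.exists_pos
  exact ⟨C, hC, hC'.bound⟩

theorem exp_diff (ξ ξ' : ℂ) (h : ‖ξ - ξ'‖ ≤ 1) :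
    ‖Complex.exp ξ - Complex.exp ξ'‖ ≤ ‖Complex.exp ξ'‖ * (2 * ‖ξ - ξ'‖) := by
  have h1 : Complex.exp ξ - Complex.exp ξ' = Complex.exp ξ' * (Complex.exp (ξ - ξ') - 1) := by
    rw [mul_sub, ← Complex.exp_add]; ring_nf
  rw [h1, norm_mul]
  gcongr
  exact Complex.norm_exp_sub_one_le h

/-- distance of the segment from `α` -/
theorem seg_sub_le (α : ℝ) (hα : 0 < α) (t b : ℂ) (x : ℝ) (hx : x ≤ 1)
    (h1 : ‖Complex.log t - Complex.log (α : ℂ)‖ ≤ x)
    (h2 : ‖Complex.log b - Complex.log (α : ℂ)‖ ≤ x) (s : ℝ) (hs : s ∈ Icc (0:ℝ) 1) :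
    ‖(α : ℂ) - seg t b s‖ ≤ 2 * α * x := by
  have hs0 := hs.1
  have hs1 := hs.2
  have h3 : ‖((1 - (s : ℂ)) * Complex.log t + (s : ℂ) * Complex.log b) -
      Complex.log (α : ℂ)‖ ≤ x := by
    have : ((1 - (s : ℂ)) * Complex.log t + (s : ℂ) * Complex.log b) - Complex.log (α : ℂ) =
        ((1 - s : ℝ) : ℂ) * (Complex.log t - Complex.log (α : ℂ)) +
        (s : ℂ) * (Complex.log b - Complex.log (α : ℂ)) := by push_cast; ring
    rw [this]
    refine (norm_add_le _ _).trans ?_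
    rw [norm_mul, norm_mul, Complex.norm_real, Complex.norm_real, Real.norm_eq_abs,
      Real.norm_eq_abs, abs_of_nonneg (by linarith : (0:ℝ) ≤ 1 - s), abs_of_nonneg hs0]
    nlinarith
  have h4 := exp_diff _ _ (h3.trans hx)
  have hα' : (α : ℂ) ≠ 0 := by exact_mod_cast hα.ne'
  rw [Complex.exp_log hα', Complex.norm_real, Real.norm_eq_abs, abs_of_pos hα] at h4
  rw [norm_sub_rev, seg]
  refine h4.trans ?_
  nlinarith [norm_nonneg (((1 - (s : ℂ)) * Complex.log t + (s : ℂ) * Complex.log b) -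
      Complex.log (α : ℂ))]

theorem seg_sub_t (t b : ℂ) (ht : t ≠ 0) (x : ℝ) (hx : x ≤ 1)
    (h1 : ‖Complex.log b - Complex.log t‖ ≤ x) (s : ℝ) (hs : s ∈ Icc (0:ℝ) 1) :
    ‖seg t b s - t‖ ≤ 2 * ‖t‖ * x := by
  have hs0 := hs.1
  have hs1 := hs.2
  have h3 : ‖((1 - (s : ℂ)) * Complex.log t + (s : ℂ) * Complex.log b) -
      Complex.log t‖ ≤ x := by
    have : ((1 - (s : ℂ)) * Complex.log t + (s : ℂ) * Complex.log b) - Complex.log t =
        (s : ℂ) * (Complex.log b - Complex.log t) := by ring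
    rw [this, norm_mul, Complex.norm_real, Real.norm_eq_abs, abs_of_nonneg hs0]
    nlinarith [norm_nonneg (Complex.log b - Complex.log t)]
  have h4 := exp_diff _ _ (h3.trans hx)
  rw [Complex.exp_log ht] at h4
  rw [seg]
  refine h4.trans ?_
  nlinarith [norm_nonneg (((1 - (s : ℂ)) * Complex.log t + (s : ℂ) * Complex.log b) -
      Complex.log t), norm_nonneg t]

end Pool.Agent.KS6_47.Zof.ModLCM

namespace Pool.Agent.KS6_47.Zof

open Polynomial Set Filter Topology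
open Pool.Agent.KS6_47.Zof.B43 Pool.Agent.KS6_47.Zof.C43 Pool.Agent.KS6_47.Zof.ModLCM

set_option linter.unusedVariables false in
theorem mLCM (hA : StmARG) (hGL : StmGAPLB) (hz : StmZINJ) (hlow : StmLOW) (hl : StmLIMM) :
    StmLCM := by
  intro D R tau hcur hR hex
  obtain ⟨j₀, j₁, hj, haj, hmin⟩ := hex
  obtain ⟨hlim, ε₁, hε₁, c₀, hc₀, hang⟩ := hl D tau j₀ j₁ hcur hj haj hmin
  obtain ⟨-, -, hzz⟩ := hz D tau hcur
  set α := D.a j₀ with hα_def
  have hα : 0 < α := D.ha j₀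
  have hpi := Real.pi_pos
  have hnR : (1:ℝ) ≤ D.n := by exact_mod_cast D.hn
  obtain ⟨ρ, γ, hρ1, hρ2, hγ, hργ⟩ := exists_disc D α hα hmin
  have hρ0 : 0 < ρ := by linarith
  -- local size of `q`
  have hQ0 : D.Q ≠ 0 := by
    intro h
    have h1 := aeval_Q D 0
    rw [h, map_zero, q_zero] at h1
    exact D.hc.ne' (by exact_mod_cast h1.symm)
  obtain ⟨μ, m₁, hm₁, m₂, hm₂, hq⟩ := poly_local D.Q hQ0 (α : ℂ)
  have hqα : D.q (α : ℂ) = 0 := (q_eq_zero_iff D _).2 ⟨j₀, rfl⟩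
  have hμ : μ ≠ 0 := by
    rintro rfl
    have h1 := hq.self_of_nhds.1
    rw [aeval_Q, hqα] at h1
    simp at h1
    linarith
  obtain ⟨C₁, hC₁, hlog⟩ := log_local α hα
  obtain ⟨η₁, hη₁, hloc⟩ := Metric.eventually_nhds_iff.1 (hq.and hlog)
  set K : ℝ := max 1 (m₂ / m₁ * 4 ^ D.r) with hK_def
  have hK : 1 ≤ K := le_max_left _ _
  have hK0 : 0 < K := by linarith
  obtain ⟨η₂, hη₂, B, hB, k, m, hm, hF⟩ := F_ratio D R hR (α : ℂ) K hK
  set η : ℝ := min (min η₁ η₂) (min ((ρ - α) / 2) (α / 2)) with hη_def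
  have hη : 0 < η := lt_min (lt_min hη₁ hη₂) (lt_min (by linarith) (by linarith))
  have hηa : η ≤ η₁ := (min_le_left _ _).trans (min_le_left _ _)
  have hηb : η ≤ η₂ := (min_le_left _ _).trans (min_le_right _ _)
  have hηc : η ≤ (ρ - α) / 2 := (min_le_right _ _).trans (min_le_left _ _)
  have hηd : η ≤ α / 2 := (min_le_right _ _).trans (min_le_right _ _)
  obtain ⟨cη, hcη, haway⟩ := exists_away D α ρ η hη (fun j hj => by linarith [hργ j hj])
  -- limits
  have hmem : ∀ᶠ θ in 𝓝[Ioo 0 D.thm \ {0}] (0:ℝ), θ ∈ Ioo 0 D.thm \ {0} := self_mem_nhdsWithin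
  have hdlim : Tendsto (fun θ => ‖pt tau θ - (α : ℂ)‖) (𝓝[Ioo 0 D.thm \ {0}] 0) (𝓝 0) := by
    have := (hlim.sub_const (α : ℂ)).norm
    simpa using this
  have htau : Tendsto tau (𝓝[Ioo 0 D.thm \ {0}] 0) (𝓝 α) := by
    have h1 : Tendsto (fun θ => ‖pt tau θ‖) (𝓝[Ioo 0 D.thm \ {0}] 0) (𝓝 α) := by
      have h2 := hlim.norm
      rwa [Complex.norm_real, Real.norm_eq_abs, abs_of_pos hα] at h2
    refine h1.congr' ?_
    filter_upwards [hmem] with θ hθ
    exact norm_pt tau θ (hcur.2 θ hθ.1).1.le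
  have hzlim : Tendsto (D.zz tau) (𝓝[Ioo 0 D.thm \ {0}] 0) (𝓝 0) := by
    have h1 := ((((q_cont D).tendsto (α : ℂ)).comp hlim).norm).div (htau.pow D.r)
      (pow_pos hα _).ne'
    rw [hqα, norm_zero, zero_div] at h1
    exact h1
  set δ₀ : ℝ := min η (min 1 (1 / (2 * C₁ * K))) with hδ₀
  have hδ₀pos : 0 < δ₀ := lt_min hη (lt_min one_pos (by positivity))
  have hev1 := hdlim.eventually_lt_const hδ₀pos
  have hev2 := hzlim.eventually_lt_const (show (0:ℝ) < cη / ρ ^ D.r by positivity)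
  have hev3 : ∀ᶠ θ in 𝓝[Ioo 0 D.thm \ {0}] (0:ℝ), θ < min ε₁ (Real.pi / 2) :=
    nhdsWithin_le_nhds (Iio_mem_nhds (lt_min hε₁ (by positivity)))
  obtain ⟨ε, hε, hall⟩ := eps_of_eventually (Ioo 0 D.thm) 0 _ (hev1.and (hev2.and hev3))
  -- constants
  set δ' : ℝ := min (1 / 2) γ with hδ'
  have hδ'0 : 0 < δ' := lt_min (by norm_num) hγ
  set C₇ : ℝ := (D.r : ℝ) + D.n * (ρ / δ') with hC₇
  have hC₇0 : 0 < C₇ := by positivity
  set c₂ : ℝ := min (1 / (8 * α)) (2 * Real.pi / C₇) with hc₂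
  have hc₂0 : 0 < c₂ := lt_min (by positivity) (by positivity)
  set σ₀ : ℝ := c₀ / (8 * Real.pi * C₁ ^ 2 * K ^ 2) with hσ₀
  have hσ₀0 : 0 < σ₀ := by positivity
  set g : ℝ := c₂ ^ 2 * σ₀ / (2 * Real.pi * ((D.n : ℝ) + D.r)) with hg
  have hg0 : 0 < g := by positivity
  set c₁ : ℝ := min (g * (α / Real.pi)) (m * (α / Real.pi) ^ k) with hc₁
  have hc₁0 : 0 < c₁ := lt_min (by positivity) (by positivity)
  have hqq : (α / ρ + 1) / 2 * ρ = (α + ρ) / 2 := by field_simp
  have hδ₀a : δ₀ ≤ η := min_le_left _ _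
  have hδ₀b : δ₀ ≤ 1 := (min_le_right _ _).trans (min_le_left _ _)
  have hδ₀c : δ₀ ≤ 1 / (2 * C₁ * K) := (min_le_right _ _).trans (min_le_right _ _)
  have hδ'a : δ' ≤ 1 / 2 := min_le_left _ _
  have hδ'b : δ' ≤ γ := min_le_right _ _
  have hc₂a : c₂ ≤ 1 / (8 * α) := min_le_left _ _
  have hc₂b : c₂ ≤ 2 * Real.pi / C₇ := min_le_right _ _
  have hc₁a : c₁ ≤ g * (α / Real.pi) := min_le_left _ _
  have hc₁b : c₁ ≤ m * (α / Real.pi) ^ k := min_le_right _ _
  have hKb : m₂ / m₁ * 4 ^ D.r ≤ K := le_max_right _ _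
  clear_value c₁ g σ₀ c₂ C₇ δ' δ₀ η K
  refine ⟨ε, hε, ρ, hρ0, (α / ρ + 1) / 2, by positivity, ?_, max B cη⁻¹, by positivity, c₁, hc₁0, k,
    fun θ hθ h0 h1 => ?_⟩
  · have : α / ρ < 1 := (div_lt_one hρ0).2 hρ1
    linarith
  obtain ⟨hd, hzs, hθs⟩ := hall θ hθ h0 h1
  obtain ⟨hzpos, hroot, himp, -⟩ := hzz θ hθ
  have htau0 : 0 < tau θ := (hcur.2 θ hθ).1
  have hAt : D.A (pt tau θ) = Real.pi := (hcur.2 θ hθ).2
  have hnt : ‖pt tau θ‖ = tau θ := norm_pt tau θ htau0.le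
  have hargt : Complex.arg (pt tau θ) = θ := arg_pt D tau hcur θ hθ
  have hθ1 : θ < ε₁ := hθs.trans_le (min_le_left _ _)
  have hθ2 : θ < Real.pi / 2 := hθs.trans_le (min_le_right _ _)
  have hθ0 : 0 < θ := hθ.1
  have hangθ := hang θ hθ hθ1
  have habs : |θ - 0| = θ := by rw [sub_zero, abs_of_pos hθ0]
  rw [habs]
  set t := pt tau θ with ht_def
  set z := D.zz tau θ with hz_def
  set d := ‖t - (α : ℂ)‖ with hd_def
  have htne : t ≠ 0 := root_ne_zero D z t hzpos hroot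
  have hd1 : d < η := hd.trans_le hδ₀a
  have hd2 : d < 1 := hd.trans_le hδ₀b
  have hd3 : d < 1 / (2 * C₁ * K) := hd.trans_le hδ₀c
  have himle : t.im ≤ d := by
    have h2 : (t - (α : ℂ)).im = t.im := by simp
    calc t.im = (t - (α : ℂ)).im := h2.symm
      _ ≤ |(t - (α : ℂ)).im| := le_abs_self _
      _ ≤ d := Complex.abs_im_le_norm _
  have hd0 : 0 < d := himp.trans_le himle
  -- norms near `α`
  have hnear : ∀ w : ℂ, ‖w - (α : ℂ)‖ < η → α / 2 ≤ ‖w‖ ∧ ‖w‖ ≤ (α + ρ) / 2 := by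
    intro w hw
    have e1 : ‖(α : ℂ)‖ = α := by rw [Complex.norm_real, Real.norm_eq_abs, abs_of_pos hα]
    have e2 := norm_sub_norm_le w (α : ℂ)
    have e3 := norm_sub_norm_le (α : ℂ) w
    rw [norm_sub_rev] at e3
    rw [e1] at e2 e3
    constructor <;> linarith
  obtain ⟨htn1, htn2⟩ := hnear t hd1
  have hzρ : z * ρ ^ D.r < cη := by rwa [lt_div_iff₀ (by positivity)] at hzs
  obtain ⟨⟨ht1, ht2⟩, ht3⟩ := hloc (show dist t (α : ℂ) < η₁ by
    rw [dist_eq_norm]; exact hd1.trans_le hηa)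
  rw [aeval_Q, norm_q_root D z t hzpos hroot] at ht1 ht2
  have hdθ : α / Real.pi * θ ≤ d := by
    have e1 : 2 / Real.pi * θ ≤ Real.sin θ := Real.mul_le_sin hθ0.le hθ2.le
    have e2 : t.im = tau θ * Real.sin θ := pt_im tau θ
    rw [hnt] at htn1
    calc α / Real.pi * θ = α / 2 * (2 / Real.pi * θ) := by ring
      _ ≤ tau θ * Real.sin θ := mul_le_mul htn1 e1 (by positivity) htau0.le
      _ ≤ d := by rw [← e2]; exact himle
  refine ⟨?_, ?_, ?_, ?_⟩
  · rw [hqq, ← hnt]; exact htn2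
  · intro w hw
    have hw1 : η ≤ ‖w - (α : ℂ)‖ := by
      by_contra h
      have := (hnear w (not_le.1 h)).2
      linarith
    have hw2 := haway w hw.le hw1
    have e1 : ‖(z:ℂ) * w ^ D.r‖ = z * ρ ^ D.r := by
      rw [norm_mul, norm_pow, hw, Complex.norm_real, Real.norm_eq_abs, abs_of_pos hzpos]
    have e2 : ‖D.q w‖ ≤ ‖D.den z w‖ + ‖(z:ℂ) * w ^ D.r‖ := by
      have : D.q w = D.den z w - (z:ℂ) * w ^ D.r := by unfold Dat.den; ring
      rw [this]; exact norm_sub_le _ _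
    rw [e1] at e2
    have e3 : (max B cη⁻¹)⁻¹ ≤ cη := by
      calc (max B cη⁻¹)⁻¹ ≤ (cη⁻¹)⁻¹ := inv_anti₀ (by positivity) (le_max_right _ _)
        _ = cη := inv_inv _
    linarith
  · intro b hb hbρ
    have hbne : b ≠ 0 := root_ne_zero D z b hzpos hb
    have hqb : ‖D.q b‖ = z * ‖b‖ ^ D.r := norm_q_root D z b hzpos hb
    have hbη : ‖b - (α : ℂ)‖ < η := by
      by_contra h
      have e1 := haway b hbρ (not_lt.1 h)
      have e2 : z * ‖b‖ ^ D.r ≤ z * ρ ^ D.r := by gcongr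
      linarith
    obtain ⟨hbn1, hbn2⟩ := hnear b hbη
    obtain ⟨⟨hb1, hb2⟩, hb3⟩ := hloc (show dist b (α : ℂ) < η₁ by
      rw [dist_eq_norm]; exact hbη.trans_le hηa)
    rw [aeval_Q, hqb] at hb1 hb2
    set x := ‖b - (α : ℂ)‖ with hx_def
    have hx0 : 0 < x := by
      refine norm_pos_iff.2 fun h => ?_
      rw [sub_eq_zero.1 h, hqα, norm_zero] at hqb
      have : 0 < z * ‖(α : ℂ)‖ ^ D.r := by
        have : 0 < ‖(α : ℂ)‖ := by
          rw [Complex.norm_real, Real.norm_eq_abs, abs_of_pos hα]; exact hα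
        positivity
      linarith
    have key : ∀ u v X Y : ℝ, 0 ≤ X → 0 ≤ Y → u ≤ 2 * α → 0 ≤ u → α / 2 ≤ v →
        m₁ * X ^ μ ≤ z * u ^ D.r → z * v ^ D.r ≤ m₂ * Y ^ μ → X ≤ K * Y := by
      intro u v X Y hX hY hu hu0 hv g1 g2
      refine pow_cmp X Y K hX hY hK μ hμ ?_
      have g3 : u ^ D.r ≤ 4 ^ D.r * v ^ D.r := by
        rw [← mul_pow]
        exact pow_le_pow_left₀ hu0 (by linarith) _
      have g4 : m₁ * X ^ μ ≤ 4 ^ D.r * (m₂ * Y ^ μ) := by
        calc m₁ * X ^ μ ≤ z * u ^ D.r := g1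
          _ ≤ z * (4 ^ D.r * v ^ D.r) := by gcongr
          _ = 4 ^ D.r * (z * v ^ D.r) := by ring
          _ ≤ _ := by gcongr
      have g5 : X ^ μ ≤ m₂ / m₁ * 4 ^ D.r * Y ^ μ := by
        have : m₂ / m₁ * 4 ^ D.r * Y ^ μ = 4 ^ D.r * (m₂ * Y ^ μ) / m₁ := by field_simp
        rw [this, le_div_iff₀ hm₁]
        linarith
      refine g5.trans ?_
      gcongr
    have hxd : x ≤ K * d :=
      key ‖b‖ ‖t‖ x d hx0.le hd0.le (by linarith) (norm_nonneg _) htn1 hb1 ht2
    have hdx : d ≤ K * x :=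
      key ‖t‖ ‖b‖ d x hd0.le hx0.le (by linarith) (norm_nonneg _) hbn1 ht1 hb2
    obtain ⟨hLb, hFb, -⟩ := hF b t hx0 (hbη.trans_le hηb) hd0 (hd1.trans_le hηb) hxd hdx
    refine ⟨by rw [hqq]; exact hbn2, hLb, ?_⟩
    by_cases hbt' : b = t
    · exact Or.inl hbt'
    by_cases hbt'' : b = (starRingEnd ℂ) t
    · exact Or.inr (Or.inl hbt'')
    refine Or.inr (Or.inr ⟨?_, ?_⟩)
    · refine hFb.trans ?_
      gcongr
      exact le_max_left _ _
    · obtain ⟨b', hb'im, hb'den, hb't, hb'n, hb'e⟩ := exists_upper D z t b hb hbt' hbt''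
      have hb'ne : b' ≠ 0 := root_ne_zero D z b' hzpos hb'den
      have hb0 : 0 < ‖b‖ := norm_pos_iff.2 hbne
      have hb'x : ‖b' - (α : ℂ)‖ = x := by
        rcases hb'e with h | h
        · rw [h]
        · rw [h, hx_def, ← Complex.norm_conj (b - (α : ℂ)), map_sub, Complex.conj_ofReal]
      have hb'log := (hloc (show dist b' (α : ℂ) < η₁ by
        rw [dist_eq_norm, hb'x]; exact hbη.trans_le hηa)).2
      rw [hb'x] at hb'log
      have hCKd : C₁ * K * d ≤ 1 / 2 := by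
        rw [lt_div_iff₀ (by positivity)] at hd3
        linarith
      have hl1 : ‖Complex.log t - Complex.log (α : ℂ)‖ ≤ C₁ * K * d := by
        refine ht3.trans ?_
        have : C₁ * d ≤ C₁ * K * d := by
          have : C₁ * 1 * d ≤ C₁ * K * d := by gcongr
          linarith
        exact this
      have hl2 : ‖Complex.log b' - Complex.log (α : ℂ)‖ ≤ C₁ * K * d := by
        refine hb'log.trans ?_
        calc C₁ * x ≤ C₁ * (K * d) := by gcongr
          _ = C₁ * K * d := by ring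
      have hl3 : ‖Complex.log b' - Complex.log t‖ ≤ 1 := by
        have : Complex.log b' - Complex.log t =
            (Complex.log b' - Complex.log (α : ℂ)) - (Complex.log t - Complex.log (α : ℂ)) := by
          ring
        rw [this]
        refine (norm_sub_le _ _).trans ?_
        linarith
      have hsegρ : ∀ s ∈ Icc (0:ℝ) 1, ‖seg t b' s‖ ≤ ρ :=
        fun s hs => norm_seg_le t b' htne hb'ne ρ (by linarith) (by rw [hb'n]; exact hbρ) s hs
      obtain ⟨-, hg2⟩ := hGL D z t b' hzpos himp.le hb'im hroot hb'den hAt hb't (Or.inl himp)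
      -- lower bound for the distance of the logarithms
      have hlogd : c₂ * d ≤ ‖Complex.log b' - Complex.log t‖ := by
        by_contra hcon
        push Not at hcon
        have e1 : ‖Complex.log b' - Complex.log t‖ ≤ d / (8 * α) := by
          refine hcon.le.trans ?_
          calc c₂ * d ≤ 1 / (8 * α) * d := by gcongr
            _ = d / (8 * α) := by ring
        have e2 : ∀ s ∈ Icc (0:ℝ) 1, ‖D.S (seg t b' s)‖ ≤ C₇ / d := by
          intro s hs
          have f1 := seg_sub_t t b' htne _ hl3 le_rfl s hs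
          have f2 : ‖seg t b' s - t‖ ≤ d / 2 := by
            refine f1.trans ?_
            have : ‖t‖ ≤ 2 * α := by linarith
            calc 2 * ‖t‖ * ‖Complex.log b' - Complex.log t‖ ≤ 2 * (2 * α) * (d / (8 * α)) := by
                  gcongr
              _ = d / 2 := by field_simp; norm_num
          have f3 : d / 2 ≤ ‖(α : ℂ) - seg t b' s‖ := by
            have : t - (α : ℂ) = -(seg t b' s - t) - ((α : ℂ) - seg t b' s) := by ring
            have h3 : d ≤ ‖seg t b' s - t‖ + ‖(α : ℂ) - seg t b' s‖ := by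
              rw [hd_def, this]
              refine (norm_sub_le _ _).trans ?_
              rw [norm_neg]
            linarith
          have f4 : ∀ j, d * δ' ≤ ‖(D.a j : ℂ) - seg t b' s‖ := by
            intro j
            by_cases hj : D.a j = α
            · rw [hj]
              refine le_trans ?_ f3
              calc d * δ' ≤ d * (1 / 2) := by gcongr
                _ = d / 2 := by ring
            · have f5 := norm_sub_norm_le (D.a j : ℂ) (seg t b' s)
              rw [Complex.norm_real, Real.norm_eq_abs, abs_of_pos (D.ha j)] at f5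
              have f6 := hργ j hj
              have f7 := hsegρ s hs
              have f8 : d * δ' ≤ 1 * γ := by gcongr
              linarith
          have f9 := norm_S_le D (seg t b' s) ρ (d * δ') (by positivity) (hsegρ s hs) f4
          refine f9.trans ?_
          have f10 : C₇ / d = (D.r : ℝ) / d + D.n * (ρ / (d * δ')) := by
            rw [hC₇]; field_simp
          rw [f10]
          have f11 : (D.r : ℝ) ≤ (D.r : ℝ) / d := by
            rw [le_div_iff₀ hd0]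
            exact mul_le_of_le_one_right (Nat.cast_nonneg _) hd2.le
          linarith
        have e3 := hg2 _ e2
        have e4 : 2 * Real.pi / C₇ * d ≤ ‖Complex.log b' - Complex.log t‖ := by
          rw [div_mul_eq_mul_div, div_le_iff₀ hC₇0]
          rw [div_mul_eq_mul_div, le_div_iff₀ hd0] at e3
          linarith
        have e5 : c₂ * d ≤ 2 * Real.pi / C₇ * d := by gcongr
        linarith
      have h5 : ∀ s ∈ Icc (0:ℝ) (1/2), σ₀ / d ≤ (D.S (seg t b' s)).im := by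
        intro s hs
        have hs' : s ∈ Icc (0:ℝ) 1 := ⟨hs.1, by linarith [hs.2]⟩
        have e1 := seg_im_nonneg t b' himp.le hb'im s hs'
        have e2 := S_im_ge D _ e1 j₀
        refine le_trans ?_ e2
        have e3 := seg_im_lb t b' hb'im (θ / 2) (by positivity) (by rw [hargt]; linarith)
          (by rw [hargt]; linarith) s hs
        have e4 : α / 2 ≤ ‖seg t b' s‖ :=
          le_norm_seg t b' _ (by positivity) htn1 (by rw [hb'n]; exact hbn1) s hs'
        have e4' : 2 / Real.pi * (θ / 2) ≤ Real.sin (θ / 2) :=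
          Real.mul_le_sin (by positivity) (by linarith)
        have e5 : α / 2 * (c₀ * d / Real.pi) ≤ (seg t b' s).im := by
          refine le_trans ?_ e3
          refine mul_le_mul e4 ?_ (by positivity) (norm_nonneg _)
          refine le_trans ?_ e4'
          calc c₀ * d / Real.pi ≤ θ / Real.pi := by gcongr
            _ = 2 / Real.pi * (θ / 2) := by ring
        have e6 : 0 < (seg t b' s).im := lt_of_lt_of_le (by positivity) e5
        have e7 : 0 < Complex.normSq ((D.a j₀ : ℂ) - seg t b' s) := by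
          refine Complex.normSq_pos.2 ?_
          intro h0
          have := congrArg Complex.im h0
          simp only [Complex.sub_im, Complex.ofReal_im, Complex.zero_im, zero_sub,
            neg_eq_zero] at this
          exact e6.ne' this
        have e8 : Complex.normSq ((D.a j₀ : ℂ) - seg t b' s) ≤ (2 * α * (C₁ * K * d)) ^ 2 := by
          rw [Complex.normSq_eq_norm_sq]
          refine pow_le_pow_left₀ (norm_nonneg _) ?_ 2
          exact seg_sub_le α hα t b' _ (by linarith) hl1 hl2 s hs'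
        rw [← hα_def, le_div_iff₀ e7]
        calc σ₀ / d * Complex.normSq ((D.a j₀ : ℂ) - seg t b' s)
            ≤ σ₀ / d * (2 * α * (C₁ * K * d)) ^ 2 := by gcongr
          _ = α * (α / 2 * (c₀ * d / Real.pi)) := by
              rw [hσ₀]; field_simp; norm_num
          _ ≤ α * (seg t b' s).im := by gcongr
      have hM : 2 * Real.pi ≤ 2 * Real.pi / (c₂ * d) * ‖Complex.log b' - Complex.log t‖ := by
        rw [div_mul_eq_mul_div, le_div_iff₀ (by positivity)]
        gcongr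
      have h7 := gap_exp D hGL z t b' hzpos himp hb'im hroot hb'den hAt hb't
        (σ₀ / d) (by positivity) (2 * Real.pi / (c₂ * d)) (by positivity) h5 hM
      rw [hb'n, hnt] at h7
      refine le_of_log (tau θ) ‖b‖ _ htau0 hb0 (le_trans ?_ h7)
      calc c₁ * θ ≤ g * (α / Real.pi) * θ := by gcongr
        _ = g * (α / Real.pi * θ) := by ring
        _ ≤ g * d := by gcongr
        _ = _ := by rw [hg]; field_simp
  · obtain ⟨-, -, hFt⟩ := hF t t hd0 (hd1.trans_le hηb) hd0 (hd1.trans_le hηb)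
      (le_mul_of_one_le_left hd0.le hK) (le_mul_of_one_le_left hd0.le hK)
    refine le_trans ?_ hFt
    calc c₁ * θ ^ k ≤ m * (α / Real.pi) ^ k * θ ^ k := by gcongr
      _ = m * (α / Real.pi * θ) ^ k := by rw [mul_pow]; ring
      _ ≤ m * d ^ k := by gcongr

end Pool.Agent.KS6_47.Zof
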