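import Pool.Agent.KS6_47.Zof.Defs

/-!
# Module LIFT (helper82 for helper48)
-/

set_option autoImplicit false

namespace Pool.Agent.KS6_47.Zof.ModLIFT

open Polynomial Set Filter Topology

/-- liftable functions -/
def Lft (T θ₀ : ℝ) (tau : ℝ → ℝ) (f : ℂ → ℂ) : Prop :=
  ∃ ε > 0, ∃ B : ℝ, ∃ ψ : ℝ → ℝ,
    ContinuousOn ψ {θ | θ ∈ Ioo 0 T ∧ 0 < |θ - θ₀| ∧ |θ - θ₀| < ε} ∧
    ∀ θ ∈ Ioo 0 T, 0 < |θ - θ₀| → |θ - θ₀| < ε → |ψ θ| ≤ B ∧ f (pt tau θ) ≠ 0 ∧
      f (pt tau θ) = (‖f (pt tau θ)‖ : ℂ) * Complex.exp ((ψ θ : ℂ) * Complex.I)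

theorem Lft.mul {T θ₀ : ℝ} {tau : ℝ → ℝ} {f g : ℂ → ℂ} (hf : Lft T θ₀ tau f)
    (hg : Lft T θ₀ tau g) : Lft T θ₀ tau (fun t => f t * g t) := by
  obtain ⟨ε₁, h1, B₁, ψ₁, c1, d1⟩ := hf
  obtain ⟨ε₂, h2, B₂, ψ₂, c2, d2⟩ := hg
  refine ⟨min ε₁ ε₂, lt_min h1 h2, B₁ + B₂, fun θ => ψ₁ θ + ψ₂ θ, ?_, ?_⟩
  · refine ContinuousOn.add (c1.mono ?_) (c2.mono ?_)
    · rintro θ ⟨a, b, c⟩
      exact ⟨a, b, lt_of_lt_of_le c (min_le_left _ _)⟩
    · rintro θ ⟨a, b, c⟩
      exact ⟨a, b, lt_of_lt_of_le c (min_le_right _ _)⟩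
  · intro θ a b c
    obtain ⟨p1, p2, p3⟩ := d1 θ a b (lt_of_lt_of_le c (min_le_left _ _))
    obtain ⟨q1, q2, q3⟩ := d2 θ a b (lt_of_lt_of_le c (min_le_right _ _))
    refine ⟨(abs_add_le _ _).trans (add_le_add p1 q1), mul_ne_zero p2 q2, ?_⟩
    dsimp only
    rw [norm_mul, Complex.ofReal_mul, Complex.ofReal_add, add_mul, Complex.exp_add]
    conv_lhs => rw [p3, q3]
    ring

theorem Lft.inv {T θ₀ : ℝ} {tau : ℝ → ℝ} {f : ℂ → ℂ} (hf : Lft T θ₀ tau f) :
    Lft T θ₀ tau (fun t => (f t)⁻¹) := by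
  obtain ⟨ε₁, h1, B₁, ψ₁, c1, d1⟩ := hf
  refine ⟨ε₁, h1, B₁, fun θ => - ψ₁ θ, c1.neg, ?_⟩
  intro θ a b c
  obtain ⟨p1, p2, p3⟩ := d1 θ a b c
  refine ⟨by rwa [abs_neg], inv_ne_zero p2, ?_⟩
  dsimp only
  rw [norm_inv, Complex.ofReal_inv, Complex.ofReal_neg, neg_mul, Complex.exp_neg]
  conv_lhs => rw [p3]
  rw [mul_inv]

theorem Lft.const (T θ₀ : ℝ) (tau : ℝ → ℝ) (c : ℂ) (hc : c ≠ 0) :
    Lft T θ₀ tau (fun _ => c) := by
  refine ⟨1, one_pos, Real.pi, fun _ => Complex.arg c, continuousOn_const, ?_⟩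
  intro θ _ _ _
  exact ⟨Complex.abs_arg_le_pi c, hc, (Complex.norm_mul_exp_arg_mul_I c).symm⟩

theorem sin_ne (θ₀ η : ℝ) : ∃ ε > 0, ∀ θ : ℝ, 0 < |θ - θ₀| → |θ - θ₀| < ε →
    Real.sin (θ - η) ≠ 0 := by
  by_cases h : Real.sin (θ₀ - η) = 0
  · refine ⟨Real.pi, Real.pi_pos, ?_⟩
    intro θ h1 h2 h3
    have h4 : Real.sin (θ - η) = Real.sin (θ₀ - η) * Real.cos (θ - θ₀) +
        Real.cos (θ₀ - η) * Real.sin (θ - θ₀) := by
      rw [← Real.sin_add]
      congr 1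
      ring
    rw [h, zero_mul, zero_add, h3] at h4
    rcases mul_eq_zero.1 h4.symm with h5 | h5
    · have := Real.sin_sq_add_cos_sq (θ₀ - η)
      rw [h, h5] at this
      norm_num at this
    · rw [abs_lt] at h2
      rw [Real.sin_eq_zero_iff_of_lt_of_lt h2.1 h2.2] at h5
      rw [h5, abs_zero] at h1
      exact lt_irrefl _ h1
  · have hc : Continuous (fun θ : ℝ => Real.sin (θ - η)) := by fun_prop
    have hn : ∀ᶠ θ in 𝓝 θ₀, Real.sin (θ - η) ≠ 0 := hc.continuousAt.eventually_ne h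
    rw [Metric.eventually_nhds_iff] at hn
    obtain ⟨ε, h1, h2⟩ := hn
    exact ⟨ε, h1, fun θ _ h3 => h2 (by rwa [Real.dist_eq])⟩

theorem Lft.lin (T θ₀ : ℝ) (tau : ℝ → ℝ) (hc : ContinuousOn tau (Ioo 0 T))
    (hpos : ∀ θ ∈ Ioo 0 T, 0 < tau θ) (ρ : ℂ) : Lft T θ₀ tau (fun t => t - ρ) := by
  by_cases hρ : ρ = 0
  · subst hρ
    refine ⟨1, one_pos, |θ₀| + 1, fun θ => θ, continuousOn_id, ?_⟩
    intro θ a b c
    have ht := hpos θ a
    refine ⟨?_, ?_, ?_⟩
    · have : θ = θ₀ + (θ - θ₀) := by ring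
      calc |θ| = |θ₀ + (θ - θ₀)| := by rw [← this]
        _ ≤ |θ₀| + |θ - θ₀| := abs_add_le _ _
        _ ≤ |θ₀| + 1 := by linarith
    · unfold pt
      beta_reduce
      rw [sub_zero]
      exact mul_ne_zero (Complex.ofReal_ne_zero.2 ht.ne') (Complex.exp_ne_zero _)
    · unfold pt
      simp only [sub_zero]
      rw [norm_mul, Complex.norm_exp_ofReal_mul_I, mul_one, Complex.norm_real, Real.norm_eq_abs,
        abs_of_pos ht]
  · obtain ⟨ε, h1, h2⟩ := sin_ne θ₀ (Complex.arg ρ)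
    set η := Complex.arg ρ with hη
    set W : ℝ → ℂ := fun θ => (pt tau θ - ρ) * Complex.exp (-((η : ℂ) * Complex.I)) with hW
    have hWim : ∀ θ, (W θ).im = tau θ * Real.sin (θ - η) := by
      intro θ
      have e1 : W θ = (tau θ : ℂ) * Complex.exp (((θ - η : ℝ) : ℂ) * Complex.I) - (‖ρ‖ : ℂ) := by
        rw [hW]
        dsimp only
        unfold pt
        rw [sub_mul, mul_assoc, ← Complex.exp_add]
        congr 1
        · congr 2
          push_cast
          ring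
        · conv_lhs => rw [← Complex.norm_mul_exp_arg_mul_I ρ]
          rw [mul_assoc, ← Complex.exp_add, ← hη, add_neg_cancel, Complex.exp_zero, mul_one]
      rw [e1, Complex.sub_im, Complex.ofReal_im, sub_zero, Complex.re_ofReal_mul |> fun _ => Complex.im_ofReal_mul _ _,
        Complex.exp_ofReal_mul_I_im]
    refine ⟨ε, h1, |η| + Real.pi, fun θ => η + Complex.arg (W θ), ?_, ?_⟩
    · refine continuousOn_const.add ?_
      intro θ hθ
      obtain ⟨a, b, c⟩ := hθ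
      have him : (W θ).im ≠ 0 := by
        rw [hWim]
        exact mul_ne_zero (hpos θ a).ne' (h2 θ b c)
      have hsl : W θ ∈ Complex.slitPlane := Or.inr him
      have hcW : ContinuousWithinAt W (Ioo 0 T) θ := by
        have h3 : ContinuousOn (pt tau) (Ioo 0 T) := by
          unfold pt
          refine ContinuousOn.mul (Complex.continuous_ofReal.comp_continuousOn hc) ?_
          fun_prop
        exact ((h3.sub continuousOn_const).mul continuousOn_const) θ a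
      exact (Complex.continuousAt_arg hsl).comp_continuousWithinAt
        (hcW.mono (fun x hx => hx.1))
    · intro θ a b c
      have him : (W θ).im ≠ 0 := by
        rw [hWim]
        exact mul_ne_zero (hpos θ a).ne' (h2 θ b c)
      have hW0 : W θ ≠ 0 := by
        intro h
        rw [h] at him
        exact him rfl
      have hf : pt tau θ - ρ = W θ * Complex.exp ((η : ℂ) * Complex.I) := by
        rw [hW]
        dsimp only
        rw [mul_assoc, ← Complex.exp_add, neg_add_cancel, Complex.exp_zero, mul_one]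
      refine ⟨(abs_add_le _ _).trans (add_le_add le_rfl (Complex.abs_arg_le_pi _)), ?_, ?_⟩
      · beta_reduce
        rw [hf]
        exact mul_ne_zero hW0 (Complex.exp_ne_zero _)
      · have hn : ‖pt tau θ - ρ‖ = ‖W θ‖ := by
          rw [hf, norm_mul, Complex.norm_exp_ofReal_mul_I, mul_one]
        dsimp only
        rw [hn, Complex.ofReal_add, add_mul, Complex.exp_add, mul_comm (Complex.exp _),
          ← mul_assoc, Complex.norm_mul_exp_arg_mul_I, hf]

theorem Lft.prod (T θ₀ : ℝ) (tau : ℝ → ℝ) (hc : ContinuousOn tau (Ioo 0 T))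
    (hpos : ∀ θ ∈ Ioo 0 T, 0 < tau θ) (s : Multiset ℂ) :
    Lft T θ₀ tau (fun t => (s.map fun ρ => t - ρ).prod) := by
  induction s using Multiset.induction_on with
  | empty =>
    simp only [Multiset.map_zero, Multiset.prod_zero]
    exact Lft.const T θ₀ tau 1 one_ne_zero
  | cons a s ih =>
    simp only [Multiset.map_cons, Multiset.prod_cons]
    exact (Lft.lin T θ₀ tau hc hpos a).mul ih

theorem Lft.poly (T θ₀ : ℝ) (tau : ℝ → ℝ) (hc : ContinuousOn tau (Ioo 0 T))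
    (hpos : ∀ θ ∈ Ioo 0 T, 0 < tau θ) (R : ℝ[X]) (hR : R ≠ 0) :
    Lft T θ₀ tau (fun t => aeval t R) := by
  have h : ∀ t : ℂ, aeval t R = (R.map (algebraMap ℝ ℂ)).leadingCoeff *
      ((R.map (algebraMap ℝ ℂ)).roots.map fun ρ => t - ρ).prod := by
    intro t
    rw [aeval_def, ← eval_map]
    exact (IsAlgClosed.splits (R.map (algebraMap ℝ ℂ))).eval_eq_prod_roots t
  simp only [h]
  refine (Lft.const T θ₀ tau _ ?_).mul (Lft.prod T θ₀ tau hc hpos _)
  rw [leadingCoeff_ne_zero]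
  exact (Polynomial.map_ne_zero_iff (algebraMap ℝ ℂ).injective).2 hR

theorem Q_eval_zero (D : Dat) : D.Q.eval 0 = D.c := by
  unfold Dat.Q
  rw [eval_mul, eval_C, eval_prod]
  simp

theorem L_ne_zero (D : Dat) : D.L ≠ 0 := by
  by_cases hr : D.r = 0
  · intro h
    unfold Dat.L at h
    rw [hr, Nat.cast_zero, C_0, zero_mul, zero_sub, neg_eq_zero, mul_eq_zero] at h
    rcases h with h | h
    · exact X_ne_zero h
    · have h2 := natDegree_eq_zero_of_derivative_eq_zero h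
      have h3 := eq_C_of_natDegree_eq_zero h2
      have h4 : D.Q.eval (D.a ⟨0, D.hn⟩) = 0 := by
        unfold Dat.Q
        rw [eval_mul, eval_prod]
        rw [Finset.prod_eq_zero (Finset.mem_univ (⟨0, D.hn⟩ : Fin D.n)), mul_zero]
        simp only [eval_sub, eval_one, eval_mul, eval_C, eval_X]
        rw [inv_mul_cancel₀ (D.ha _).ne', sub_self]
      have h5 := Q_eval_zero D
      rw [h3, eval_C] at h4 h5
      exact D.hc.ne' (h5.symm.trans h4)
  · intro h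
    have h1 : D.L.eval 0 = D.r * D.c := by
      unfold Dat.L
      rw [eval_sub, eval_mul, eval_mul, eval_C, eval_X, zero_mul, sub_zero, Q_eval_zero]
    rw [h, eval_zero] at h1
    have := D.hc
    have h2 : (0 : ℝ) < D.r := by exact_mod_cast Nat.pos_of_ne_zero hr
    nlinarith

end Pool.Agent.KS6_47.Zof.ModLIFT

namespace Pool.Agent.KS6_47.Zof

open Polynomial Set Filter Topology ModLIFT

theorem mLIFT : StmLIFT := by
  intro D R tau θ₀ hcu hR
  have hpos : ∀ θ ∈ Ioo 0 D.thm, 0 < tau θ := fun θ hθ => (hcu.2 θ hθ).1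
  have h := (Lft.poly D.thm θ₀ tau hcu.1 hpos R hR).mul
    (Lft.poly D.thm θ₀ tau hcu.1 hpos D.L (L_ne_zero D)).inv
  exact h

end Pool.Agent.KS6_47.Zof
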