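import Pool.Agent.KS6_47.Zof.LIM2

/-!
Project ZZ (helper48), module LIM0: the limit at `θ = π - π / n`, `r = 0`.
-/

set_option autoImplicit false

namespace Pool.Agent.KS6_47.Zof

open Polynomial Set Filter Topology

namespace ModLIM0

theorem h_le {a θ x : ℝ} (ha : 0 < a) (h0 : 0 < θ) (h1 : θ < Real.pi) (hx : 0 < x) :
    Real.pi - θ - ModMONO.g a θ x ≤ 2 * Real.pi * a / x := by
  have hpi := Real.pi_pos
  have hs := Real.sin_pos_of_pos_of_lt_pi h0 h1
  rcases le_or_gt a (x / 2) with h | h
  · rw [ModMONO.g_eq ha hx hs]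
    obtain ⟨y, hy⟩ : ∃ y, y = a / x := ⟨_, rfl⟩
    have hy0 : 0 < y := by rw [hy]; positivity
    have hy2 : y ≤ 1 / 2 := by
      rw [hy, div_le_iff₀ hx]
      linarith
    rw [← hy]
    have hc := Real.cos_le_one θ
    have hc' := Real.neg_one_le_cos θ
    have hsc := Real.sin_sq_add_cos_sq θ
    have h2 : y * Real.cos θ ≤ 1 / 2 := by nlinarith
    have h3 : Real.arctan (Real.cos θ / Real.sin θ) = Real.pi / 2 - θ := by
      have := ModMONO.arctan_cot h0 h1
      rw [neg_div, Real.arctan_neg] at this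
      linarith
    have h4 : Real.arctan ((y - Real.cos θ) / Real.sin θ) +
        Real.arctan (Real.cos θ / Real.sin θ) =
        Real.arctan (y * Real.sin θ / (1 - y * Real.cos θ)) := by
      rw [Real.arctan_add]
      · congr 1
        have h5 : (1 - y * Real.cos θ) ≠ 0 := by linarith
        have h6 : 1 - (y - Real.cos θ) / Real.sin θ * (Real.cos θ / Real.sin θ) =
            (1 - y * Real.cos θ) / Real.sin θ ^ 2 := by
          field_simp
          nlinarith
        rw [h6]
        field_simp
        ring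
      · rw [div_mul_div_comm, div_lt_one (by positivity)]
        nlinarith
    have h7 : Real.pi - θ - (Real.pi / 2 - Real.arctan ((y - Real.cos θ) / Real.sin θ)) =
        Real.arctan (y * Real.sin θ / (1 - y * Real.cos θ)) := by
      rw [← h4, h3]
      ring
    rw [h7]
    refine (ModLIM2.arctan_le (div_nonneg (by positivity) (by linarith))).trans ?_
    have h8 : y * Real.sin θ / (1 - y * Real.cos θ) ≤ y * 1 / (1 / 2) := by
      apply div_le_div₀ (by positivity) _ (by norm_num) (by linarith)
      exact mul_le_mul_of_nonneg_left (Real.sin_le_one θ) hy0.le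
    refine h8.trans ?_
    have h9 : 2 * Real.pi * a / x = 2 * Real.pi * y := by rw [hy]; ring
    rw [h9]
    nlinarith [Real.pi_gt_three]
  · have h2 := ModMONO.g_pos ha h0 h1 hx
    have h3 : Real.pi ≤ 2 * Real.pi * a / x := by
      rw [le_div_iff₀ hx]
      nlinarith
    linarith

end ModLIM0

open ModLIM0 in
theorem mLIM0 (hm : StmMONO) : StmLIM0 := by
  intro D tau hM hc hr
  have hpi := Real.pi_pos
  have hn : 2 ≤ D.n := by
    rcases hM with h | h
    · exact h
    · omega
  have hn2 : (2 : ℝ) ≤ D.n := by exact_mod_cast hn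
  have hn0 : (0 : ℝ) < D.n := by linarith
  have hthm : D.thm = Real.pi - Real.pi / D.n := by
    unfold Dat.thm
    rw [if_pos hr]
  have hnt : (D.n : ℝ) * (Real.pi - D.thm) = Real.pi := by
    rw [hthm]; field_simp; ring
  have htp : 0 < D.thm := D.thm_pos hM
  have htl : D.thm < Real.pi := by
    rw [hthm]
    have : 0 < Real.pi / (D.n : ℝ) := by positivity
    linarith
  have hr' : (D.r : ℝ) = 0 := by rw [hr]; norm_num
  constructor
  · rw [tendsto_atTop]
    intro b
    obtain ⟨x, hx⟩ : ∃ x, x = max b 1 := ⟨_, rfl⟩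
    have hbx : b ≤ x := by rw [hx]; exact le_max_left _ _
    have hx0 : 0 < x := by
      have : (1 : ℝ) ≤ x := by rw [hx]; exact le_max_right _ _
      linarith
    have h1 := (hm D D.thm htp htl).2.1 x hx0
    rw [hnt, hr', zero_mul, add_zero] at h1
    have h2 := (ModLIM2.cont_angle D htp htl hx0).eventually_lt_const h1.2
    have h3 : ∀ᶠ θ in 𝓝[<] D.thm, θ ∈ Ioo 0 D.thm := Ioo_mem_nhdsLT htp
    filter_upwards [nhdsWithin_le_nhds h2, h3] with θ h4 h5
    have h6 := ModLIM2.gt_of_A hm D hc h5 hx0 h4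
    linarith
  · have hne : (Finset.univ : Finset (Fin D.n)).Nonempty := ⟨⟨0, by omega⟩, Finset.mem_univ _⟩
    refine ⟨∑ j, 2 * Real.pi * D.a j, Finset.sum_pos (fun j _ => ?_) hne, ?_⟩
    · have := D.ha j
      positivity
    · intro θ hθ
      have hs := ModLIM2.sum_eq D hc hθ
      have hp := (hc.2 θ hθ).1
      rw [hr', zero_mul, add_zero] at hs
      have h1 : ∑ j, (Real.pi - θ - ModMONO.g (D.a j) θ (tau θ)) ≤
          ∑ j, 2 * Real.pi * D.a j / tau θ :=
        Finset.sum_le_sum (fun j _ => h_le (D.ha j) hθ.1 (Dat.IsCurve.lt_pi hθ) hp)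
      rw [Finset.sum_sub_distrib, hs, Finset.sum_const, Finset.card_univ, Fintype.card_fin,
        nsmul_eq_mul, ← Finset.sum_div] at h1
      have h3 : 0 ≤ D.thm - θ := by linarith [hθ.2]
      nlinarith

end Pool.Agent.KS6_47.Zof
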