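import Pool.Agent.KS6_47.Zof.Defs

/-!
Project ZZ (helper48), module MONO: the argument function along rays.
-/

set_option autoImplicit false

namespace Pool.Agent.KS6_47.Zof

open Polynomial Set Filter Topology

namespace ModMONO

theorem arg_arctan {w : ℂ} (h : 0 < w.im) :
    Complex.arg w = Real.pi / 2 - Real.arctan (w.re / w.im) := by
  obtain ⟨u, hu⟩ : ∃ u, u = w.re / w.im := ⟨_, rfl⟩
  rw [← hu]
  have hs : 0 < Real.sqrt (1 + u ^ 2) := Real.sqrt_pos.2 (by positivity)
  have hre : w.re = w.im * u := by rw [hu]; field_simp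
  have e : w = ((w.im * Real.sqrt (1 + u ^ 2) : ℝ) : ℂ) *
      (Complex.cos ((Real.pi / 2 - Real.arctan u : ℝ) : ℂ) +
        Complex.sin ((Real.pi / 2 - Real.arctan u : ℝ) : ℂ) * Complex.I) := by
    rw [← Complex.ofReal_cos, ← Complex.ofReal_sin, Real.cos_pi_div_two_sub,
      Real.sin_pi_div_two_sub, Real.sin_arctan, Real.cos_arctan]
    apply Complex.ext
    · simp only [Complex.mul_re, Complex.add_re, Complex.ofReal_re, Complex.ofReal_im,
        Complex.I_re, Complex.I_im, Complex.add_im, Complex.mul_im]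
      rw [hre]
      field_simp
      ring
    · simp only [Complex.mul_re, Complex.add_re, Complex.ofReal_re, Complex.ofReal_im,
        Complex.I_re, Complex.I_im, Complex.add_im, Complex.mul_im]
      field_simp
      ring
  have h1 := Real.neg_pi_div_two_lt_arctan u
  have h2 := Real.arctan_lt_pi_div_two u
  rw [e]
  apply Complex.arg_mul_cos_add_sin_mul_I (by positivity)
  constructor <;> linarith [Real.pi_pos]

/-- one factor -/
noncomputable def g (a θ x : ℝ) : ℝ :=
  Complex.arg (1 - (starRingEnd ℂ) ((x : ℂ) * Complex.exp ((θ : ℂ) * Complex.I)) / (a : ℂ))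

theorem w_re (a θ x : ℝ) : (1 - (starRingEnd ℂ) ((x : ℂ) * Complex.exp ((θ : ℂ) * Complex.I)) /
    (a : ℂ)).re = 1 - x * Real.cos θ / a := by
  rw [Complex.exp_mul_I, Complex.sub_re, Complex.div_ofReal_re]
  simp [Complex.cos_ofReal_re]

theorem w_im (a θ x : ℝ) : (1 - (starRingEnd ℂ) ((x : ℂ) * Complex.exp ((θ : ℂ) * Complex.I)) /
    (a : ℂ)).im = x * Real.sin θ / a := by
  rw [Complex.exp_mul_I, Complex.sub_im, Complex.div_ofReal_im]
  simp [Complex.sin_ofReal_re, neg_div]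

theorem g_eq {a θ x : ℝ} (ha : 0 < a) (hx : 0 < x) (hs : 0 < Real.sin θ) :
    g a θ x = Real.pi / 2 - Real.arctan ((a / x - Real.cos θ) / Real.sin θ) := by
  unfold g
  rw [arg_arctan (by rw [w_im]; positivity), w_re, w_im]
  congr 2
  field_simp

theorem arctan_cot {θ : ℝ} (h0 : 0 < θ) (h1 : θ < Real.pi) :
    Real.arctan (-Real.cos θ / Real.sin θ) = θ - Real.pi / 2 := by
  apply Real.arctan_eq_of_tan_eq
  · rw [Real.tan_eq_sin_div_cos]
    have e1 : Real.sin (θ - Real.pi / 2) = -Real.cos θ := by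
      rw [Real.sin_sub, Real.cos_pi_div_two, Real.sin_pi_div_two]; ring
    have e2 : Real.cos (θ - Real.pi / 2) = Real.sin θ := by
      rw [Real.cos_sub, Real.cos_pi_div_two, Real.sin_pi_div_two]; ring
    rw [e1, e2]
  · constructor <;> linarith

theorem g_mono {a θ : ℝ} (ha : 0 < a) (h0 : 0 < θ) (h1 : θ < Real.pi) {x y : ℝ} (hx : 0 < x)
    (hxy : x < y) : g a θ x < g a θ y := by
  have hs := Real.sin_pos_of_pos_of_lt_pi h0 h1
  rw [g_eq ha hx hs, g_eq ha (hx.trans hxy) hs]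
  have h2 : a / y < a / x := div_lt_div_of_pos_left ha hx hxy
  have h3 : (a / y - Real.cos θ) / Real.sin θ < (a / x - Real.cos θ) / Real.sin θ :=
    div_lt_div_of_pos_right (by linarith) hs
  have h4 := Real.arctan_strictMono h3
  linarith

theorem g_pos {a θ : ℝ} (ha : 0 < a) (h0 : 0 < θ) (h1 : θ < Real.pi) {x : ℝ} (hx : 0 < x) :
    0 < g a θ x := by
  have hs := Real.sin_pos_of_pos_of_lt_pi h0 h1
  rw [g_eq ha hx hs]
  have := Real.arctan_lt_pi_div_two ((a / x - Real.cos θ) / Real.sin θ)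
  linarith

theorem g_lt {a θ : ℝ} (ha : 0 < a) (h0 : 0 < θ) (h1 : θ < Real.pi) {x : ℝ} (hx : 0 < x) :
    g a θ x < Real.pi - θ := by
  have hs := Real.sin_pos_of_pos_of_lt_pi h0 h1
  rw [g_eq ha hx hs]
  have h2 : 0 < a / x := by positivity
  have h3 : -Real.cos θ / Real.sin θ < (a / x - Real.cos θ) / Real.sin θ :=
    div_lt_div_of_pos_right (by linarith) hs
  have h4 := Real.arctan_strictMono h3
  rw [arctan_cot h0 h1] at h4
  linarith

theorem g_zero {a θ : ℝ} (ha : 0 < a) (h0 : 0 < θ) (h1 : θ < Real.pi) :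
    Tendsto (g a θ) (𝓝[>] 0) (𝓝 0) := by
  have hs := Real.sin_pos_of_pos_of_lt_pi h0 h1
  have h2 : Tendsto (fun x : ℝ => (a / x - Real.cos θ) / Real.sin θ) (𝓝[>] 0) atTop := by
    have h5 : Tendsto (fun x : ℝ => a / x) (𝓝[>] 0) atTop := by
      simp_rw [div_eq_mul_inv]
      exact Tendsto.const_mul_atTop ha tendsto_inv_nhdsGT_zero
    have h6 := (tendsto_atTop_add_const_right _ (-Real.cos θ) h5).atTop_div_const hs
    simpa only [sub_eq_add_neg] using h6
  have h3 := (Real.tendsto_arctan_atTop.mono_right nhdsWithin_le_nhds).comp h2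
  have h4 : Tendsto (fun x : ℝ => Real.pi / 2 - Real.arctan ((a / x - Real.cos θ) / Real.sin θ))
      (𝓝[>] 0) (𝓝 (Real.pi / 2 - Real.pi / 2)) := tendsto_const_nhds.sub h3
  rw [sub_self] at h4
  refine h4.congr' ?_
  filter_upwards [self_mem_nhdsWithin] with x hx
  exact (g_eq ha hx hs).symm

theorem g_top {a θ : ℝ} (ha : 0 < a) (h0 : 0 < θ) (h1 : θ < Real.pi) :
    Tendsto (g a θ) atTop (𝓝 (Real.pi - θ)) := by
  have hs := Real.sin_pos_of_pos_of_lt_pi h0 h1
  have h2 : Tendsto (fun x : ℝ => (a / x - Real.cos θ) / Real.sin θ) atTop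
      (𝓝 ((0 - Real.cos θ) / Real.sin θ)) := by
    apply Tendsto.div_const
    apply Tendsto.sub_const
    exact tendsto_const_nhds.div_atTop tendsto_id
  have h3 := (Real.continuous_arctan.tendsto _).comp h2
  rw [zero_sub, arctan_cot h0 h1] at h3
  have h4 : Tendsto (fun x : ℝ => Real.pi / 2 - Real.arctan ((a / x - Real.cos θ) / Real.sin θ))
      atTop (𝓝 (Real.pi / 2 - (θ - Real.pi / 2))) := tendsto_const_nhds.sub h3
  have e : Real.pi / 2 - (θ - Real.pi / 2) = Real.pi - θ := by ring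
  rw [e] at h4
  refine h4.congr' ?_
  filter_upwards [eventually_gt_atTop 0] with x hx
  exact (g_eq ha hx hs).symm

theorem arg_t {θ : ℝ} (h0 : 0 < θ) (h1 : θ < Real.pi) {x : ℝ} (hx : 0 < x) :
    Complex.arg ((x : ℂ) * Complex.exp ((θ : ℂ) * Complex.I)) = θ := by
  rw [Complex.exp_mul_I]
  exact Complex.arg_mul_cos_add_sin_mul_I hx ⟨by linarith [Real.pi_pos], h1.le⟩

theorem A_eq (D : Dat) {θ : ℝ} (h0 : 0 < θ) (h1 : θ < Real.pi) {x : ℝ} (hx : 0 < x) :
    D.A ((x : ℂ) * Complex.exp ((θ : ℂ) * Complex.I)) = ∑ j, g (D.a j) θ x + D.r * θ := by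
  unfold Dat.A g
  rw [arg_t h0 h1 hx]

end ModMONO

open ModMONO in
theorem mMONO : StmMONO := by
  intro D θ h0 h1
  have hne : (Finset.univ : Finset (Fin D.n)).Nonempty := by
    have := D.hn
    exact ⟨⟨0, by omega⟩, Finset.mem_univ _⟩
  refine ⟨?_, ?_, ?_, ?_⟩
  · intro x hx y hy hxy
    simp only
    rw [A_eq D h0 h1 hx, A_eq D h0 h1 hy]
    have := Finset.sum_lt_sum_of_nonempty hne (fun j _ => g_mono (D.ha j) h0 h1 hx hxy)
    linarith
  · intro x hx
    rw [A_eq D h0 h1 hx]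
    have e1 := Finset.sum_pos (fun j (_ : j ∈ Finset.univ) => g_pos (D.ha j) h0 h1 hx) hne
    have e2 := Finset.sum_lt_sum_of_nonempty hne (fun j _ => g_lt (D.ha j) h0 h1 hx)
    rw [Finset.sum_const, Finset.card_univ, Fintype.card_fin, nsmul_eq_mul] at e2
    constructor <;> linarith
  · have e1 : Tendsto (fun x : ℝ => ∑ j, g (D.a j) θ x + D.r * θ) (𝓝[>] 0)
        (𝓝 (∑ j : Fin D.n, 0 + D.r * θ)) :=
      (tendsto_finsetSum _ (fun j _ => g_zero (D.ha j) h0 h1)).add_const _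
    rw [Finset.sum_const_zero, zero_add] at e1
    refine e1.congr' ?_
    filter_upwards [self_mem_nhdsWithin] with x hx
    exact (A_eq D h0 h1 hx).symm
  · have e1 : Tendsto (fun x : ℝ => ∑ j, g (D.a j) θ x + D.r * θ) atTop
        (𝓝 (∑ j : Fin D.n, (Real.pi - θ) + D.r * θ)) :=
      (tendsto_finsetSum _ (fun j _ => g_top (D.ha j) h0 h1)).add_const _
    rw [Finset.sum_const, Finset.card_univ, Fintype.card_fin, nsmul_eq_mul] at e1
    refine e1.congr' ?_
    filter_upwards [eventually_gt_atTop 0] with x hx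
    exact (A_eq D h0 h1 hx).symm

end Pool.Agent.KS6_47.Zof
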