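import Pool.Agent.KS6_47.Zof.Basic

/-! Module LIMM of project ZZ: the limit of the curve at angle `0` for a multiple smallest zero. -/

namespace Pool.Agent.KS6_47.Zof

open Polynomial Set Filter Topology

namespace ModLIMM

/-- the summands of `A` -/
noncomputable def ph (D : Dat) (j : Fin D.n) (t : ℂ) : ℝ :=
  Complex.arg (1 - (starRingEnd ℂ) t / (D.a j : ℂ))

theorem A_eq (D : Dat) (t : ℂ) : D.A t = ∑ j, ph D j t + (D.r : ℝ) * Complex.arg t := rfl

theorem w_im (D : Dat) (j : Fin D.n) (t : ℂ) :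
    (1 - (starRingEnd ℂ) t / (D.a j : ℂ)).im = t.im / D.a j := by
  rw [Complex.sub_im, Complex.one_im, Complex.div_ofReal_im, Complex.conj_im]
  ring

theorem w_re (D : Dat) (j : Fin D.n) (t : ℂ) :
    (1 - (starRingEnd ℂ) t / (D.a j : ℂ)).re = 1 - t.re / D.a j := by
  rw [Complex.sub_re, Complex.one_re, Complex.div_ofReal_re, Complex.conj_re]

theorem ph_nonneg (D : Dat) (j : Fin D.n) {t : ℂ} (ht : 0 ≤ t.im) : 0 ≤ ph D j t := by
  unfold ph
  rw [Complex.arg_nonneg_iff, w_im]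
  exact div_nonneg ht (D.ha j).le

theorem w_norm (D : Dat) (j : Fin D.n) (t : ℂ) :
    ‖1 - (starRingEnd ℂ) t / (D.a j : ℂ)‖ = ‖t - (D.a j : ℂ)‖ / D.a j := by
  have h1 : (1 : ℂ) - (starRingEnd ℂ) t / (D.a j : ℂ) =
      (starRingEnd ℂ) (-(t - (D.a j : ℂ))) / (D.a j : ℂ) := by
    have := D.a_ne j
    rw [map_neg, map_sub, Complex.conj_ofReal]
    field_simp
    ring
  rw [h1, norm_div, Complex.norm_conj, norm_neg, Complex.norm_real, Real.norm_eq_abs,
    abs_of_pos (D.ha j)]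

/-- continuity of a summand -/
theorem ph_cont (D : Dat) (j : Fin D.n) {t : ℂ}
    (h : 1 - (starRingEnd ℂ) t / (D.a j : ℂ) ∈ Complex.slitPlane) : ContinuousAt (ph D j) t := by
  unfold ph
  have h1 : ContinuousAt (fun t : ℂ => 1 - (starRingEnd ℂ) t / (D.a j : ℂ)) t := by
    have : Continuous (fun t : ℂ => 1 - (starRingEnd ℂ) t / (D.a j : ℂ)) := by fun_prop
    exact this.continuousAt
  exact ContinuousAt.comp (f := fun t : ℂ => 1 - (starRingEnd ℂ) t / (D.a j : ℂ))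
    (Complex.continuousAt_arg h) h1

theorem ph_real (D : Dat) (j : Fin D.n) {x : ℝ} (hx : x < D.a j) :
    1 - (starRingEnd ℂ) (x : ℂ) / (D.a j : ℂ) ∈ Complex.slitPlane ∧ ph D j (x : ℂ) = 0 := by
  have h1 : 0 < 1 - x / D.a j := by
    rw [sub_pos, div_lt_one (D.ha j)]
    exact hx
  have h2 : 1 - (starRingEnd ℂ) (x : ℂ) / (D.a j : ℂ) = ((1 - x / D.a j : ℝ) : ℂ) := by
    rw [Complex.conj_ofReal]
    push_cast
    ring
  unfold ph
  rw [h2]
  exact ⟨Complex.ofReal_mem_slitPlane.2 h1, Complex.arg_ofReal_of_nonneg h1.le⟩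

theorem A_cont (D : Dat) {x : ℝ} (hx0 : 0 < x) (hx : ∀ j, x < D.a j) :
    ContinuousAt D.A (x : ℂ) ∧ D.A (x : ℂ) = 0 := by
  constructor
  · have h1 : ContinuousAt (fun t : ℂ => ∑ j, ph D j t) (x : ℂ) :=
      tendsto_finsetSum _ fun j _ => ph_cont D j (ph_real D j (hx j)).1
    have h2 : ContinuousAt (fun t : ℂ => (D.r : ℝ) * Complex.arg t) (x : ℂ) :=
      continuousAt_const.mul (Complex.continuousAt_arg (Complex.ofReal_mem_slitPlane.2 hx0))
    exact h1.add h2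
  · rw [A_eq, Finset.sum_eq_zero fun j _ => (ph_real D j (hx j)).2,
      Complex.arg_ofReal_of_nonneg hx0.le]
    ring

end ModLIMM

open ModLIMM

theorem mLIMM (hm : StmMONO) : StmLIMM := by
  intro D tau j₀ j₁ hc hne heq hmin
  set α := D.a j₀ with hα
  have hα0 : 0 < α := D.ha j₀
  set S : Set ℝ := Ioo 0 D.thm \ {0} with hS
  have hev : ∀ᶠ θ in 𝓝[S] (0 : ℝ), θ ∈ Ioo 0 D.thm := by
    filter_upwards [self_mem_nhdsWithin] with θ hθ using hθ.1
  -- the two equal summands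
  have hre : ∀ θ ∈ Ioo 0 D.thm, (pt tau θ).re ≤ α ∧ ph D j₀ (pt tau θ) ≤ Real.pi / 2 := by
    intro θ hθ
    have him := hc.im_pos hθ
    have h1 := (hc.2 θ hθ).2
    rw [A_eq] at h1
    have h2 : ph D j₀ (pt tau θ) + ph D j₁ (pt tau θ) ≤ ∑ j, ph D j (pt tau θ) := by
      have h3 : ∑ j ∈ ({j₀, j₁} : Finset (Fin D.n)), ph D j (pt tau θ) ≤
          ∑ j, ph D j (pt tau θ) :=
        Finset.sum_le_sum_of_subset_of_nonneg (Finset.subset_univ _)
          fun j _ _ => ph_nonneg D j him.le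
      rwa [Finset.sum_pair hne] at h3
    have h3 : ph D j₁ (pt tau θ) = ph D j₀ (pt tau θ) := by
      unfold ph
      rw [← heq]
    have h4 : 0 ≤ (D.r : ℝ) * Complex.arg (pt tau θ) :=
      mul_nonneg (Nat.cast_nonneg _) (Complex.arg_nonneg_iff.2 him.le)
    have h5 : ph D j₀ (pt tau θ) ≤ Real.pi / 2 := by
      rw [h3] at h2
      linarith
    refine ⟨?_, h5⟩
    unfold ph at h5
    rw [Complex.arg_le_pi_div_two_iff, w_re, w_im] at h5
    rcases h5 with h5 | h5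
    · rw [sub_nonneg, div_le_one hα0] at h5
      exact h5
    · exact absurd h5 (not_lt.2 (div_nonneg him.le hα0.le))
  have hlo : ∀ x, 0 < x → x < α → ∀ᶠ θ in 𝓝[S] (0 : ℝ), x < tau θ := by
    intro x hx0 hx
    obtain ⟨h1, h2⟩ := A_cont D hx0 fun j => lt_of_lt_of_le hx (hmin j)
    have h3 : Tendsto (fun θ : ℝ => (x : ℂ) * Complex.exp ((θ : ℂ) * Complex.I)) (𝓝 0)
        (𝓝 (x : ℂ)) := by
      have : Continuous fun θ : ℝ => (x : ℂ) * Complex.exp ((θ : ℂ) * Complex.I) := by fun_prop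
      have h4 := this.tendsto 0
      simpa using h4
    have h4 : Tendsto (fun θ : ℝ => D.A ((x : ℂ) * Complex.exp ((θ : ℂ) * Complex.I))) (𝓝 0)
        (𝓝 0) := by
      have h5 := h1.tendsto.comp h3
      rwa [h2] at h5
    have h5 : ∀ᶠ θ : ℝ in 𝓝[S] (0 : ℝ),
        D.A ((x : ℂ) * Complex.exp ((θ : ℂ) * Complex.I)) < Real.pi :=
      (h4.mono_left nhdsWithin_le_nhds).eventually (gt_mem_nhds Real.pi_pos)
    filter_upwards [h5, hev] with θ h6 hθ
    by_contra hcon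
    push Not at hcon
    have h7 := (hm D θ hθ.1 (Dat.IsCurve.lt_pi hθ)).1.monotoneOn (mem_Ioi.2 (hc.pos hθ))
      (mem_Ioi.2 hx0) hcon
    have h8 := (hc.2 θ hθ).2
    unfold pt at h8
    have h9 : D.A ((tau θ : ℂ) * Complex.exp ((θ : ℂ) * Complex.I)) ≤
      D.A ((x : ℂ) * Complex.exp ((θ : ℂ) * Complex.I)) := h7
    rw [h8] at h9
    linarith
  have hcos : Tendsto Real.cos (𝓝[S] (0 : ℝ)) (𝓝 1) := by
    have := Real.continuous_cos.tendsto 0
    rw [Real.cos_zero] at this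
    exact this.mono_left nhdsWithin_le_nhds
  have hhi : ∀ x, α < x → ∀ᶠ θ in 𝓝[S] (0 : ℝ), tau θ < x := by
    intro x hx
    have hx0 : 0 < x := hα0.trans hx
    have h1 : α / x < 1 := (div_lt_one hx0).2 hx
    filter_upwards [hcos.eventually (lt_mem_nhds h1), hev] with θ h2 hθ
    by_contra hcon
    push Not at hcon
    have h3 := (hre θ hθ).1
    rw [pt_re] at h3
    have h4 : 0 < Real.cos θ := (div_pos hα0 hx0).trans h2
    have h5 : x * Real.cos θ ≤ tau θ * Real.cos θ := mul_le_mul_of_nonneg_right hcon h4.le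
    rw [div_lt_iff₀ hx0] at h2
    linarith
  have htau : Tendsto tau (𝓝[S] (0 : ℝ)) (𝓝 α) := by
    rw [tendsto_order]
    refine ⟨fun x hx => ?_, fun x hx => hhi x hx⟩
    have h1 : max x (α / 2) < α := max_lt hx (by linarith)
    have h2 : 0 < max x (α / 2) := lt_max_of_lt_right (by linarith)
    filter_upwards [hlo _ h2 h1] with θ h3 using lt_of_le_of_lt (le_max_left _ _) h3
  have hpt : Tendsto (pt tau) (𝓝[S] (0 : ℝ)) (𝓝 (α : ℂ)) := by
    have h1 : Tendsto (fun θ : ℝ => (tau θ : ℂ)) (𝓝[S] (0 : ℝ)) (𝓝 (α : ℂ)) := by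
      have h0 := (Complex.continuous_ofReal.tendsto α).comp htau
      exact h0
    have h2 : Tendsto (fun θ : ℝ => Complex.exp ((θ : ℂ) * Complex.I)) (𝓝[S] (0 : ℝ))
        (𝓝 1) := by
      have : Continuous fun θ : ℝ => Complex.exp ((θ : ℂ) * Complex.I) := by fun_prop
      have h4 := this.tendsto 0
      simp only [Complex.ofReal_zero, zero_mul, Complex.exp_zero] at h4
      exact h4.mono_left nhdsWithin_le_nhds
    have h3 := h1.mul h2
    rwa [mul_one] at h3
  refine ⟨hpt, ?_⟩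
  have hn : (0 : ℝ) < D.n := by
    have := D.hn
    exact_mod_cast this
  have hpi := Real.pi_pos
  -- all summands are small or equal to the first one
  have hph : ∀ᶠ θ in 𝓝[S] (0 : ℝ), ∀ j, ph D j (pt tau θ) ≤
      ph D j₀ (pt tau θ) + Real.pi / (4 * D.n) := by
    rw [eventually_all]
    intro j
    rcases eq_or_lt_of_le (hmin j) with h | h
    · filter_upwards with θ
      have h1 : ph D j (pt tau θ) = ph D j₀ (pt tau θ) := by
        unfold ph
        rw [← h]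
      rw [h1]
      have : 0 < Real.pi / (4 * D.n) := by positivity
      linarith
    · obtain ⟨h1, h2⟩ := ph_real D j h
      have h3 : Tendsto (fun θ => ph D j (pt tau θ)) (𝓝[S] (0 : ℝ)) (𝓝 0) := by
        have h4 := (ph_cont D j h1).tendsto.comp hpt
        rwa [h2] at h4
      have h4 : 0 < Real.pi / (4 * D.n) := by positivity
      filter_upwards [h3.eventually (gt_mem_nhds h4), hev] with θ h5 hθ
      have h6 := ph_nonneg D j₀ (hc.im_pos hθ).le
      linarith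
  have hr : ∀ᶠ θ in 𝓝[S] (0 : ℝ), (D.r : ℝ) * θ ≤ Real.pi / 4 := by
    have h1 : Tendsto (fun θ : ℝ => (D.r : ℝ) * θ) (𝓝 0) (𝓝 ((D.r : ℝ) * 0)) :=
      (continuous_const.mul continuous_id).tendsto 0
    rw [mul_zero] at h1
    have h2 : (0 : ℝ) < Real.pi / 4 := by positivity
    filter_upwards [(h1.mono_left nhdsWithin_le_nhds).eventually (gt_mem_nhds h2)] with θ h3
      using h3.le
  have hb : ∀ᶠ θ in 𝓝[S] (0 : ℝ), tau θ < 2 * α := hhi _ (by linarith)
  have hall : ∀ᶠ θ in 𝓝[S] (0 : ℝ), θ ∈ Ioo 0 D.thm →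
      Real.sin (Real.pi / (2 * D.n)) / (2 * α) * ‖pt tau θ - (α : ℂ)‖ ≤ θ := by
    filter_upwards [hph, hr, hb] with θ h1 h2 h3 hθ
    have him := hc.im_pos hθ
    have h4 := (hc.2 θ hθ).2
    rw [A_eq, arg_pt (hc.pos hθ) hθ.1 (Dat.IsCurve.lt_pi hθ)] at h4
    have h5 : ∑ j, ph D j (pt tau θ) ≤
        ∑ _j : Fin D.n, (ph D j₀ (pt tau θ) + Real.pi / (4 * D.n)) :=
      Finset.sum_le_sum fun j _ => h1 j
    rw [Finset.sum_const, Finset.card_univ, Fintype.card_fin, nsmul_eq_mul, mul_add] at h5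
    have h6 : (D.n : ℝ) * (Real.pi / (4 * D.n)) = Real.pi / 4 := by
      field_simp
    rw [h6] at h5
    have h7 : Real.pi / (2 * D.n) ≤ ph D j₀ (pt tau θ) := by
      rw [div_le_iff₀ (by positivity)]
      nlinarith
    obtain ⟨-, h8⟩ := hre θ hθ
    have h9 : Real.sin (Real.pi / (2 * D.n)) ≤ Real.sin (ph D j₀ (pt tau θ)) := by
      refine Real.sin_le_sin_of_le_of_le_pi_div_two ?_ h8 h7
      have : 0 < Real.pi / (2 * D.n) := by positivity
      linarith
    have h10 : ‖pt tau θ - (α : ℂ)‖ * Real.sin (ph D j₀ (pt tau θ)) = (pt tau θ).im := by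
      have h11 := Complex.norm_mul_sin_arg (1 - (starRingEnd ℂ) (pt tau θ) / (D.a j₀ : ℂ))
      rw [w_norm, w_im] at h11
      unfold ph
      have h12 := (D.ha j₀).ne'
      field_simp at h11
      exact h11
    have h11 : (pt tau θ).im ≤ 2 * α * θ := by
      rw [pt_im]
      have h12 : Real.sin θ ≤ θ := Real.sin_le hθ.1.le
      have h13 : 0 ≤ Real.sin θ :=
        Real.sin_nonneg_of_nonneg_of_le_pi hθ.1.le (Dat.IsCurve.lt_pi hθ).le
      calc tau θ * Real.sin θ ≤ 2 * α * Real.sin θ := mul_le_mul_of_nonneg_right h3.le h13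
        _ ≤ 2 * α * θ := mul_le_mul_of_nonneg_left h12 (by linarith)
    have h12 : ‖pt tau θ - (α : ℂ)‖ * Real.sin (Real.pi / (2 * D.n)) ≤ 2 * α * θ := by
      calc ‖pt tau θ - (α : ℂ)‖ * Real.sin (Real.pi / (2 * D.n)) ≤
          ‖pt tau θ - (α : ℂ)‖ * Real.sin (ph D j₀ (pt tau θ)) :=
            mul_le_mul_of_nonneg_left h9 (norm_nonneg _)
        _ ≤ 2 * α * θ := h10.trans_le h11
    rw [div_mul_eq_mul_div, div_le_iff₀ (by linarith)]
    linarith
  rw [eventually_nhdsWithin_iff, Metric.eventually_nhds_iff] at hall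
  obtain ⟨ε, hε, h1⟩ := hall
  refine ⟨ε, hε, Real.sin (Real.pi / (2 * D.n)) / (2 * α), ?_, ?_⟩
  · refine div_pos (Real.sin_pos_of_pos_of_lt_pi (by positivity) ?_) (by linarith)
    rw [div_lt_iff₀ (by positivity)]
    have : (1 : ℝ) ≤ D.n := by
      have := D.hn
      exact_mod_cast this
    nlinarith
  · intro θ hθ hθε
    refine h1 ?_ ⟨hθ, hθ.1.ne'⟩ hθ
    rw [Real.dist_eq, sub_zero, abs_of_pos hθ.1]
    exact hθε

end Pool.Agent.KS6_47.Zof
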