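import Pool.Agent.KS6_47.Zof.Defs

/-!
# Module LOCAL (helper82 for helper48)
-/

set_option autoImplicit false

namespace Pool.Agent.KS6_47.Zof.ModLOCAL

open Polynomial Set Filter Topology

theorem exp_int (φ : ℝ) (k : ℤ) (h : φ = (k : ℝ) * Real.pi) :
    Complex.exp (-((φ : ℂ) * Complex.I)) = (((-1 : ℝ) ^ k : ℝ) : ℂ) := by
  rw [h]
  have h1 : -((((k : ℝ) * Real.pi : ℝ) : ℂ) * Complex.I) = ((-k : ℤ) : ℂ) * (Real.pi * Complex.I) := by
    push_cast
    ring
  rw [h1, Complex.exp_int_mul, Complex.exp_pi_mul_I]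
  push_cast
  rw [zpow_neg, ← inv_zpow]
  norm_num

/-- the key estimate: zeros in a closed interval at distance `≥ K / m` of `θ₀` -/
theorem core (h2 : StmCOUNT) (h3 : StmPCONT) (h4 : StmZINJ) (D : Dat) (R : ℝ[X]) (tau : ℝ → ℝ)
    (hcu : D.IsCurve tau) (B : ℝ) (ψ : ℝ → ℝ) (m : ℕ) (u v : ℝ) (huv : u < v)
    (hsub : ∀ θ ∈ Icc u v, θ ∈ Ioo 0 D.thm) (hψ : ContinuousOn ψ (Icc u v))
    (hB : ∀ θ ∈ Icc u v, |ψ θ| ≤ B ∧ D.F R (pt tau θ) ≠ 0 ∧
      D.F R (pt tau θ) = (‖D.F R (pt tau θ)‖ : ℂ) * Complex.exp ((ψ θ : ℂ) * Complex.I))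
    (hLC : ∀ θ ∈ Icc u v, |D.P R m (D.zz tau θ) - 2 * (D.F R (pt tau θ) * ((pt tau θ)⁻¹) ^ m).re| ≤
      ‖D.F R (pt tau θ) * ((pt tau θ)⁻¹) ^ m‖) :
    ∃ Z : Finset ℝ, (∀ x ∈ Z, u < x ∧ x < v ∧ D.P R m (D.zz tau x) = 0) ∧
      (m : ℝ) * (v - u) / Real.pi - 2 * B / Real.pi - 3 ≤ (Z.card : ℝ) := by
  obtain ⟨hzc, _, hz⟩ := h4 D tau hcu
  refine h2 (fun θ => D.P R m (D.zz tau θ)) ψ u v B m huv ?_ hψ (fun θ hθ => (hB θ hθ).1) ?_
  · exact (h3 D R m).comp (hzc.mono hsub) (fun θ hθ => (hz θ (hsub θ hθ)).1)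
  · intro θ hθ k hk
    obtain ⟨_, hF0, hF⟩ := hB θ hθ
    have hL := hLC θ hθ
    have ht := (hcu.2 θ (hsub θ hθ)).1
    set r : ℝ := ‖D.F R (pt tau θ)‖ * (tau θ)⁻¹ ^ m with hr
    have hrpos : 0 < r := mul_pos (norm_pos_iff.2 hF0) (pow_pos (inv_pos.2 ht) m)
    have hW : D.F R (pt tau θ) * ((pt tau θ)⁻¹) ^ m = ((r * (-1 : ℝ) ^ k : ℝ) : ℂ) := by
      have e1 : ((pt tau θ)⁻¹) ^ m = (((tau θ)⁻¹ ^ m : ℝ) : ℂ) *
          Complex.exp (-((m : ℂ) * (θ : ℂ) * Complex.I)) := by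
        unfold pt
        rw [mul_inv, mul_pow, ← Complex.exp_neg, ← Complex.exp_nat_mul]
        push_cast
        congr 2
        ring
      have e2 := exp_int ((m : ℝ) * θ - ψ θ) k hk
      rw [hF, e1, hr, Complex.ofReal_mul (_ * _), ← e2]
      have e3 : Complex.exp ((ψ θ : ℂ) * Complex.I) *
          Complex.exp (-((m : ℂ) * (θ : ℂ) * Complex.I)) =
          Complex.exp (-((((m : ℝ) * θ - ψ θ : ℝ) : ℂ) * Complex.I)) := by
        rw [← Complex.exp_add]
        congr 1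
        push_cast
        ring
      rw [← e3, Complex.ofReal_mul]
      ring
    rw [hW, Complex.ofReal_re, Complex.norm_real, Real.norm_eq_abs, abs_mul, abs_of_pos hrpos]
      at hL
    rcases Int.even_or_odd k with hk2 | hk2
    · rw [hk2.neg_one_zpow] at hL ⊢
      rw [abs_one, mul_one, abs_le] at hL
      linarith [hL.1]
    · rw [hk2.neg_one_zpow] at hL ⊢
      rw [abs_neg, abs_one, mul_one, abs_le] at hL
      linarith [hL.2]

end Pool.Agent.KS6_47.Zof.ModLOCAL

namespace Pool.Agent.KS6_47.Zof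

open Polynomial Set Filter Topology ModLOCAL

theorem mLOCAL (h1 : StmLIFT) (h2 : StmCOUNT) (h3 : StmPCONT) (h4 : StmZINJ) : StmLOCAL := by
  intro D R tau θ₀ hcu hR hθ₀ hLC
  obtain ⟨ε₁, hε₁, K, hK, m₀, hLC⟩ := hLC
  obtain ⟨ε₂, hε₂, B, ψ, hψ, hB⟩ := h1 D R tau θ₀ hcu hR
  have hpi := Real.pi_pos
  set K' : ℝ := max K 1 with hK'
  have hK'K : K ≤ K' := le_max_left _ _
  have hK'1 : 1 ≤ K' := le_max_right _ _
  set m₁ : ℕ := max m₀ 1 with hm₁
  -- one interval
  have key : ∀ (m : ℕ), m₁ ≤ m → ∀ u v : ℝ, u < v → 0 < u → v < D.thm →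
      (∀ θ ∈ Icc u v, K' / (m : ℝ) ≤ |θ - θ₀| ∧ |θ - θ₀| < min ε₁ ε₂) →
      ∃ Z : Finset ℝ, (∀ x ∈ Z, u < x ∧ x < v ∧ D.P R m (D.zz tau x) = 0) ∧
        (m : ℝ) * (v - u) / Real.pi - 2 * B / Real.pi - 3 ≤ (Z.card : ℝ) := by
    intro m hm u v huv hu hv hcl
    have hm0 : (0 : ℝ) < m := by
      have : 1 ≤ m := (le_max_right _ _).trans hm
      exact_mod_cast this
    have hpos : ∀ θ ∈ Icc u v, 0 < |θ - θ₀| := fun θ hθ =>
      lt_of_lt_of_le (by positivity) (hcl θ hθ).1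
    have hin : ∀ θ ∈ Icc u v, θ ∈ Ioo 0 D.thm := fun θ hθ =>
      ⟨lt_of_lt_of_le hu hθ.1, lt_of_le_of_lt hθ.2 hv⟩
    refine core h2 h3 h4 D R tau hcu B ψ m u v huv hin ?_ ?_ ?_
    · refine hψ.mono ?_
      intro θ hθ
      exact ⟨hin θ hθ, hpos θ hθ, lt_of_lt_of_le (hcl θ hθ).2 (min_le_right _ _)⟩
    · intro θ hθ
      exact hB θ (hin θ hθ) (hpos θ hθ) (lt_of_lt_of_le (hcl θ hθ).2 (min_le_right _ _))
    · intro θ hθ
      refine hLC m ((le_max_left _ _).trans hm) θ (hin θ hθ) ?_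
        ((hcl θ hθ).2.le.trans (min_le_left _ _))
      exact le_trans (div_le_div_of_nonneg_right hK'K hm0.le) (hcl θ hθ).1
  refine ⟨min ε₁ ε₂, lt_min hε₁ hε₂, ?_, ?_⟩
  · intro b hb1 hb2 hb3
    refine ⟨(m₁ : ℝ) * (b - θ₀) / Real.pi + (K' + 1) / Real.pi + 2 * |B| / Real.pi + 3, ?_⟩
    intro m
    have hbpos : 0 < b - θ₀ := by linarith
    have t1 : 0 ≤ (m₁ : ℝ) * (b - θ₀) / Real.pi := by positivity
    have t2 : 0 ≤ (K' + 1) / Real.pi := by positivity
    have t3 : 0 ≤ 2 * |B| / Real.pi := by positivity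
    have t4 : 2 * B / Real.pi ≤ 2 * |B| / Real.pi := by
      have := le_abs_self B
      gcongr
    by_cases hm : m₁ ≤ m
    · have hm0 : (0 : ℝ) < m := by
        have : 1 ≤ m := (le_max_right _ _).trans hm
        exact_mod_cast this
      by_cases huv : θ₀ + K' / m < b - 1 / m
      · obtain ⟨Z, hZ1, hZ2⟩ := key m hm (θ₀ + K' / m) (b - 1 / m) huv (by
          have := hθ₀.1
          have : 0 < K' / m := by positivity
          linarith) (by
          have : 0 < 1 / (m : ℝ) := by positivity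
          linarith) (by
          intro θ hθ
          have q1 : 0 < K' / m := by positivity
          have q2 : 0 < 1 / (m : ℝ) := by positivity
          have q3 : 0 < θ - θ₀ := by linarith [hθ.1]
          rw [abs_of_pos q3]
          constructor
          · linarith [hθ.1]
          · linarith [hθ.2])
        refine ⟨Z, ?_, ?_⟩
        · intro x hx
          obtain ⟨p1, p2, p3⟩ := hZ1 x hx
          have q1 : 0 < K' / m := by positivity
          have q2 : 0 < 1 / (m : ℝ) := by positivity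
          exact ⟨⟨⟨by linarith [hθ₀.1], by linarith⟩, p3⟩, by linarith, by linarith⟩
        · have e : (m : ℝ) * (b - 1 / m - (θ₀ + K' / m)) / Real.pi =
              (m : ℝ) * (b - θ₀) / Real.pi - (K' + 1) / Real.pi := by
            field_simp
            ring
          rw [e] at hZ2
          linarith
      · refine ⟨∅, by simp, ?_⟩
        rw [Finset.card_empty, Nat.cast_zero]
        have e1 : (m : ℝ) * (b - θ₀) ≤ K' + 1 := by
          have e2 : b - θ₀ ≤ (K' + 1) / m := by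
            rw [add_div]
            linarith
          calc (m : ℝ) * (b - θ₀) ≤ m * ((K' + 1) / m) := by gcongr
            _ = K' + 1 := by field_simp
        have e3 : (m : ℝ) * (b - θ₀) / Real.pi ≤ (K' + 1) / Real.pi := by gcongr
        linarith
    · refine ⟨∅, by simp, ?_⟩
      rw [Finset.card_empty, Nat.cast_zero]
      have e1 : (m : ℝ) ≤ m₁ := by
        push_neg at hm
        exact_mod_cast hm.le
      have e3 : (m : ℝ) * (b - θ₀) / Real.pi ≤ (m₁ : ℝ) * (b - θ₀) / Real.pi := by gcongr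
      linarith
  · intro a ha1 ha2 ha3
    refine ⟨(m₁ : ℝ) * (θ₀ - a) / Real.pi + (K' + 1) / Real.pi + 2 * |B| / Real.pi + 3, ?_⟩
    intro m
    have hbpos : 0 < θ₀ - a := by linarith
    have t1 : 0 ≤ (m₁ : ℝ) * (θ₀ - a) / Real.pi := by positivity
    have t2 : 0 ≤ (K' + 1) / Real.pi := by positivity
    have t3 : 0 ≤ 2 * |B| / Real.pi := by positivity
    have t4 : 2 * B / Real.pi ≤ 2 * |B| / Real.pi := by
      have := le_abs_self B
      gcongr
    by_cases hm : m₁ ≤ m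
    · have hm0 : (0 : ℝ) < m := by
        have : 1 ≤ m := (le_max_right _ _).trans hm
        exact_mod_cast this
      by_cases huv : a + 1 / m < θ₀ - K' / m
      · obtain ⟨Z, hZ1, hZ2⟩ := key m hm (a + 1 / m) (θ₀ - K' / m) huv (by
          have : 0 < 1 / (m : ℝ) := by positivity
          linarith) (by
          have : 0 < K' / m := by positivity
          linarith [hθ₀.2]) (by
          intro θ hθ
          have q1 : 0 < K' / m := by positivity
          have q2 : 0 < 1 / (m : ℝ) := by positivity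
          have q3 : θ - θ₀ < 0 := by linarith [hθ.2]
          rw [abs_of_neg q3]
          constructor
          · linarith [hθ.2]
          · linarith [hθ.1])
        refine ⟨Z, ?_, ?_⟩
        · intro x hx
          obtain ⟨p1, p2, p3⟩ := hZ1 x hx
          have q1 : 0 < K' / m := by positivity
          have q2 : 0 < 1 / (m : ℝ) := by positivity
          exact ⟨⟨⟨by linarith, by linarith [hθ₀.2]⟩, p3⟩, by linarith, by linarith⟩
        · have e : (m : ℝ) * (θ₀ - K' / m - (a + 1 / m)) / Real.pi =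
              (m : ℝ) * (θ₀ - a) / Real.pi - (K' + 1) / Real.pi := by
            field_simp
            ring
          rw [e] at hZ2
          linarith
      · refine ⟨∅, by simp, ?_⟩
        rw [Finset.card_empty, Nat.cast_zero]
        have e1 : (m : ℝ) * (θ₀ - a) ≤ K' + 1 := by
          have e2 : θ₀ - a ≤ (K' + 1) / m := by
            rw [add_div]
            linarith
          calc (m : ℝ) * (θ₀ - a) ≤ m * ((K' + 1) / m) := by gcongr
            _ = K' + 1 := by field_simp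
        have e3 : (m : ℝ) * (θ₀ - a) / Real.pi ≤ (K' + 1) / Real.pi := by gcongr
        linarith
    · refine ⟨∅, by simp, ?_⟩
      rw [Finset.card_empty, Nat.cast_zero]
      have e1 : (m : ℝ) ≤ m₁ := by
        push_neg at hm
        exact_mod_cast hm.le
      have e3 : (m : ℝ) * (θ₀ - a) / Real.pi ≤ (m₁ : ℝ) * (θ₀ - a) / Real.pi := by gcongr
      linarith

end Pool.Agent.KS6_47.Zof
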