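import Pool.Agent.KS6_47.Zof.Defs

/-! Module N11 of project ZZ (MP_4d57dd_an): the case `n = r = 1`. -/

namespace Pool.Agent.KS6_47.Zof.ModN11

open Polynomial

lemma geom {K : Type*} [Field K] (c w : K) (hc : c ≠ 0) :
    (PowerSeries.mk (fun j => w ^ j * c⁻¹)) *
      (PowerSeries.C c - PowerSeries.C (c * w) * PowerSeries.X) = 1 := by
  rw [mul_sub, ← mul_assoc]
  ext n
  cases n with
  | zero => simp [hc]
  | succ n =>
    rw [map_sub, PowerSeries.coeff_succ_mul_X, PowerSeries.coeff_mul_C, PowerSeries.coeff_mul_C,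
      PowerSeries.coeff_mk, PowerSeries.coeff_mk, PowerSeries.coeff_one, if_neg (by omega)]
    field_simp
    ring

lemma out_le (H : ℝ[X]) : out H ≤ H.natDegree := by
  unfold out
  refine (Multiset.card_le_card (Multiset.filter_le _ _)).trans ?_
  refine (Polynomial.card_roots' _).trans ?_
  exact Polynomial.natDegree_map_le

lemma out_mul_pow (p G : ℝ[X]) (a : ℝ) (ha : 0 < a) (hp : p = C a - X) (k : ℕ) (hG : G ≠ 0) :
    out (p ^ k * G) ≤ G.natDegree := by
  have hp0 : p ≠ 0 := by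
    intro h
    have := congrArg (Polynomial.coeff · 1) (hp.symm.trans h)
    simp at this
  have h1 : (p.map (algebraMap ℝ ℂ)).roots = {(a : ℂ)} := by
    rw [hp, Polynomial.map_sub, Polynomial.map_C, Polynomial.map_X,
      show (C ((algebraMap ℝ ℂ) a) - X : ℂ[X]) = -(X - C (a : ℂ)) by
        rw [Complex.coe_algebraMap]; ring, Polynomial.roots_neg, Polynomial.roots_X_sub_C]
  unfold out
  rw [Polynomial.map_mul, Polynomial.map_pow, Polynomial.roots_mul, Polynomial.roots_pow, h1,
    Multiset.filter_add, Multiset.card_add]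
  · have h2 : Multiset.filter (fun w : ℂ => ¬(w.im = 0 ∧ 0 < w.re)) (k • {(a : ℂ)}) = 0 := by
      rw [Multiset.filter_eq_nil]
      intro w hw
      rw [Multiset.nsmul_singleton, Multiset.mem_replicate] at hw
      rw [hw.2]
      simp [ha]
    rw [h2, Multiset.card_zero, zero_add]
    exact out_le G
  · rw [← Polynomial.map_pow, ← Polynomial.map_mul]
    exact (Polynomial.map_ne_zero_iff (algebraMap ℝ ℂ).injective).2
      (mul_ne_zero (pow_ne_zero _ hp0) hG)

lemma Q_eq (D : Dat) (hn : D.n = 1) :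
    ∃ a : ℝ, 0 < a ∧ D.Q = C D.c * (1 - C a⁻¹ * X) := by
  obtain ⟨n, a, c, r, ha, hc, h1⟩ := D
  simp only at hn
  subst hn
  exact ⟨a 0, ha 0, by simp [Dat.Q]⟩

lemma key (a c : ℝ) (hc : 0 < c) (R : ℝ[X]) (m : ℕ) :
    coefP (C c * (1 - C a⁻¹ * X)) 1 (lift R) m * (algebraMap ℝ[X] (RatFunc ℝ) (C c)) ^ (m + 1) =
      algebraMap ℝ[X] (RatFunc ℝ)
        (∑ j ∈ Finset.range (m + 1), C (R.coeff j * c ^ j) * (C (c / a) - X) ^ (m - j)) := by
  have hcK : (algebraMap ℝ (RatFunc ℝ) c) ≠ 0 := by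
    rw [Ne, map_eq_zero]; exact hc.ne'
  set cK : RatFunc ℝ := algebraMap ℝ (RatFunc ℝ) c with hcKd
  set p : RatFunc ℝ := algebraMap ℝ[X] (RatFunc ℝ) (C (c / a) - X) with hpd
  have hC : algebraMap ℝ[X] (RatFunc ℝ) (C c) = cK := rfl
  have hp : p = cK * (algebraMap ℝ (RatFunc ℝ) a⁻¹) - RatFunc.X := by
    rw [hpd, map_sub, RatFunc.algebraMap_X, show algebraMap ℝ[X] (RatFunc ℝ) (C (c / a)) =
      algebraMap ℝ (RatFunc ℝ) (c / a) from rfl, div_eq_mul_inv, map_mul]
  have hden : ((((C c * (1 - C a⁻¹ * X) : ℝ[X]).map (algebraMap ℝ (RatFunc ℝ)) +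
      C RatFunc.X * X ^ 1 : (RatFunc ℝ)[X])) : PowerSeries (RatFunc ℝ)) =
      PowerSeries.C cK - PowerSeries.C (cK * (p / cK)) * PowerSeries.X := by
    rw [mul_div_cancel₀ _ hcK, hp]
    simp only [Polynomial.map_mul, Polynomial.map_sub, Polynomial.map_one, Polynomial.map_C,
      Polynomial.map_X, Polynomial.coe_add, Polynomial.coe_mul, Polynomial.coe_sub,
      Polynomial.coe_one, Polynomial.coe_C, Polynomial.coe_X, pow_one, map_sub, map_mul]
    ring
  have hcc : PowerSeries.constantCoeff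
      (PowerSeries.C cK - PowerSeries.C (cK * (p / cK)) * PowerSeries.X) ≠ 0 := by
    simpa using hcK
  have hinv := (PowerSeries.eq_inv_iff_mul_eq_one hcc).2 (geom cK (p / cK) hcK)
  have hl : (lift R).map (algebraMap ℝ[X] (RatFunc ℝ)) = R.map (algebraMap ℝ (RatFunc ℝ)) := by
    rw [lift, Polynomial.map_map]
    rfl
  unfold coefP
  rw [hden, ← hinv, hl, hC, PowerSeries.coeff_mul,
    Finset.Nat.sum_antidiagonal_eq_sum_range_succ
      (fun i j => PowerSeries.coeff i
        ((R.map (algebraMap ℝ (RatFunc ℝ)) : (RatFunc ℝ)[X]) : PowerSeries (RatFunc ℝ)) *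
        PowerSeries.coeff j (PowerSeries.mk fun j => (p / cK) ^ j * cK⁻¹)), Finset.sum_mul,
    map_sum]
  refine Finset.sum_congr rfl fun j hj => ?_
  have hj' : j ≤ m := by
    have := Finset.mem_range.1 hj
    omega
  rw [Polynomial.coeff_coe, Polynomial.coeff_map, PowerSeries.coeff_mk, map_mul, map_pow,
    ← hpd, show algebraMap ℝ[X] (RatFunc ℝ) (C (R.coeff j * c ^ j)) =
      algebraMap ℝ (RatFunc ℝ) (R.coeff j * c ^ j) from rfl, map_mul, map_pow, ← hcKd, div_pow]
  have h1 : cK ^ (m + 1) = cK ^ (m - j) * cK ^ j * cK := by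
    rw [← pow_add, ← pow_succ]
    congr 1
    omega
  rw [h1]
  field_simp

end Pool.Agent.KS6_47.Zof.ModN11

namespace Pool.Agent.KS6_47.Zof

open Polynomial ModN11

theorem mN11 : StmN11 := by
  intro D R hn hr m H hH hH0
  obtain ⟨a, ha, hQ⟩ := Q_eq D hn
  have hq0 : D.q0 = C D.c := by simp [Dat.q0, hr]
  rw [hq0, hQ, hr, key a D.c D.hc R m] at hH
  have hHe : ∑ j ∈ Finset.range (m + 1), C (R.coeff j * D.c ^ j) *
      (C (D.c / a) - X) ^ (m - j) = H := IsFractionRing.injective ℝ[X] (RatFunc ℝ) hH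
  have hdeg1 : (C (D.c / a) - X : ℝ[X]).natDegree ≤ 1 := by
    refine (Polynomial.natDegree_sub_le _ _).trans ?_
    simp
  have hdegs : ∀ (k : ℕ), (∑ j ∈ Finset.range (k + 1), C (R.coeff j * D.c ^ j) *
      (C (D.c / a) - X) ^ (k - j)).natDegree ≤ k := by
    intro k
    refine Polynomial.natDegree_sum_le_of_forall_le _ _ fun j _ => ?_
    refine (Polynomial.natDegree_C_mul_le _ _).trans ?_
    refine (Polynomial.natDegree_pow_le).trans ?_
    calc (k - j) * (C (D.c / a) - X : ℝ[X]).natDegree ≤ (k - j) * 1 :=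
          Nat.mul_le_mul_left _ hdeg1
      _ ≤ k := by omega
  rcases le_or_gt m R.natDegree with hm | hm
  · refine (out_le H).trans (le_trans ?_ hm)
    rw [← hHe]
    exact hdegs m
  · have hfac : H = (C (D.c / a) - X) ^ (m - R.natDegree) *
        ∑ j ∈ Finset.range (R.natDegree + 1), C (R.coeff j * D.c ^ j) *
          (C (D.c / a) - X) ^ (R.natDegree - j) := by
      rw [← hHe, Finset.mul_sum]
      rw [← Finset.sum_subset (s₁ := Finset.range (R.natDegree + 1))
        (s₂ := Finset.range (m + 1))]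
      · refine Finset.sum_congr rfl fun j hj => ?_
        have hj' : j ≤ R.natDegree := by
          have := Finset.mem_range.1 hj
          omega
        have h2 : m - j = (m - R.natDegree) + (R.natDegree - j) := by omega
        rw [h2, pow_add]
        ring
      · intro x hx
        rw [Finset.mem_range] at hx ⊢
        omega
      · intro x _ hx
        rw [Finset.mem_range, not_lt] at hx
        rw [Polynomial.coeff_eq_zero_of_natDegree_lt (by omega)]
        simp
    have hG : (∑ j ∈ Finset.range (R.natDegree + 1), C (R.coeff j * D.c ^ j) *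
          (C (D.c / a) - X) ^ (R.natDegree - j)) ≠ 0 := by
      intro h
      rw [h, mul_zero] at hfac
      exact hH0 hfac
    rw [hfac]
    exact (out_mul_pow _ _ (D.c / a) (div_pos D.hc ha) rfl _ hG).trans (hdegs _)

end Pool.Agent.KS6_47.Zof
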