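import Pool.Agent.KS6_47.Zof.Defs

/-!
# Module PCONT (helper82 for helper48)
-/

set_option autoImplicit false

namespace Pool.Agent.KS6_47.Zof.ModPCONT

open Polynomial Set Filter Topology

theorem coeff_dp (D : Dat) (j : ℕ) (z : ℝ) :
    PowerSeries.coeff j ((D.dp z : ℝ[X]) : PowerSeries ℝ) =
      D.Q.coeff j + z * (if j = D.r then 1 else 0) := by
  rw [Polynomial.coeff_coe]
  unfold Dat.dp
  rw [coeff_add, coeff_C_mul, coeff_X_pow]

theorem Q_zero (D : Dat) : D.Q.coeff 0 = D.c := by
  rw [coeff_zero_eq_eval_zero]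
  unfold Dat.Q
  rw [eval_mul, eval_C, eval_prod]
  simp

theorem cc_pos (D : Dat) (z : ℝ) (hz : 0 < z) :
    0 < PowerSeries.constantCoeff ((D.dp z : ℝ[X]) : PowerSeries ℝ) := by
  rw [← PowerSeries.coeff_zero_eq_constantCoeff_apply, coeff_dp, Q_zero]
  have := D.hc
  split_ifs <;> nlinarith

theorem cont_inv (D : Dat) (n : ℕ) :
    ContinuousOn (fun z : ℝ => PowerSeries.coeff n ((D.dp z : ℝ[X]) : PowerSeries ℝ)⁻¹)
      (Ioi 0) := by
  have hcoef : ∀ j, ContinuousOn (fun z : ℝ =>
      PowerSeries.coeff j ((D.dp z : ℝ[X]) : PowerSeries ℝ)) (Ioi 0) := by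
    intro j
    simp only [coeff_dp]
    fun_prop
  have hcc : ContinuousOn (fun z : ℝ =>
      (PowerSeries.constantCoeff ((D.dp z : ℝ[X]) : PowerSeries ℝ))⁻¹) (Ioi 0) := by
    apply ContinuousOn.inv₀
    · have := hcoef 0
      simpa only [PowerSeries.coeff_zero_eq_constantCoeff_apply] using this
    · intro z hz
      exact (cc_pos D z hz).ne'
  induction n using Nat.strong_induction_on with
  | _ n ih =>
    have he : (fun z : ℝ => PowerSeries.coeff n ((D.dp z : ℝ[X]) : PowerSeries ℝ)⁻¹) =
        fun z : ℝ => if n = 0 then (PowerSeries.constantCoeff ((D.dp z : ℝ[X]) :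
          PowerSeries ℝ))⁻¹ else
          -(PowerSeries.constantCoeff ((D.dp z : ℝ[X]) : PowerSeries ℝ))⁻¹ *
            ∑ x ∈ Finset.HasAntidiagonal.antidiagonal n, if x.2 < n then
              PowerSeries.coeff x.1 ((D.dp z : ℝ[X]) : PowerSeries ℝ) *
                PowerSeries.coeff x.2 ((D.dp z : ℝ[X]) : PowerSeries ℝ)⁻¹ else 0 := by
      funext z
      exact PowerSeries.coeff_inv n _
    rw [he]
    by_cases hn : n = 0
    · simp only [hn, if_true]
      exact hcc
    · simp only [hn, if_false]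
      refine ContinuousOn.mul hcc.neg ?_
      refine continuousOn_finsetSum _ fun x _ => ?_
      by_cases h : x.2 < n
      · simp only [h, if_true]
        exact (hcoef x.1).mul (ih x.2 h)
      · simp only [h, if_false]
        exact continuousOn_const

end Pool.Agent.KS6_47.Zof.ModPCONT

namespace Pool.Agent.KS6_47.Zof

open Polynomial Set Filter Topology

theorem mPCONT : StmPCONT := by
  intro D R m
  unfold Dat.P
  simp only [PowerSeries.coeff_mul]
  refine continuousOn_finsetSum _ fun x _ => ?_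
  exact continuousOn_const.mul (ModPCONT.cont_inv D x.2)

end Pool.Agent.KS6_47.Zof
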