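import Pool.Agent.KS6_47.Zof.Defs

/-! Module RED of project ZZ (MP_4d57dd_an): reduction to a numerator not depending on `z`. -/

namespace Pool.Agent.KS6_47.Zof.ModRED

open Polynomial

/-- the denominator over the field of rational functions of `z` -/
noncomputable def Den (Q : ℝ[X]) (r : ℕ) : (RatFunc ℝ)[X] :=
  Q.map (algebraMap ℝ (RatFunc ℝ)) + C RatFunc.X * X ^ r

/-- the reducible numerators -/
def M (Q : ℝ[X]) (r : ℕ) (f : (RatFunc ℝ)[X]) : Prop :=
  ∃ (d : ℕ) (G : (RatFunc ℝ)[X]) (R : ℝ[X]),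
    X ^ (r * d) * f = Den Q r * G + R.map (algebraMap ℝ (RatFunc ℝ))

lemma M_add {Q : ℝ[X]} {r : ℕ} {f g : (RatFunc ℝ)[X]} (hf : M Q r f) (hg : M Q r g) :
    M Q r (f + g) := by
  obtain ⟨d, G, R, h⟩ := hf
  obtain ⟨e, G', R', h'⟩ := hg
  refine ⟨d + e, X ^ (r * e) * G + X ^ (r * d) * G', X ^ (r * e) * R + X ^ (r * d) * R', ?_⟩
  have h1 : (X : (RatFunc ℝ)[X]) ^ (r * (d + e)) * (f + g)
      = X ^ (r * e) * (X ^ (r * d) * f) + X ^ (r * d) * (X ^ (r * e) * g) := by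
    rw [mul_add r d e, pow_add]; ring
  rw [h1, h, h']
  simp only [Polynomial.map_add, Polynomial.map_mul, Polynomial.map_pow, Polynomial.map_X]
  ring

lemma M_mul_X {Q : ℝ[X]} {r : ℕ} {f : (RatFunc ℝ)[X]} (hf : M Q r f) : M Q r (X * f) := by
  obtain ⟨d, G, R, h⟩ := hf
  refine ⟨d, X * G, X * R, ?_⟩
  have h1 : (X : (RatFunc ℝ)[X]) ^ (r * d) * (X * f) = X * (X ^ (r * d) * f) := by ring
  rw [h1, h]
  simp only [Polynomial.map_mul, Polynomial.map_X]
  ring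

lemma M_mul_X_pow {Q : ℝ[X]} {r : ℕ} {f : (RatFunc ℝ)[X]} (hf : M Q r f) (k : ℕ) :
    M Q r (X ^ k * f) := by
  induction k with
  | zero => simpa using hf
  | succ k ih =>
    have : (X : (RatFunc ℝ)[X]) ^ (k + 1) * f = X * (X ^ k * f) := by ring
    rw [this]
    exact M_mul_X ih

lemma M_mul_z {Q : ℝ[X]} {r : ℕ} {f : (RatFunc ℝ)[X]} (hf : M Q r f) :
    M Q r (C RatFunc.X * f) := by
  obtain ⟨d, G, R, h⟩ := hf
  refine ⟨d + 1, C RatFunc.X * X ^ r * G + R.map (algebraMap ℝ (RatFunc ℝ)), -(Q * R), ?_⟩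
  have h1 : (X : (RatFunc ℝ)[X]) ^ (r * (d + 1)) * (C RatFunc.X * f)
      = C RatFunc.X * X ^ r * (X ^ (r * d) * f) := by
    rw [mul_add r d 1, pow_add, mul_one]; ring
  rw [h1, h]
  simp only [Den, Polynomial.map_neg, Polynomial.map_mul]
  ring

lemma M_const {Q : ℝ[X]} {r : ℕ} (c : ℝ) :
    M Q r (C (algebraMap ℝ (RatFunc ℝ) c)) :=
  ⟨0, 0, C c, by simp⟩

lemma M_z_pow {Q : ℝ[X]} {r : ℕ} (k : ℕ) (c : ℝ) :
    M Q r (C RatFunc.X ^ k * C (algebraMap ℝ (RatFunc ℝ) c)) := by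
  induction k with
  | zero => simpa using M_const (Q := Q) (r := r) c
  | succ k ih =>
    have : (C RatFunc.X : (RatFunc ℝ)[X]) ^ (k + 1) * C (algebraMap ℝ (RatFunc ℝ) c)
        = C RatFunc.X * (C RatFunc.X ^ k * C (algebraMap ℝ (RatFunc ℝ) c)) := by ring
    rw [this]
    exact M_mul_z ih

lemma M_C {Q : ℝ[X]} {r : ℕ} (p : ℝ[X]) :
    M Q r (C (algebraMap ℝ[X] (RatFunc ℝ) p)) := by
  induction p using Polynomial.induction_on' with
  | add p q hp hq =>
    rw [map_add, C_add]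
    exact M_add hp hq
  | monomial k c =>
    have h : (C (algebraMap ℝ[X] (RatFunc ℝ) (monomial k c)) : (RatFunc ℝ)[X])
        = C RatFunc.X ^ k * C (algebraMap ℝ (RatFunc ℝ) c) := by
      rw [← C_mul_X_pow_eq_monomial, map_mul, map_pow, RatFunc.algebraMap_X, C_mul, C_pow,
        mul_comm]
      congr 2
    rw [h]
    exact M_z_pow k c

lemma M_all {Q : ℝ[X]} {r : ℕ} (N : ℝ[X][X]) :
    M Q r (N.map (algebraMap ℝ[X] (RatFunc ℝ))) := by
  induction N using Polynomial.induction_on' with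
  | add p q hp hq =>
    rw [Polynomial.map_add]
    exact M_add hp hq
  | monomial k p =>
    rw [Polynomial.map_monomial, ← C_mul_X_pow_eq_monomial, mul_comm]
    exact M_mul_X_pow (M_C p) k

lemma constCoeff_ne (D : Dat) :
    PowerSeries.constantCoeff ((Den D.Q D.r : (RatFunc ℝ)[X]) : PowerSeries (RatFunc ℝ)) ≠ 0 := by
  have h0 : PowerSeries.constantCoeff ((Den D.Q D.r : (RatFunc ℝ)[X]) : PowerSeries (RatFunc ℝ))
      = algebraMap ℝ[X] (RatFunc ℝ) D.q0 := by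
    rw [← PowerSeries.coeff_zero_eq_constantCoeff_apply, Polynomial.coeff_coe]
    have hQ : D.Q.coeff 0 = D.c := by
      rw [Polynomial.coeff_zero_eq_eval_zero]
      simp [Dat.Q, Polynomial.eval_prod]
    simp only [Den, Dat.q0, coeff_add, coeff_map, hQ, coeff_C_mul, coeff_X_pow, map_add]
    rw [show algebraMap ℝ[X] (RatFunc ℝ) (C D.c) = algebraMap ℝ (RatFunc ℝ) D.c from rfl]
    congr 1
    by_cases hr : D.r = 0
    · simp [hr, RatFunc.algebraMap_X]
    · simp [hr, Ne.symm hr]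
  rw [h0]
  intro h
  have h1 : D.q0 = 0 := by
    apply (IsFractionRing.injective ℝ[X] (RatFunc ℝ))
    rw [h, map_zero]
  have h2 : D.q0.eval 1 = 0 := by rw [h1]; simp
  have hc := D.hc
  by_cases hr : D.r = 0
  · simp [Dat.q0, hr] at h2; linarith
  · simp [Dat.q0, hr] at h2; linarith

end Pool.Agent.KS6_47.Zof.ModRED

namespace Pool.Agent.KS6_47.Zof

open Polynomial ModRED

theorem mRED : StmRED := by
  intro D N
  obtain ⟨d, G, R, h⟩ := M_all (Q := D.Q) (r := D.r) N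
  refine ⟨R, D.r * d, G.natDegree + 1, fun m hm => ?_⟩
  have hinv := PowerSeries.mul_inv_cancel _ (constCoeff_ne D)
  have h' := congrArg (fun p : (RatFunc ℝ)[X] => (p : PowerSeries (RatFunc ℝ))) h
  simp only [Polynomial.coe_mul, Polynomial.coe_add, Polynomial.coe_pow, Polynomial.coe_X] at h'
  have hmain : (PowerSeries.X : PowerSeries (RatFunc ℝ)) ^ (D.r * d) *
      (((N.map (algebraMap ℝ[X] (RatFunc ℝ)) : (RatFunc ℝ)[X]) : PowerSeries (RatFunc ℝ)) *
        ((Den D.Q D.r : (RatFunc ℝ)[X]) : PowerSeries (RatFunc ℝ))⁻¹)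
      = (G : PowerSeries (RatFunc ℝ)) +
        ((R.map (algebraMap ℝ (RatFunc ℝ)) : (RatFunc ℝ)[X]) : PowerSeries (RatFunc ℝ)) *
        ((Den D.Q D.r : (RatFunc ℝ)[X]) : PowerSeries (RatFunc ℝ))⁻¹ := by
    rw [← mul_assoc, h', add_mul]
    congr 1
    rw [mul_comm ((Den D.Q D.r : (RatFunc ℝ)[X]) : PowerSeries (RatFunc ℝ)), mul_assoc, hinv,
      mul_one]
  have hl : (lift R).map (algebraMap ℝ[X] (RatFunc ℝ)) = R.map (algebraMap ℝ (RatFunc ℝ)) := by
    rw [lift, Polynomial.map_map]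
    rfl
  have h2 := congrArg (PowerSeries.coeff (m + D.r * d)) hmain
  rw [PowerSeries.coeff_X_pow_mul, map_add, Polynomial.coeff_coe,
    Polynomial.coeff_eq_zero_of_natDegree_lt (by omega), zero_add] at h2
  unfold coefP
  rw [hl]
  exact h2

end Pool.Agent.KS6_47.Zof
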