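import Pool.Agent.KS6_47.Zof.B43

/-!
Project ZZ, module TYPE1 (helper43).
-/

namespace Pool.Agent.KS6_47.Zof.ModTYPE1

open Polynomial Set Filter Topology
open Pool.Agent.KS6_47.Zof Pool.Agent.KS6_47.Zof.B43

/-- the denominator as a complex polynomial -/
noncomputable def dc (D : Dat) (z : ℝ) : ℂ[X] :=
  D.Q.map (algebraMap ℝ ℂ) + C (z : ℂ) * X ^ D.r

theorem dc_eval (D : Dat) (z : ℝ) (w : ℂ) : (dc D z).eval w = D.den z w := by
  have h : (D.Q.map (algebraMap ℝ ℂ)).eval w = D.q w := by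
    rw [← aeval_Q, Polynomial.aeval_def, eval_map]
  rw [dc, eval_add, h, Dat.den]
  simp

theorem L_map (D : Dat) (z : ℝ) :
    D.L.map (algebraMap ℝ ℂ) = C (D.r : ℂ) * dc D z - X * derivative (dc D z) := by
  unfold Dat.L dc
  rw [Polynomial.map_sub, Polynomial.map_mul, Polynomial.map_mul, Polynomial.map_X,
    Polynomial.map_C, derivative_add, Polynomial.derivative_map]
  have h : X * derivative (C (z : ℂ) * X ^ D.r) = C (D.r : ℂ) * (C (z : ℂ) * X ^ D.r) := by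
    rw [derivative_C_mul, derivative_X_pow]
    rcases Nat.eq_zero_or_pos D.r with h0 | h0
    · rw [h0]; simp
    · obtain ⟨k, hk⟩ := Nat.exists_eq_succ_of_ne_zero h0.ne'
      rw [hk, Nat.succ_sub_one, pow_succ]
      ring
  have h2 : (algebraMap ℝ ℂ) (D.r : ℝ) = (D.r : ℂ) := by simp
  rw [h2, mul_add, mul_add, h]
  ring

theorem aeval_L' (D : Dat) (z : ℝ) (w : ℂ) :
    aeval w D.L = (D.r : ℂ) * (dc D z).eval w - w * (derivative (dc D z)).eval w := by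
  rw [Polynomial.aeval_def, ← eval_map, L_map D z]
  simp

theorem aeval_dL (D : Dat) (z : ℝ) (w : ℂ) :
    aeval w (derivative D.L) = (D.r : ℂ) * (derivative (dc D z)).eval w -
      ((derivative (dc D z)).eval w + w * (derivative (derivative (dc D z))).eval w) := by
  rw [Polynomial.aeval_def, ← eval_map, ← Polynomial.derivative_map, L_map D z]
  simp

theorem two_roots (p : ℂ[X]) (t u : ℂ) (h : t ≠ u) (h1 : p.eval t = 0) (h2 : p.eval u = 0) :
    ∃ E : ℂ[X], p = (X - C t) * (X - C u) * E := by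
  obtain ⟨p1, hp1⟩ := dvd_iff_isRoot.2 h1
  have h3 : p1.eval u = 0 := by
    rw [hp1] at h2
    simp only [eval_mul, eval_sub, eval_X, eval_C, mul_eq_zero] at h2
    rcases h2 with h2 | h2
    · exact absurd (sub_eq_zero.1 h2).symm h
    · exact h2
  obtain ⟨p2, hp2⟩ := dvd_iff_isRoot.2 h3
  exact ⟨p2, by rw [hp1, hp2]; ring⟩

theorem double_root (p : ℂ[X]) (t : ℂ) (h1 : p.eval t = 0) (h2 : (derivative p).eval t = 0) :
    ∃ E : ℂ[X], p = (X - C t) * (X - C t) * E := by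
  obtain ⟨p1, hp1⟩ := dvd_iff_isRoot.2 h1
  have h3 : p1.eval t = 0 := by
    rw [hp1] at h2
    simpa using h2
  obtain ⟨p2, hp2⟩ := dvd_iff_isRoot.2 h3
  exact ⟨p2, by rw [hp1, hp2]; ring⟩

theorem main_factor (D : Dat) (t₀ : ℂ) (z₀ : ℝ) (ht : t₀ ≠ 0) (h0 : D.den z₀ t₀ = 0)
    (hb : ∀ b : ℂ, D.den z₀ b = 0 → ‖b‖ ≤ ‖t₀‖ → b = t₀ ∨ b = (starRingEnd ℂ) t₀)
    (hr : t₀.im = 0 → aeval t₀ D.L = 0 ∧ aeval t₀ (derivative D.L) ≠ 0) :
    ∃ E : ℂ[X], dc D z₀ = (X - C t₀) * (X - C ((starRingEnd ℂ) t₀)) * E ∧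
      ∀ b : ℂ, ‖b‖ ≤ ‖t₀‖ → E.eval b ≠ 0 := by
  have e0 : (dc D z₀).eval t₀ = 0 := by rw [dc_eval, h0]
  by_cases him : t₀.im = 0
  · obtain ⟨hL, hL'⟩ := hr him
    have hconj : (starRingEnd ℂ) t₀ = t₀ := Complex.conj_eq_iff_im.2 him
    rw [hconj] at hb ⊢
    have e1 : (derivative (dc D z₀)).eval t₀ = 0 := by
      rw [aeval_L' D z₀, e0] at hL
      have : t₀ * (derivative (dc D z₀)).eval t₀ = 0 := by linear_combination -hL
      exact (mul_eq_zero.1 this).resolve_left ht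
    obtain ⟨E, hE⟩ := double_root _ t₀ e0 e1
    refine ⟨E, hE, fun b hbn hEb => ?_⟩
    have hden : D.den z₀ b = 0 := by
      rw [← dc_eval, hE]; simp [hEb]
    have hbt : b = t₀ := by rcases hb b hden hbn with h | h <;> exact h
    subst hbt
    apply hL'
    rw [aeval_dL D z₀, e1, hE]
    simp [hEb]
  · have hne : t₀ ≠ (starRingEnd ℂ) t₀ := fun h => him (Complex.conj_eq_iff_im.1 h.symm)
    have e2 : (dc D z₀).eval ((starRingEnd ℂ) t₀) = 0 := by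
      rw [dc_eval, den_conj, h0, map_zero]
    obtain ⟨E, hE⟩ := two_roots _ t₀ _ hne e0 e2
    refine ⟨E, hE, fun b hbn hEb => ?_⟩
    have hden : D.den z₀ b = 0 := by
      rw [← dc_eval, hE]; simp [hEb]
    have hL : aeval b D.L = 0 := by
      rw [aeval_L' D z₀, dc_eval, hden, hE]
      rcases hb b hden hbn with h | h
      · rw [h] at hEb; simp [hEb, h]
      · rw [h] at hEb; simp [hEb, h]
    refine L_ne_zero_of_im D b ?_ hL
    rcases hb b hden hbn with h | h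
    · rw [h]; exact him
    · rw [h]; simpa using him

theorem exists_rho (E : ℂ[X]) (s : ℝ) (hs : 0 ≤ s) (h : ∀ b : ℂ, ‖b‖ ≤ s → E.eval b ≠ 0) :
    ∃ ρ, s < ρ ∧ ∀ b : ℂ, ‖b‖ ≤ ρ → E.eval b ≠ 0 := by
  have hE : E ≠ 0 := by
    rintro rfl
    exact h 0 (by simpa using hs) (by simp)
  have h1 : ∀ᶠ ρ in 𝓝[>] s, ∀ b ∈ E.roots.toFinset, ρ < ‖b‖ := by
    rw [Finset.eventually_all]
    intro b hb
    have hb' : E.eval b = 0 := by
      rw [Multiset.mem_toFinset, mem_roots hE] at hb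
      exact hb
    have h2 : s < ‖b‖ := by
      by_contra h3
      exact h b (not_lt.1 h3) hb'
    exact nhdsWithin_le_nhds (Iio_mem_nhds h2)
  have h2 : ∀ᶠ ρ in 𝓝[>] s, s < ρ := self_mem_nhdsWithin
  obtain ⟨ρ, hρ1, hρ2⟩ := (h1.and h2).exists
  refine ⟨ρ, hρ2, fun b hb h3 => ?_⟩
  have := hρ1 b (by rw [Multiset.mem_toFinset, mem_roots hE]; exact h3)
  linarith

theorem exists_delta (E : ℂ[X]) (ρ : ℝ) (h : ∀ b : ℂ, ‖b‖ ≤ ρ → E.eval b ≠ 0) :
    ∃ δ > 0, ∀ w : ℂ, ‖w‖ ≤ ρ → 2 * δ ≤ ‖E.eval w‖ := by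
  rcases (Metric.closedBall (0:ℂ) ρ).eq_empty_or_nonempty with h0 | h0
  · refine ⟨1, one_pos, fun w hw => ?_⟩
    have : w ∈ Metric.closedBall (0:ℂ) ρ := by simpa using hw
    rw [h0] at this
    exact this.elim
  · obtain ⟨w₀, hw₀, hmin⟩ := (isCompact_closedBall (0:ℂ) ρ).exists_isMinOn h0
      (E.continuous.norm.continuousOn)
    have hpos : 0 < ‖E.eval w₀‖ := norm_pos_iff.2 (h w₀ (by simpa using hw₀))
    refine ⟨‖E.eval w₀‖ / 2, by positivity, fun w hw => ?_⟩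
    have := hmin (show w ∈ Metric.closedBall (0:ℂ) ρ by simpa using hw)
    have h3 : ‖E.eval w₀‖ ≤ ‖E.eval w‖ := this
    linarith

/-- uniform closeness on the circle -/
theorem circle_close (D : Dat) (t₀ : ℂ) (z₀ ρ δ : ℝ) (hρ : ‖t₀‖ < ρ) (hδ : 0 < δ) (E : ℂ[X])
    (hE : dc D z₀ = (X - C t₀) * (X - C ((starRingEnd ℂ) t₀)) * E) :
    ∀ᶠ x : ℝ × ℂ in 𝓝 (z₀, t₀), ∀ w ∈ Metric.sphere (0:ℂ) ρ,
      ‖D.den x.1 w / ((w - x.2) * (w - (starRingEnd ℂ) x.2)) - E.eval w‖ < δ := by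
  refine (isCompact_sphere (0:ℂ) ρ).eventually_forall_of_forall_eventually fun y hy => ?_
  have hy' : ‖y‖ = ρ := by simpa using hy
  have hne1 : y - t₀ ≠ 0 := by
    intro h
    rw [sub_eq_zero.1 h] at hy'
    linarith
  have hne2 : y - (starRingEnd ℂ) t₀ ≠ 0 := by
    intro h
    rw [sub_eq_zero.1 h, Complex.norm_conj] at hy'
    linarith
  have hval : D.den z₀ y / ((y - t₀) * (y - (starRingEnd ℂ) t₀)) - E.eval y = 0 := by
    rw [← dc_eval, hE]
    simp only [eval_mul, eval_sub, eval_X, eval_C]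
    field_simp
    ring
  have hcont : ContinuousAt (fun p : (ℝ × ℂ) × ℂ =>
      ‖D.den p.1.1 p.2 / ((p.2 - p.1.2) * (p.2 - (starRingEnd ℂ) p.1.2)) - E.eval p.2‖)
      ((z₀, t₀), y) := by
    have hq := q_cont D
    have hEc := E.continuous
    have hconj : Continuous (fun w : ℂ => (starRingEnd ℂ) w) := Complex.continuous_conj
    have hden : Continuous (fun p : (ℝ × ℂ) × ℂ => D.den p.1.1 p.2) := by
      unfold Dat.den
      refine (hq.comp continuous_snd).add ?_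
      refine (Complex.continuous_ofReal.comp (continuous_fst.comp continuous_fst)).mul
        (continuous_snd.pow _)
    refine ContinuousAt.norm (ContinuousAt.sub (ContinuousAt.div hden.continuousAt ?_ ?_) ?_)
    · refine Continuous.continuousAt ?_
      refine (continuous_snd.sub (continuous_snd.comp continuous_fst)).mul
        (continuous_snd.sub (hconj.comp (continuous_snd.comp continuous_fst)))
    · exact mul_ne_zero hne1 hne2
    · exact (hEc.comp continuous_snd).continuousAt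
  have : (fun p : (ℝ × ℂ) × ℂ =>
      ‖D.den p.1.1 p.2 / ((p.2 - p.1.2) * (p.2 - (starRingEnd ℂ) p.1.2)) - E.eval p.2‖)
      ((z₀, t₀), y) < δ := by
    simp only [hval, norm_zero]
    exact hδ
  exact hcont.eventually_lt_const this

theorem disc_bound (D : Dat) (t : ℂ) (z ρ δ : ℝ) (hρ : 0 < ρ) (ht : t.im ≠ 0)
    (htρ : ‖t‖ < ρ) (h0 : D.den z t = 0) (E₀ : ℂ[X])
    (hE₀ : ∀ w : ℂ, ‖w‖ ≤ ρ → 2 * δ ≤ ‖E₀.eval w‖)
    (hc : ∀ w ∈ Metric.sphere (0:ℂ) ρ,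
      ‖D.den z w / ((w - t) * (w - (starRingEnd ℂ) t)) - E₀.eval w‖ < δ) :
    ∃ E : ℂ[X], dc D z = (X - C t) * (X - C ((starRingEnd ℂ) t)) * E ∧
      ∀ w : ℂ, ‖w‖ ≤ ρ → δ ≤ ‖E.eval w‖ := by
  have e0 : (dc D z).eval t = 0 := by rw [dc_eval, h0]
  have e1 : (dc D z).eval ((starRingEnd ℂ) t) = 0 := by rw [dc_eval, den_conj, h0, map_zero]
  have hne : t ≠ (starRingEnd ℂ) t := fun h => ht (Complex.conj_eq_iff_im.1 h.symm)
  obtain ⟨E, hE⟩ := two_roots _ t _ hne e0 e1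
  refine ⟨E, hE, fun w hw => ?_⟩
  have hdiff : ‖(E - E₀).eval w‖ ≤ δ := by
    refine Complex.norm_le_of_forall_mem_frontier_norm_le (U := Metric.ball (0:ℂ) ρ)
      Metric.isBounded_ball (f := fun w => (E - E₀).eval w)
      ((E - E₀).differentiable.diffContOnCl) ?_ ?_
    · intro y hy
      rw [frontier_ball _ hρ.ne'] at hy
      have hy' : ‖y‖ = ρ := by simpa using hy
      have h1 := hc y hy
      have hne1 : y - t ≠ 0 := by
        intro h
        rw [sub_eq_zero.1 h] at hy'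
        linarith
      have hne2 : y - (starRingEnd ℂ) t ≠ 0 := by
        intro h
        rw [sub_eq_zero.1 h, Complex.norm_conj] at hy'
        linarith
      have hval : D.den z y / ((y - t) * (y - (starRingEnd ℂ) t)) = E.eval y := by
        rw [← dc_eval, hE]
        simp only [eval_mul, eval_sub, eval_X, eval_C]
        field_simp
      rw [hval] at h1
      simp only [eval_sub]
      exact h1.le
    · rw [closure_ball _ hρ.ne']
      simpa using hw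
  have h2 := hE₀ w hw
  have h3 : ‖E₀.eval w‖ ≤ ‖E.eval w‖ + ‖(E - E₀).eval w‖ := by
    have : E₀.eval w = E.eval w - (E - E₀).eval w := by simp
    calc ‖E₀.eval w‖ = ‖E.eval w - (E - E₀).eval w‖ := by rw [← this]
      _ ≤ _ := norm_sub_le _ _
  linarith

end Pool.Agent.KS6_47.Zof.ModTYPE1

namespace Pool.Agent.KS6_47.Zof

open Polynomial Set Filter Topology
open Pool.Agent.KS6_47.Zof.B43 Pool.Agent.KS6_47.Zof.ModTYPE1

theorem mTYPE1 (hl : StmLOW) (hz : StmZINJ) : StmTYPE1 := by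
  intro D R tau θ₀ t₀ z₀ hcur hR hz₀ ht₀ him ht₀' hlim hden hroots hreal
  obtain ⟨E₀, hE₀, hE₀'⟩ := main_factor D t₀ z₀ ht₀ hden hroots hreal
  obtain ⟨ρ, hρ, hρ'⟩ := exists_rho E₀ ‖t₀‖ (norm_nonneg _) hE₀'
  obtain ⟨δ, hδ, hδ'⟩ := exists_delta E₀ ρ hρ'
  have hρ0 : 0 < ρ := (norm_nonneg _).trans_lt hρ
  obtain ⟨ε₁, hε₁, c, hc, κ, hlow⟩ := hl D R tau θ₀ t₀ hcur hR ht₀ ht₀' hlim
  obtain ⟨-, -, hzz⟩ := hz D tau hcur
  have htn : 0 < ‖t₀‖ := norm_pos_iff.2 ht₀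
  -- norms
  have hmem : ∀ᶠ θ in 𝓝[Ioo 0 D.thm \ {θ₀}] θ₀, θ ∈ Ioo 0 D.thm \ {θ₀} := self_mem_nhdsWithin
  have htau : Tendsto tau (𝓝[Ioo 0 D.thm \ {θ₀}] θ₀) (𝓝 ‖t₀‖) := by
    refine (hlim.norm).congr' ?_
    filter_upwards [hmem] with θ hθ
    exact norm_pt tau θ (hcur.2 θ hθ.1).1.le
  have hz₀' : ‖D.q t₀‖ / ‖t₀‖ ^ D.r = z₀ := by
    rw [norm_q_root D z₀ t₀ hz₀ hden]
    field_simp
  have hzt : Tendsto (D.zz tau) (𝓝[Ioo 0 D.thm \ {θ₀}] θ₀) (𝓝 z₀) := by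
    rw [← hz₀']
    exact ((((q_cont D).tendsto t₀).comp hlim).norm).div (htau.pow _) (pow_pos htn _).ne'
  -- the ratio
  obtain ⟨q, hq1, hq2, hq0⟩ : ∃ q : ℝ, ‖t₀‖ < q * ρ ∧ q < 1 ∧ 0 < q := by
    have h1 : ‖t₀‖ / ρ < 1 := (div_lt_one hρ0).2 hρ
    refine ⟨(‖t₀‖ / ρ + 1) / 2, ?_, by linarith, by positivity⟩
    have : ‖t₀‖ = ‖t₀‖ / ρ * ρ := by field_simp
    nlinarith
  have hev1 : ∀ᶠ θ in 𝓝[Ioo 0 D.thm \ {θ₀}] θ₀, tau θ < q * ρ := htau.eventually_lt_const hq1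
  have hev2 := (hzt.prodMk_nhds hlim).eventually
    (circle_close D t₀ z₀ ρ δ hρ hδ E₀ hE₀)
  obtain ⟨ε₂, hε₂, hall⟩ := eps_of_eventually (Ioo 0 D.thm) θ₀ _ (hev1.and hev2)
  have hB : 0 < δ * ((1 - q) * ρ) ^ 2 := by
    have : 0 < 1 - q := by linarith
    positivity
  refine ⟨min ε₁ ε₂, lt_min hε₁ hε₂, ρ, hρ0, q, hq0, hq2, (δ * ((1 - q) * ρ) ^ 2)⁻¹,
    inv_pos.2 hB, c, hc, κ, fun θ hθ h0 h1 => ?_⟩
  obtain ⟨ha1, ha2⟩ := hall θ hθ h0 (h1.trans (min_le_right _ _))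
  obtain ⟨hzpos, hroot, himp, -⟩ := hzz θ hθ
  have hnt : ‖pt tau θ‖ = tau θ := norm_pt tau θ (hcur.2 θ hθ).1.le
  have hqρ : q * ρ < ρ := by nlinarith
  obtain ⟨E, hE, hEb⟩ := disc_bound D (pt tau θ) (D.zz tau θ) ρ δ hρ0 himp.ne'
    (by rw [hnt]; linarith) hroot E₀ hδ' ha2
  refine ⟨ha1.le, ?_, ?_, hlow θ hθ h0 (h1.trans (min_le_left _ _))⟩
  · intro w hw
    rw [inv_inv, ← dc_eval, hE]
    simp only [eval_mul, eval_sub, eval_X, eval_C, norm_mul]
    have hd1 : (1 - q) * ρ ≤ ‖w - pt tau θ‖ := by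
      have := norm_sub_norm_le w (pt tau θ)
      rw [hw, hnt] at this
      nlinarith
    have hd2 : (1 - q) * ρ ≤ ‖w - (starRingEnd ℂ) (pt tau θ)‖ := by
      have := norm_sub_norm_le w ((starRingEnd ℂ) (pt tau θ))
      rw [hw, Complex.norm_conj, hnt] at this
      nlinarith
    have hd3 : 0 ≤ (1 - q) * ρ := by
      have : 0 < 1 - q := by linarith
      positivity
    calc δ * ((1 - q) * ρ) ^ 2 = ((1 - q) * ρ) * ((1 - q) * ρ) * δ := by ring
      _ ≤ ‖w - pt tau θ‖ * ‖w - (starRingEnd ℂ) (pt tau θ)‖ * ‖E.eval w‖ :=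
        mul_le_mul (mul_le_mul hd1 hd2 hd3 (norm_nonneg _)) (hEb w hw.le) hδ.le (by positivity)
  · intro b hb hbρ
    have hE0 : E.eval b ≠ 0 := by
      intro h
      have := hEb b hbρ
      rw [h, norm_zero] at this
      linarith
    have hbb : b = pt tau θ ∨ b = (starRingEnd ℂ) (pt tau θ) := by
      rw [← dc_eval, hE] at hb
      simp only [eval_mul, eval_sub, eval_X, eval_C, mul_eq_zero, hE0, or_false,
        sub_eq_zero] at hb
      exact hb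
    refine ⟨?_, ?_, ?_⟩
    · rcases hbb with h | h
      · rw [h, hnt]; exact ha1.le
      · rw [h, Complex.norm_conj, hnt]; exact ha1.le
    · apply L_ne_zero_of_im
      rcases hbb with h | h
      · rw [h]; exact himp.ne'
      · rw [h, Complex.conj_im]; exact (neg_neg_of_pos himp).ne
    · rcases hbb with h | h
      · exact Or.inl h
      · exact Or.inr (Or.inl h)

end Pool.Agent.KS6_47.Zof
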