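import Pool.Agent.KS6_47.Zof.Basic

namespace Pool.Agent.KS6_47.Zof

open Polynomial Set Filter Topology

theorem mZINJ (hA : StmARG) (hG : StmGAP) : StmZINJ := by
  intro D tau htau
  have hroot : ∀ θ ∈ Ioo 0 D.thm, 0 < D.zz tau θ ∧ D.den (D.zz tau θ) (pt tau θ) = 0 := by
    intro θ hθ
    have hpos := htau.pos hθ
    have him := htau.im_pos hθ
    have h0 := pt_ne_zero hpos
    have hz : 0 < D.zz tau θ := by
      unfold Dat.zz
      exact div_pos (norm_pos_iff.2 (D.q_ne_zero_of_im him.ne')) (pow_pos hpos _)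
    refine ⟨hz, ?_⟩
    obtain ⟨_, _, h3⟩ := hA D (pt tau θ) him.le h0
    rw [(htau.2 θ hθ).2] at h3
    have h4 : Complex.exp (-(Complex.I * (Real.pi : ℂ))) = -1 := by
      rw [mul_comm, Complex.exp_neg, Complex.exp_pi_mul_I]
      norm_num
    rw [h4, div_eq_iff (pow_ne_zero _ h0), norm_pt hpos] at h3
    unfold Dat.den
    rw [h3]
    unfold Dat.zz
    push_cast
    ring
  have hdom : ∀ θ ∈ Ioo 0 D.thm, ∀ b : ℂ, D.den (D.zz tau θ) b = 0 → b = pt tau θ ∨
      b = (starRingEnd ℂ) (pt tau θ) ∨ tau θ < ‖b‖ := by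
    intro θ hθ b hb
    have hpos := htau.pos hθ
    have him := htau.im_pos hθ
    obtain ⟨hz, hd⟩ := hroot θ hθ
    rcases le_or_gt 0 b.im with h | h
    · by_cases hbe : b = pt tau θ
      · exact Or.inl hbe
      · right; right
        have := (hG D _ (pt tau θ) b hz him.le h hd hb (htau.2 θ hθ).2 hbe (Or.inl him)).1
        rwa [norm_pt hpos] at this
    · by_cases hbe : (starRingEnd ℂ) b = pt tau θ
      · right; left
        rw [← hbe, Complex.conj_conj]
      · right; right
        have h' : 0 ≤ ((starRingEnd ℂ) b).im := by rw [Complex.conj_im]; linarith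
        have := (hG D _ (pt tau θ) _ hz him.le h' hd (D.den_conj_eq_zero hb) (htau.2 θ hθ).2
          hbe (Or.inl him)).1
        rwa [norm_pt hpos, Complex.norm_conj] at this
  refine ⟨?_, ?_, fun θ hθ => ⟨(hroot θ hθ).1, (hroot θ hθ).2, htau.im_pos hθ, hdom θ hθ⟩⟩
  · unfold Dat.zz
    refine ContinuousOn.div ?_ (htau.1.pow _) (fun θ hθ => pow_ne_zero _ (htau.pos hθ).ne')
    exact ((continuous_q D).comp_continuousOn htau.continuousOn_pt).norm
  · intro x hx y hy hxy
    have hxi := htau.im_pos hx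
    have hyi := htau.im_pos hy
    have h1 := hdom x hx (pt tau y) (by
      have := (hroot y hy).2
      rwa [← hxy] at this)
    have h2 := hdom y hy (pt tau x) (by
      have := (hroot x hx).2
      rwa [hxy] at this)
    have hconj : ∀ u v : ℂ, 0 < u.im → 0 < v.im → u ≠ (starRingEnd ℂ) v := by
      intro u v hu hv h
      rw [h, Complex.conj_im] at hu
      linarith
    have heq : pt tau y = pt tau x := by
      rcases h1 with h1 | h1 | h1
      · exact h1
      · exact absurd h1 (hconj _ _ hyi hxi)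
      · rcases h2 with h2 | h2 | h2
        · exact h2.symm
        · exact absurd h2 (hconj _ _ hxi hyi)
        · rw [norm_pt (htau.pos hy)] at h1
          rw [norm_pt (htau.pos hx)] at h2
          linarith
    rw [← arg_pt (htau.pos hx) hx.1 (Dat.IsCurve.lt_pi hx),
      ← arg_pt (htau.pos hy) hy.1 (Dat.IsCurve.lt_pi hy), heq]

end Pool.Agent.KS6_47.Zof
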